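import Mathlib

set_option autoImplicit false

/-!
Statements of the main steps of the proof (MP_9b3484_nt), so that the parts can be proved
separately.
-/

namespace Pool.Agent.Helper8

/-- a natural number of the form 2^i 3^j -/
def Smooth23 (n : ℕ) : Prop := ∃ i j : ℕ, n = 2 ^ i * 3 ^ j

/-- three multiplicatively independent positive reals, tested on integer exponents -/
def MulIndep3 (a b y : ℝ) : Prop :=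
  ∀ i j k : ℤ, a ^ i * b ^ j * y ^ k = 1 → i = 0 ∧ j = 0 ∧ k = 0

/-- Theorem A for the bases `a`, `b0`. -/
def ThmA (a b0 : ℕ) : Prop :=
  ∃ C : ℝ, 1 ≤ C ∧ ∀ (P Q H N b : ℕ) (b1 b2 : ℤ), 1 ≤ H → 0 < P → 0 < Q →
    (P : ℝ) ≤ Real.exp H → (Q : ℝ) ≤ Real.exp H → MulIndep3 a b0 ((P : ℝ) / Q) →
    |(b1 : ℝ)| ≤ N * H → |(b2 : ℝ)| ≤ N * H → 1 ≤ b → b ≤ N →
    Real.exp (-((H : ℝ) * (C * Real.log (N + 2)) ^ C)) ≤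
      |(b1 : ℝ) * Real.log a + b2 * Real.log b0 - b * Real.log ((P : ℝ) / Q)|

/-- Theorem B. -/
def ThmB : Prop :=
  ∃ C : ℝ, 1 ≤ C ∧ ∀ m n : ℤ, (m ≠ 0 ∨ n ≠ 0) →
    Real.exp (-((C * Real.log (|(m : ℝ)| + |(n : ℝ)| + 2)) ^ C)) ≤
      |(m : ℝ) * Real.log 2 + n * Real.log 3|

/-- `c` is bad at scale `B` -/
def IsBad (w : ℕ) (r v B : ℝ) (c : ℕ) : Prop :=
  ∃ (a : ℤ) (b : ℕ), B ≤ b ∧ (b : ℝ) < B ^ 2 ∧ (a : ℝ) / b ≠ r * v ^ c ∧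
    |r * v ^ c - (a : ℝ) / b| < 1 / (b : ℝ) ^ w

/-- The quantity `S` in the density lemma. -/
noncomputable def SS (w J : ℕ) (B h : ℝ) : ℝ :=
  4 * J / max 1 ((w : ℝ) / 2 * Real.log B / h) + 1

/-- The density lemma at one scale. -/
def DensityStmt : Prop :=
  ∃ C : ℝ, 1 ≤ C ∧ ∀ w : ℕ, 104 ≤ w → ∀ (r1 r2 f1 f2 : ℤ) (J : ℕ) (B r v h : ℝ),
    r = (2 : ℝ) ^ r1 * (3 : ℝ) ^ r2 → v = (2 : ℝ) ^ f1 * (3 : ℝ) ^ f2 →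
    h = |(f1 : ℝ)| * Real.log 2 + |(f2 : ℝ)| * Real.log 3 →
    1 ≤ r → 1 < v → 1 ≤ J → r * v ^ J ≤ 3 → 16 ≤ B → 1 ≤ Real.log v * B ^ 8 →
    ∀ s : Finset ℕ, (∀ c ∈ s, c ≤ J ∧ IsBad w r v B c) →
      (s.card : ℝ) ≤ C * (Real.log B / h + 1) *
        (Real.sqrt (SS w J B h) + SS w J B h *
          Real.sqrt (Real.log (J * h / Real.log B + 2)) / (Real.log (SS w J B h)) ^ 2)

/-- One step of the chain. -/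
def StageStmt : Prop :=
  ∃ w N : ℕ, ∀ p q : ℕ, N ≤ q → p.Coprime q → Smooth23 p → Smooth23 q → q < p → p < 2 * q →
    ∃ p' q' : ℕ, p'.Coprime q' ∧ Smooth23 p' ∧ Smooth23 q' ∧ q' < p' ∧ p' < 2 * q' ∧
      (p : ℝ) / q < (p' : ℝ) / q' ∧ (p' : ℝ) / q' - (p : ℝ) / q ≤ 1 / (q : ℝ) ^ 4 ∧
      ∀ (a : ℤ) (b : ℕ), q ≤ b → (a : ℝ) / b ≠ (p' : ℝ) / q' →
        1 / (b : ℝ) ^ w ≤ |(p' : ℝ) / q' - (a : ℝ) / b|

end Pool.Agent.Helper8
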