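import Mathlib

set_option autoImplicit false

namespace Pool.Agent.Helper8

open Finset Module Pointwise

section Freiman

variable {V : Type*} [AddCommGroup V] [Module ℝ V] [DecidableEq V]

/-- key step: the set of partners of the minimum spans. -/
lemma freiman_span (f : V →ₗ[ℝ] ℝ) (S : Finset V) (a : V) (ha : a ∈ S)
    (hmin : ∀ b ∈ S, b ≠ a → f a < f b) :
    ∀ b ∈ S, b - a ∈ Submodule.span ℝ
      ((fun x => x - a) '' ((((S.filter (fun b => a + b ∉ (S.erase a) + (S.erase a))).erase a :
        Finset V)) : Set V)) := by
  set W := Submodule.span ℝ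
      ((fun x => x - a) '' ((((S.filter (fun b => a + b ∉ (S.erase a) + (S.erase a))).erase a :
        Finset V)) : Set V)) with hW
  classical
  by_contra hcon
  push Not at hcon
  -- choose a counterexample with minimal f value
  obtain ⟨b0, hb0, hb0'⟩ := hcon
  let T := S.filter (fun b => b - a ∉ W)
  have hT : T.Nonempty := ⟨b0, by simp [T, hb0, hb0']⟩
  obtain ⟨b, hbT, hbmin⟩ := T.exists_min_image f hT
  have hbS : b ∈ S := (Finset.mem_filter.mp hbT).1
  have hbW : b - a ∉ W := (Finset.mem_filter.mp hbT).2
  have hba : b ≠ a := by
    rintro rfl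
    apply hbW
    simp
  by_cases hN : a + b ∈ (S.erase a) + (S.erase a)
  · obtain ⟨s, hs, t, ht, hst⟩ := Finset.mem_add.mp hN
    have hs' := Finset.mem_erase.mp hs
    have ht' := Finset.mem_erase.mp ht
    have h1 : f s + f t = f a + f b := by rw [← map_add, ← map_add, hst]
    have h2 := hmin s hs'.2 hs'.1
    have h3 := hmin t ht'.2 ht'.1
    have hsW : s - a ∈ W := by
      by_contra h
      have : s ∈ T := by simp [T, hs'.2, h]
      have := hbmin s this
      linarith
    have htW : t - a ∈ W := by
      by_contra h
      have : t ∈ T := by simp [T, ht'.2, h]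
      have := hbmin t this
      linarith
    apply hbW
    have : b - a = (s - a) + (t - a) := by
      have : b = s + t - a := by rw [hst]; abel
      rw [this]; abel
    rw [this]
    exact W.add_mem hsW htW
  · apply hbW
    apply Submodule.subset_span
    refine ⟨b, ?_, rfl⟩
    simp [hba, hbS, hN]

lemma vectorSpan_le_of_sub_mem (S : Finset V) (a : V) (W : Submodule ℝ V)
    (h : ∀ b ∈ S, b - a ∈ W) : vectorSpan ℝ (S : Set V) ≤ W := by
  rw [vectorSpan, Submodule.span_le]
  rintro x ⟨p, hp, q, hq, rfl⟩
  have : p -ᵥ q = (p - a) - (q - a) := by simp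
  change p -ᵥ q ∈ W
  rw [this]
  exact W.sub_mem (h p hp) (h q hq)

/-- Freiman's dimension lemma. -/
theorem freiman_dim (f : V →ₗ[ℝ] ℝ) : ∀ (n : ℕ) (S : Finset V), S.card = n + 1 →
    Set.InjOn f (S : Set V) →
    2 * (finrank ℝ (vectorSpan ℝ (S : Set V)) + 1) * S.card ≤
      2 * (S + S).card +
      finrank ℝ (vectorSpan ℝ (S : Set V)) * (finrank ℝ (vectorSpan ℝ (S : Set V)) + 1) := by
  intro n
  induction n with
  | zero =>
    intro S hS _
    obtain ⟨a, rfl⟩ := Finset.card_eq_one.mp hS
    have : finrank ℝ (vectorSpan ℝ ((({a} : Finset V)) : Set V)) = 0 := by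
      rw [Finset.coe_singleton, vectorSpan_singleton]; exact finrank_bot ℝ V
    simp [this]
  | succ n ih =>
    intro S hS hinj
    have hne : S.Nonempty := Finset.card_pos.mp (by omega)
    obtain ⟨a, ha, hamin⟩ := S.exists_min_image f hne
    have hmin : ∀ b ∈ S, b ≠ a → f a < f b := by
      intro b hb hba
      refine lt_of_le_of_ne (hamin b hb) ?_
      intro h
      exact hba (hinj hb ha h.symm)
    set S' := S.erase a with hS'
    have hcard' : S'.card = n + 1 := by rw [hS', Finset.card_erase_of_mem ha, hS]; simp
    have hinj' : Set.InjOn f (S' : Set V) := hinj.mono (by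
      intro x hx; exact Finset.mem_of_mem_erase hx)
    have ih' := ih S' hcard' hinj'
    set N := S.filter (fun b => a + b ∉ S' + S') with hN
    set D := finrank ℝ (vectorSpan ℝ (S : Set V)) with hD
    set D' := finrank ℝ (vectorSpan ℝ (S' : Set V)) with hD'
    -- (i)
    have h1 : (S' + S').card + N.card ≤ (S + S).card := by
      have hsub : (S' + S') ∪ (N.image (fun b => a + b)) ⊆ S + S := by
        intro x hx
        rcases Finset.mem_union.mp hx with hx | hx
        · exact Finset.add_subset_add (Finset.erase_subset _ _) (Finset.erase_subset _ _) hx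
        · obtain ⟨b, hb, rfl⟩ := Finset.mem_image.mp hx
          exact Finset.add_mem_add ha (Finset.mem_filter.mp hb).1
      have hdisj : Disjoint (S' + S') (N.image (fun b => a + b)) := by
        rw [Finset.disjoint_right]
        intro x hx hx'
        obtain ⟨b, hb, rfl⟩ := Finset.mem_image.mp hx
        exact (Finset.mem_filter.mp hb).2 hx'
      calc (S' + S').card + N.card
          = (S' + S').card + (N.image (fun b => a + b)).card := by
            rw [Finset.card_image_of_injective _ (add_right_injective a)]
        _ = ((S' + S') ∪ (N.image (fun b => a + b))).card := by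
            rw [Finset.card_union_of_disjoint hdisj]
        _ ≤ (S + S).card := Finset.card_le_card hsub
    have haN : a ∈ N := by
      simp only [hN, Finset.mem_filter]
      refine ⟨ha, ?_⟩
      intro h
      obtain ⟨s, hs, t, ht, hst⟩ := Finset.mem_add.mp h
      have hs' := Finset.mem_erase.mp hs
      have ht' := Finset.mem_erase.mp ht
      have h1 : f s + f t = f a + f a := by rw [← map_add, ← map_add, hst]
      have h2 := hmin s hs'.2 hs'.1
      have h3 := hmin t ht'.2 ht'.1
      linarith
    -- (ii)
    have h2 : D + 1 ≤ N.card := by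
      have hle : vectorSpan ℝ (S : Set V) ≤ Submodule.span ℝ
          ((fun x => x - a) '' (((N.erase a : Finset V)) : Set V)) :=
        vectorSpan_le_of_sub_mem S a _ (freiman_span f S a ha hmin)
      have hfd : FiniteDimensional ℝ (Submodule.span ℝ
          ((fun x => x - a) '' (((N.erase a : Finset V)) : Set V))) := by
        apply FiniteDimensional.span_of_finite
        exact (Finset.finite_toSet _).image _
      have h3 := Submodule.finrank_mono hle
      have h4 : finrank ℝ (Submodule.span ℝ
          ((fun x => x - a) '' (((N.erase a : Finset V)) : Set V))) ≤ (N.erase a).card := by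
        rw [← Finset.coe_image]
        refine (finrank_span_finset_le_card _).trans ?_
        exact Finset.card_image_le
      rw [Finset.card_erase_of_mem haN] at h4
      have : 0 < N.card := Finset.card_pos.mpr ⟨a, haN⟩
      omega
    have hins : insert a S' = S := Finset.insert_erase ha
    have hDle : D ≤ D' + 1 := by
      have := finrank_vectorSpan_insert_le_set ℝ (S' : Set V) a
      rw [← Finset.coe_insert, hins] at this
      exact this
    have hfdS : FiniteDimensional ℝ (vectorSpan ℝ (S : Set V)) :=
      finiteDimensional_vectorSpan_of_finite ℝ (Finset.finite_toSet S)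
    have hD'le : D' ≤ D := by
      apply Submodule.finrank_mono
      apply vectorSpan_mono
      intro x hx
      exact Finset.mem_of_mem_erase hx
    by_cases hDD : D = D'
    · rw [hDD]
      rw [hDD] at h2
      rw [hcard'] at ih'
      rw [hS]
      nlinarith
    · have hD1 : D = D' + 1 := by omega
      -- a not in affine span of S'
      have haff : a ∉ affineSpan ℝ (S' : Set V) := by
        intro haff
        apply hDD
        have : vectorSpan ℝ (S : Set V) = vectorSpan ℝ (S' : Set V) := by
          rw [← hins, Finset.coe_insert]
          have h5 := affineSpan_insert_eq_affineSpan ℝ haff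
          rw [← direction_affineSpan, h5, direction_affineSpan]
        rw [hD, this]
      have hNS : N = S := by
        rw [hN, Finset.filter_true_of_mem]
        intro b hb h
        by_cases hba : b = a
        · subst hba
          exact (Finset.mem_filter.mp haN).2 h
        · obtain ⟨s, hs, t, ht, hst⟩ := Finset.mem_add.mp h
          apply haff
          have hbS' : b ∈ S' := Finset.mem_erase.mpr ⟨hba, hb⟩
          have : a = (t -ᵥ b) +ᵥ s := by
            simp only [vsub_eq_sub, vadd_eq_add]
            have : a = s + t - b := by rw [hst]; abel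
            rw [this]; abel
          rw [this]
          apply AffineSubspace.vadd_mem_of_mem_direction
          · rw [direction_affineSpan]
            exact vsub_mem_vectorSpan ℝ ht hbS'
          · exact subset_affineSpan ℝ _ hs
      rw [hNS, hS] at h1
      rw [hcard'] at ih'
      rw [hD1, hS]
      nlinarith

/-- Corollary: `(D+2) |S| ≤ 2 |S+S|`. -/
theorem freiman_dim' (f : V →ₗ[ℝ] ℝ) (S : Finset V) (hS : S.Nonempty)
    (hinj : Set.InjOn f (S : Set V)) :
    (finrank ℝ (vectorSpan ℝ (S : Set V)) + 2) * S.card ≤ 2 * (S + S).card := by
  have hpos := Finset.card_pos.mpr hS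
  have h := freiman_dim f (S.card - 1) S (by omega) hinj
  have h2 : finrank ℝ (vectorSpan ℝ (S : Set V)) + 1 ≤ S.card := by
    obtain ⟨a, ha⟩ := hS
    have := finrank_vectorSpan_image_finset_le ℝ (id : V → V) S (n := S.card - 1) (by omega)
    rw [Finset.image_id] at this
    omega
  nlinarith

end Freiman

end Pool.Agent.Helper8
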