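import Mathlib

set_option autoImplicit false

namespace Pool.Agent.Helper8

open Finset Module MeasureTheory Metric Set
open scoped ENNReal

/-- volume packing bound -/
theorem packing {E : Type*} [NormedAddCommGroup E] [NormedSpace ℝ E] [FiniteDimensional ℝ E]
    (s : Finset E) (A r : ℝ) (hr : 0 < r) (hA : 0 ≤ A) (hs : ∀ c ∈ s, ‖c‖ ≤ A)
    (h : ∀ c ∈ s, ∀ d ∈ s, c ≠ d → r ≤ ‖c - d‖) :
    (s.card : ℝ) ≤ (1 + 2 * A / r) ^ finrank ℝ E := by
  borelize E
  let μ : Measure E := Measure.addHaar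
  let δ : ℝ := r / 2
  let ρ : ℝ := A + r / 2
  have δpos : 0 < δ := by positivity
  have ρpos : 0 < ρ := by positivity
  set B := ⋃ c ∈ s, ball (c : E) δ with hB
  have D : Set.Pairwise (s : Set E) (Function.onFun Disjoint fun c => ball (c : E) δ) := by
    rintro c hc d hd hcd
    apply ball_disjoint_ball
    rw [dist_eq_norm]
    have := h c hc d hd hcd
    simp only [δ]
    linarith
  have B_subset : B ⊆ ball (0 : E) ρ := by
    refine iUnion₂_subset fun x hx => ?_
    apply ball_subset_ball'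
    rw [dist_zero_right]
    have := hs x hx
    simp only [δ, ρ]
    linarith
  have I :
    (s.card : ℝ≥0∞) * ENNReal.ofReal (δ ^ finrank ℝ E) * μ (ball 0 1) ≤
      ENNReal.ofReal (ρ ^ finrank ℝ E) * μ (ball 0 1) :=
    calc
      (s.card : ℝ≥0∞) * ENNReal.ofReal (δ ^ finrank ℝ E) * μ (ball 0 1) = μ B := by
        rw [hB, measure_biUnion_finset D fun c _ => measurableSet_ball]
        simp only [μ.addHaar_ball_of_pos _ δpos]
        simp only [Finset.sum_const, nsmul_eq_mul, mul_assoc]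
      _ ≤ μ (ball (0 : E) ρ) := measure_mono B_subset
      _ = ENNReal.ofReal (ρ ^ finrank ℝ E) * μ (ball 0 1) := by
        simp only [μ.addHaar_ball_of_pos _ ρpos]
  have J : (s.card : ℝ≥0∞) * ENNReal.ofReal (δ ^ finrank ℝ E) ≤ ENNReal.ofReal (ρ ^ finrank ℝ E) :=
    (ENNReal.mul_le_mul_iff_left (measure_ball_pos _ _ zero_lt_one).ne' measure_ball_lt_top.ne).1 I
  have K := ENNReal.toReal_le_of_le_ofReal (pow_nonneg ρpos.le _) J
  rw [ENNReal.toReal_mul, ENNReal.toReal_natCast,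
    ENNReal.toReal_ofReal (pow_nonneg δpos.le _)] at K
  have h1 : (1 + 2 * A / r) = ρ / δ := by
    simp only [ρ, δ]
    field_simp
    ring
  rw [h1, div_pow, le_div_iff₀ (by positivity)]
  exact K

theorem packing_sub {V : Type*} [NormedAddCommGroup V] [NormedSpace ℝ V]
    (W : Submodule ℝ V) [FiniteDimensional ℝ W]
    (s : Finset V) (A r : ℝ) (hr : 0 < r) (hA : 0 ≤ A)
    (hW : ∀ c ∈ s, ∀ d ∈ s, c - d ∈ W) (hs : ∀ c ∈ s, ∀ d ∈ s, ‖c - d‖ ≤ A)
    (h : ∀ c ∈ s, ∀ d ∈ s, c ≠ d → r ≤ ‖c - d‖) :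
    (s.card : ℝ) ≤ (1 + 2 * A / r) ^ finrank ℝ W := by
  classical
  rcases s.eq_empty_or_nonempty with rfl | ⟨c0, hc0⟩
  · simp only [Finset.card_empty, Nat.cast_zero]
    positivity
  let g : V → W := fun x => if hx : x - c0 ∈ W then ⟨x - c0, hx⟩ else 0
  have hg : ∀ x ∈ s, ((g x : W) : V) = x - c0 := by
    intro x hx
    have : x - c0 ∈ W := hW x hx c0 hc0
    simp [g, this]
  have hginj : Set.InjOn g (s : Set V) := by
    intro x hx y hy hxy
    have h1 := hg x hx
    have h2 := hg y hy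
    rw [hxy, h2] at h1
    exact (sub_left_injective h1).symm
  have := packing (s.image g) A r hr hA ?_ ?_
  · rwa [Finset.card_image_of_injOn hginj] at this
  · intro c hc
    obtain ⟨x, hx, rfl⟩ := Finset.mem_image.mp hc
    rw [← Submodule.norm_coe, hg x hx]
    exact hs x hx c0 hc0
  · intro c hc d hd hcd
    obtain ⟨x, hx, rfl⟩ := Finset.mem_image.mp hc
    obtain ⟨y, hy, rfl⟩ := Finset.mem_image.mp hd
    rw [← Submodule.norm_coe, Submodule.coe_sub, hg x hx, hg y hy, sub_sub_sub_cancel_right]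
    apply h x hx y hy
    rintro rfl
    exact hcd rfl

end Pool.Agent.Helper8
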