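import Mathlib

set_option autoImplicit false

namespace Pool.Agent.Helper8

lemma log_two_ge_half : (1 : ℝ) / 2 ≤ Real.log 2 := by linarith [Real.log_two_gt_d9]

/-- self-referential bound -/
lemma ana_theta (C u θ : ℝ) (hC : 1 ≤ C) (hu : 1 / 2 ≤ u) (hθ : 1 ≤ θ)
    (h : θ ≤ (C * (7 * u + Real.log θ)) ^ C) : θ ≤ (46 * C ^ 4 * u) ^ C := by
  have hC0 : 0 < C := by linarith
  set t : ℝ := θ ^ (1 / (2 * C)) with ht
  have hθ0 : 0 < θ := by linarith
  have ht1 : 1 ≤ t := Real.one_le_rpow hθ (by positivity)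
  have ht0 : 0 < t := by linarith
  have hθt : θ = t ^ (2 * C) := by
    rw [ht, ← Real.rpow_mul hθ0.le]
    rw [one_div_mul_cancel (by positivity), Real.rpow_one]
  have hθt2 : θ = (t ^ 2) ^ C := by
    rw [hθt, ← Real.rpow_natCast t 2, ← Real.rpow_mul ht0.le]
    norm_num
  have hlog : Real.log θ ≤ 2 * C * t := by
    have h1 := Real.log_le_rpow_div hθ0.le (show (0 : ℝ) < 1 / (2 * C) by positivity)
    rw [← ht] at h1
    calc Real.log θ ≤ t / (1 / (2 * C)) := h1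
      _ = 2 * C * t := by field_simp
  have h1 : t ^ 2 ≤ C * (7 * u + Real.log θ) := by
    by_contra hcon
    rw [not_le] at hcon
    have h2 : 0 ≤ C * (7 * u + Real.log θ) := by
      have := Real.log_nonneg hθ
      positivity
    have h3 := Real.rpow_lt_rpow h2 hcon hC0
    rw [← hθt2] at h3
    linarith
  have h2 : t ^ 2 ≤ 7 * C * u + 2 * C ^ 2 * t := by nlinarith
  have hC4 : C ≤ C ^ 4 := le_self_pow₀ hC (by norm_num)
  have h3 : t ^ 2 ≤ 46 * C ^ 4 * u := by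
    by_cases h4 : t ≤ 4 * C ^ 2
    · have h5 : t ^ 2 ≤ (4 * C ^ 2) ^ 2 := pow_le_pow_left₀ ht0.le h4 2
      have h6 : 0 < C ^ 4 := by positivity
      nlinarith
    · rw [not_le] at h4
      have h5 : 2 * (2 * C ^ 2 * t) ≤ t ^ 2 := by nlinarith
      have h6 : t ^ 2 ≤ 14 * (C * u) := by linarith
      have h7 : C * u ≤ C ^ 4 * u := mul_le_mul_of_nonneg_right hC4 (by linarith)
      have h8 : 0 ≤ C ^ 4 * u := by positivity
      linarith
  rw [hθt2]
  exact Real.rpow_le_rpow (by positivity) h3 hC0.le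

/-- passing to the uniform constant -/
lemma ana_const (C u θ : ℝ) (hC : 1 ≤ C) (hu : 1 / 2 ≤ u) (hθ : θ ≤ (46 * C ^ 4 * u) ^ C) :
    3 * θ ≤ (138 * C ^ 4 * u) ^ (138 * C ^ 4) := by
  have hC4 : C ≤ C ^ 4 := le_self_pow₀ hC (by norm_num)
  have hC41 : 1 ≤ C ^ 4 := one_le_pow₀ hC
  have h1 : (3 : ℝ) ≤ 3 ^ C := by
    calc (3 : ℝ) = 3 ^ (1 : ℝ) := by rw [Real.rpow_one]
      _ ≤ 3 ^ C := Real.rpow_le_rpow_of_exponent_le (by norm_num) hC
  have h0 : 0 ≤ 46 * C ^ 4 * u := by positivity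
  calc 3 * θ ≤ 3 ^ C * (46 * C ^ 4 * u) ^ C := by
        have : 0 ≤ (46 * C ^ 4 * u) ^ C := Real.rpow_nonneg h0 _
        by_cases hθ0 : 0 ≤ θ
        · exact mul_le_mul h1 hθ hθ0 (by positivity)
        · have : 0 ≤ 3 ^ C * (46 * C ^ 4 * u) ^ C := by positivity
          linarith
    _ = (138 * C ^ 4 * u) ^ C := by
        rw [← Real.mul_rpow (by norm_num) h0]; congr 1; ring
    _ ≤ (138 * C ^ 4 * u) ^ (138 * C ^ 4) := by
        apply Real.rpow_le_rpow_of_exponent_le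
        · nlinarith
        · linarith

lemma ana_one (C u : ℝ) (hC : 1 ≤ C) (hu : 1 / 2 ≤ u) :
    3 ≤ (138 * C ^ 4 * u) ^ (138 * C ^ 4) := by
  have h := ana_const C u 1 hC hu (by
    apply Real.one_le_rpow _ (by linarith)
    have hC41 : 1 ≤ C ^ 4 := one_le_pow₀ hC
    nlinarith)
  linarith

/-- the logarithm of `1 + 48 R` -/
lemma ana_log (D u : ℝ) (hD : 2 ≤ D) (hu : 1 / 2 ≤ u) :
    (Real.log (1 + 48 * (D * u) ^ D)) ^ 2 ≤ 64 * D ^ 3 * Real.sqrt u := by
  have hDu : 1 ≤ D * u := by nlinarith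
  have hR : 1 ≤ (D * u) ^ D := Real.one_le_rpow hDu (by linarith)
  have h1 : Real.log (1 + 48 * (D * u) ^ D) ≤ 4 + D * Real.log (D * u) := by
    have h2 : Real.log (1 + 48 * (D * u) ^ D) ≤ Real.log (49 * (D * u) ^ D) :=
      Real.log_le_log (by positivity) (by linarith)
    rw [Real.log_mul (by norm_num) (by positivity), Real.log_rpow (by linarith)] at h2
    have h3 : Real.log 49 ≤ 4 := by
      rw [Real.log_le_iff_le_exp (by norm_num)]
      have h4 := Real.exp_one_gt_d9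
      have h5 : Real.exp 4 = (Real.exp 1) ^ 4 := by
        rw [← Real.exp_nat_mul]; norm_num
      rw [h5]
      calc (49 : ℝ) ≤ 2.7 ^ 4 := by norm_num
        _ ≤ (Real.exp 1) ^ 4 := pow_le_pow_left₀ (by norm_num) (by linarith) 4
    linarith
  set t : ℝ := (D * u) ^ ((1 : ℝ) / 4) with ht
  have ht1 : 1 ≤ t := Real.one_le_rpow hDu (by norm_num)
  have h2 : Real.log (D * u) ≤ 4 * t := by
    have h3 := Real.log_le_rpow_div (by linarith : 0 ≤ D * u) (show (0 : ℝ) < 1 / 4 by norm_num)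
    rw [← ht] at h3
    linarith
  have h3 : Real.log (1 + 48 * (D * u) ^ D) ≤ 8 * D * t := by nlinarith
  have h4 : 0 ≤ Real.log (1 + 48 * (D * u) ^ D) := Real.log_nonneg (by linarith)
  have ht2 : t ^ 2 = Real.sqrt (D * u) := by
    rw [ht, ← Real.rpow_natCast, ← Real.rpow_mul (by linarith), Real.sqrt_eq_rpow]
    norm_num
  have h5 : Real.sqrt D ≤ D := by
    rw [Real.sqrt_le_left (by linarith)]
    nlinarith
  calc (Real.log (1 + 48 * (D * u) ^ D)) ^ 2 ≤ (8 * D * t) ^ 2 := pow_le_pow_left₀ h4 h3 2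
    _ = 64 * D ^ 2 * t ^ 2 := by ring
    _ = 64 * D ^ 2 * (Real.sqrt D * Real.sqrt u) := by
        rw [ht2, Real.sqrt_mul (by linarith)]
    _ ≤ 64 * D ^ 2 * (D * Real.sqrt u) := by gcongr
    _ = 64 * D ^ 3 * Real.sqrt u := by ring

end Pool.Agent.Helper8
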