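import Mathlib
import Pool.Agent.Helper8.DensityAna

set_option autoImplicit false

namespace Pool.Agent.Helper8

open Finset

/-- the valuation space -/
abbrev VV (M : ℕ) := PiLp 1 (fun _ : Fin M => ℝ)

/-- the vector of a natural number -/
noncomputable def vn (M n : ℕ) : VV M :=
  WithLp.toLp 1 (fun p : Fin M => (n.factorization p : ℝ) * Real.log (p : ℕ))

/-- the logarithm functional -/
noncomputable def lf (M : ℕ) : VV M →ₗ[ℝ] ℝ where
  toFun := fun x => ∑ p, x p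
  map_add' := by intro x y; simp [Finset.sum_add_distrib]
  map_smul' := by intro c x; simp [Finset.mul_sum]

/-- nonzero with all prime factors less than `M` -/
def Sm (M n : ℕ) : Prop := n ≠ 0 ∧ ∀ p : ℕ, p.Prime → p ∣ n → p < M

lemma Sm.mul {M a b : ℕ} (ha : Sm M a) (hb : Sm M b) : Sm M (a * b) := by
  refine ⟨mul_ne_zero ha.1 hb.1, ?_⟩
  intro p hp h
  rcases (Nat.Prime.dvd_mul hp).mp h with h | h
  · exact ha.2 p hp h
  · exact hb.2 p hp h

lemma Sm.of_dvd {M a b : ℕ} (hb : Sm M b) (h : a ∣ b) : Sm M a := by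
  refine ⟨?_, ?_⟩
  · rintro rfl
    exact hb.1 (zero_dvd_iff.mp h)
  · intro p hp h'
    exact hb.2 p hp (h'.trans h)

lemma Sm.one {M : ℕ} : Sm M 1 := by
  refine ⟨one_ne_zero, ?_⟩
  intro p hp h
  exact absurd (Nat.dvd_one.mp h) hp.one_lt.ne'

lemma Sm.of_lt {M a : ℕ} (ha : a ≠ 0) (h : a < M) : Sm M a := by
  refine ⟨ha, ?_⟩
  intro p hp h'
  exact (Nat.le_of_dvd (Nat.pos_of_ne_zero ha) h').trans_lt h

lemma vn_apply (M n : ℕ) (p : Fin M) :
    (vn M n) p = (n.factorization p : ℝ) * Real.log (p : ℕ) := rfl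

lemma vn_mul {M a b : ℕ} (ha : a ≠ 0) (hb : b ≠ 0) : vn M (a * b) = vn M a + vn M b := by
  ext p
  rw [PiLp.add_apply, vn_apply, vn_apply, vn_apply, Nat.factorization_mul ha hb]
  simp only [Finsupp.coe_add, Pi.add_apply]
  push_cast
  ring

lemma vn_one (M : ℕ) : vn M 1 = 0 := by
  ext p
  rw [vn_apply]
  simp

lemma sum_fact {M n : ℕ} (hn : Sm M n) :
    ∑ p : Fin M, (n.factorization p : ℝ) * Real.log (p : ℕ) = Real.log n := by
  rw [Real.log_nat_eq_sum_factorization, Finsupp.sum,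
    Fin.sum_univ_eq_sum_range (fun p : ℕ => (n.factorization p : ℝ) * Real.log (p : ℕ)) M]
  have h1 : n.factorization.support ⊆ range M := by
    intro p hp
    rw [Nat.support_factorization, Nat.mem_primeFactors] at hp
    exact Finset.mem_range.mpr (hn.2 p hp.1 hp.2.1)
  symm
  apply Finset.sum_subset h1
  intro p _ hp
  rw [Finsupp.notMem_support_iff.mp hp]
  simp

lemma lf_vn {M n : ℕ} (hn : Sm M n) : lf M (vn M n) = Real.log n := by
  rw [← sum_fact hn]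
  rfl

lemma norm_vn {M n : ℕ} (hn : Sm M n) : ‖vn M n‖ = Real.log n := by
  rw [PiLp.norm_eq_of_L1, ← sum_fact hn]
  apply Finset.sum_congr rfl
  intro p _
  rw [vn_apply, Real.norm_eq_abs, abs_of_nonneg]
  exact mul_nonneg (Nat.cast_nonneg _) (Real.log_natCast_nonneg _)

lemma norm_vn_sub {M a b : ℕ} (ha : Sm M a) (hb : Sm M b) (hab : a.Coprime b) :
    ‖vn M a - vn M b‖ = Real.log a + Real.log b := by
  rw [PiLp.norm_eq_of_L1, ← sum_fact ha, ← sum_fact hb, ← Finset.sum_add_distrib]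
  apply Finset.sum_congr rfl
  intro p _
  rw [PiLp.sub_apply, vn_apply, vn_apply, Real.norm_eq_abs]
  have hl := Real.log_natCast_nonneg (p : ℕ)
  have h : a.factorization p = 0 ∨ b.factorization p = 0 := by
    by_contra hcon
    push Not at hcon
    have h1 : (p : ℕ) ∣ a := Nat.dvd_of_factorization_pos hcon.1
    have h2 : (p : ℕ) ∣ b := Nat.dvd_of_factorization_pos hcon.2
    have h3 : (p : ℕ).Prime := by
      by_contra h3
      exact hcon.1 (Nat.factorization_eq_zero_of_not_prime a h3)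
    exact Nat.not_coprime_of_dvd_of_dvd h3.one_lt h1 h2 hab
  rcases h with h | h
  · rw [h, Nat.cast_zero, zero_mul, zero_sub, abs_neg, zero_add, abs_of_nonneg]
    exact mul_nonneg (Nat.cast_nonneg _) hl
  · rw [h, Nat.cast_zero, zero_mul, sub_zero, add_zero, abs_of_nonneg]
    exact mul_nonneg (Nat.cast_nonneg _) hl

/-- the lattice of rationals -/
noncomputable def Gam (M : ℕ) : AddSubgroup (VV M) where
  carrier := {γ | ∃ a b : ℕ, Sm M a ∧ Sm M b ∧ γ = vn M a - vn M b}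
  zero_mem' := ⟨1, 1, Sm.one, Sm.one, by simp⟩
  add_mem' := by
    rintro _ _ ⟨a, b, ha, hb, rfl⟩ ⟨c, d, hc, hd, rfl⟩
    refine ⟨a * c, b * d, ha.mul hc, hb.mul hd, ?_⟩
    rw [vn_mul ha.1 hc.1, vn_mul hb.1 hd.1]
    abel
  neg_mem' := by
    rintro _ ⟨a, b, ha, hb, rfl⟩
    exact ⟨b, a, hb, ha, by abel⟩

lemma mem_Gam {M : ℕ} {γ : VV M} :
    γ ∈ Gam M ↔ ∃ a b : ℕ, Sm M a ∧ Sm M b ∧ γ = vn M a - vn M b := Iff.rfl

lemma Gam_coprime {M : ℕ} {γ : VV M} (h : γ ∈ Gam M) :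
    ∃ a b : ℕ, Sm M a ∧ Sm M b ∧ a.Coprime b ∧ γ = vn M a - vn M b := by
  obtain ⟨a, b, ha, hb, rfl⟩ := h
  set g := Nat.gcd a b with hg
  have hg0 : 0 < g := Nat.gcd_pos_of_pos_left _ (Nat.pos_of_ne_zero ha.1)
  obtain ⟨a', ha'⟩ := Nat.gcd_dvd_left a b
  obtain ⟨b', hb'⟩ := Nat.gcd_dvd_right a b
  rw [← hg] at ha' hb'
  have hsa : Sm M a' := ha.of_dvd ⟨g, by rw [ha']; ring⟩
  have hsb : Sm M b' := hb.of_dvd ⟨g, by rw [hb']; ring⟩
  refine ⟨a', b', hsa, hsb, ?_, ?_⟩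
  · have h1 : g * Nat.gcd a' b' = g * 1 := by
      rw [← Nat.gcd_mul_left, ← ha', ← hb', ← hg, mul_one]
    exact Nat.eq_of_mul_eq_mul_left hg0 h1
  · rw [ha', hb', vn_mul hg0.ne' hsa.1, vn_mul hg0.ne' hsb.1]
    abel

lemma log_sub_ge (a b : ℕ) (ha : 0 < a) (hb : 0 < b) (hab : b < a) :
    Real.exp (-(Real.log a + Real.log b)) ≤ Real.log a - Real.log b := by
  have ha' : (0 : ℝ) < a := by exact_mod_cast ha
  have hb' : (0 : ℝ) < b := by exact_mod_cast hb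
  have hb1 : (1 : ℝ) ≤ b := by exact_mod_cast hb
  have h1 := Real.one_sub_inv_le_log_of_pos (div_pos ha' hb')
  rw [Real.log_div ha'.ne' hb'.ne', inv_div] at h1
  refine le_trans ?_ h1
  rw [Real.exp_neg, Real.exp_add, Real.exp_log ha', Real.exp_log hb']
  have h2 : (b : ℝ) + 1 ≤ a := by exact_mod_cast hab
  rw [mul_inv]
  have h3 : (b : ℝ)⁻¹ ≤ 1 := inv_le_one_of_one_le₀ hb1
  have h4 : 1 - (b : ℝ) / a = (a : ℝ)⁻¹ * (a - b) := by field_simp
  rw [h4]
  apply mul_le_mul_of_nonneg_left _ (by positivity)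
  linarith

/-- the key lower bound -/
lemma key_lower {M : ℕ} {γ : VV M} (h : γ ∈ Gam M) (hγ : γ ≠ 0) :
    Real.exp (-‖γ‖) ≤ |lf M γ| := by
  obtain ⟨a, b, ha, hb, hab, rfl⟩ := Gam_coprime h
  rw [norm_vn_sub ha hb hab, map_sub, lf_vn ha, lf_vn hb]
  have ha' := Nat.pos_of_ne_zero ha.1
  have hb' := Nat.pos_of_ne_zero hb.1
  rcases lt_trichotomy a b with h1 | h1 | h1
  · have h2 := log_sub_ge b a hb' ha' h1
    rw [add_comm (Real.log a), abs_sub_comm]
    exact h2.trans (le_abs_self _)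
  · exfalso
    apply hγ
    rw [h1, sub_self]
  · exact (log_sub_ge a b ha' hb' h1).trans (le_abs_self _)

lemma lf_inj {M : ℕ} : ∀ γ ∈ Gam M, lf M γ = 0 → γ = 0 := by
  intro γ h h0
  by_contra hγ
  have := key_lower h hγ
  rw [h0, abs_zero] at this
  exact absurd this (not_le.mpr (Real.exp_pos _))

/-- the vector of `2^m 3^n` -/
noncomputable def uv (M : ℕ) (m n : ℤ) : VV M := (m : ℝ) • vn M 2 + (n : ℝ) • vn M 3

lemma sm2 {M : ℕ} (hM : 4 ≤ M) : Sm M 2 := Sm.of_lt (by norm_num) (by omega)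
lemma sm3 {M : ℕ} (hM : 4 ≤ M) : Sm M 3 := Sm.of_lt (by norm_num) (by omega)

lemma vn_mem {M n : ℕ} (hn : Sm M n) : vn M n ∈ Gam M :=
  ⟨n, 1, hn, Sm.one, by rw [vn_one, sub_zero]⟩

lemma uv_mem {M : ℕ} (hM : 4 ≤ M) (m n : ℤ) : uv M m n ∈ Gam M := by
  unfold uv
  rw [Int.cast_smul_eq_zsmul, Int.cast_smul_eq_zsmul]
  exact (Gam M).add_mem ((Gam M).zsmul_mem (vn_mem (sm2 hM)) m)
    ((Gam M).zsmul_mem (vn_mem (sm3 hM)) n)

lemma lf_uv {M : ℕ} (hM : 4 ≤ M) (m n : ℤ) :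
    lf M (uv M m n) = m * Real.log 2 + n * Real.log 3 := by
  unfold uv
  rw [map_add, map_smul, map_smul, lf_vn (sm2 hM), lf_vn (sm3 hM)]
  simp

lemma norm_uv {M : ℕ} (hM : 4 ≤ M) (m n : ℤ) :
    ‖uv M m n‖ = |(m : ℝ)| * Real.log 2 + |(n : ℝ)| * Real.log 3 := by
  have h2 := norm_vn (sm2 hM)
  have h3 := norm_vn (sm3 hM)
  rw [PiLp.norm_eq_of_L1] at h2 h3 ⊢
  have hd : ∀ p : Fin M, (vn M 2) p = 0 ∨ (vn M 3) p = 0 := by
    intro p
    rw [vn_apply, vn_apply]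
    by_cases hp : (p : ℕ) = 2
    · right
      rw [hp]
      have : (Nat.factorization 3) 2 = 0 := Nat.factorization_eq_zero_of_not_dvd (by norm_num)
      rw [this]; simp
    · left
      have : (Nat.factorization 2) (p : ℕ) = 0 := by
        rw [Nat.Prime.factorization (by norm_num : Nat.Prime 2)]
        rw [Finsupp.single_apply, if_neg (by omega)]
      rw [this]; simp
  have h4 : ∀ p : Fin M, ‖(uv M m n) p‖ = |(m : ℝ)| * ‖(vn M 2) p‖ + |(n : ℝ)| * ‖(vn M 3) p‖ := by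
    intro p
    unfold uv
    rw [PiLp.add_apply, PiLp.smul_apply, PiLp.smul_apply, smul_eq_mul, smul_eq_mul]
    rcases hd p with h | h
    · rw [h]; simp
    · rw [h]; simp
  rw [Finset.sum_congr rfl (fun p _ => h4 p), Finset.sum_add_distrib, ← Finset.mul_sum,
    ← Finset.mul_sum, h2, h3]
  simp

lemma uv_sub (M : ℕ) (m n m' n' : ℤ) : uv M m n - uv M m' n' = uv M (m - m') (n - n') := by
  unfold uv
  push_cast
  rw [sub_smul, sub_smul]
  abel

lemma smul_uv (M : ℕ) (d m n : ℤ) : (d : ℝ) • uv M m n = uv M (d * m) (d * n) := by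
  unfold uv
  push_cast
  rw [smul_add, smul_smul, smul_smul]

end Pool.Agent.Helper8
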