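import Mathlib
import Pool.Agent.Helper8.DensityVec
import Pool.Agent.Helper8.Defs

set_option autoImplicit false

namespace Pool.Agent.Helper8

open Finset

lemma rpow_const_mono (C C' u : ℝ) (hC : 1 ≤ C) (hCC : C ≤ C') (hu : 1 ≤ u) :
    (C * u) ^ C ≤ (C' * u) ^ C' := by
  have h1 : 1 ≤ C' * u := one_le_mul_of_one_le_of_one_le (by linarith) hu
  calc (C * u) ^ C ≤ (C' * u) ^ C :=
        Real.rpow_le_rpow (by positivity) (mul_le_mul_of_nonneg_right hCC (by linarith))
          (by linarith)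
    _ ≤ (C' * u) ^ C' := Real.rpow_le_rpow_of_exponent_le h1 hCC

/-- comparing with `8 / B^w` -/
lemma ge_of_exp_le (B Y : ℝ) (w : ℕ) (hw : 104 ≤ w) (hB : 16 ≤ B)
    (h : Real.exp (-Y) ≤ 8 / B ^ w) : Real.log B ≤ Y := by
  have hB0 : 0 < B := by linarith
  have h1 : 8 / B ^ w ≤ Real.exp (-Real.log B) := by
    rw [Real.exp_neg, Real.exp_log hB0, div_le_iff₀ (by positivity)]
    have h2 : B ^ w = B * B ^ (w - 1) := by
      rw [← pow_succ']; congr 1; omega
    rw [h2, ← mul_assoc, inv_mul_cancel₀ hB0.ne', one_mul]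
    calc (8 : ℝ) ≤ B ^ 1 := by linarith
      _ ≤ B ^ (w - 1) := pow_le_pow_right₀ (by linarith) (by omega)
  have h3 := Real.exp_le_exp.mp (h.trans h1)
  linarith

lemma mulIndep_23 (a b p : ℕ) (ha : a ≠ 0) (hb : b ≠ 0) (hab : a.Coprime b) (hp : p.Prime)
    (hp5 : 5 ≤ p) (hdvd : p ∣ a ∨ p ∣ b) :
    MulIndep3 ((2 : ℕ) : ℝ) ((3 : ℕ) : ℝ) ((a : ℝ) / b) := by
  intro i j k h
  have ha' : (a : ℚ) ≠ 0 := by exact_mod_cast ha
  have hb' : (b : ℚ) ≠ 0 := by exact_mod_cast hb
  have h1 : (2 : ℚ) ^ i * 3 ^ j * ((a : ℚ) / b) ^ k = 1 := by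
    have : (((2 : ℚ) ^ i * 3 ^ j * ((a : ℚ) / b) ^ k : ℚ) : ℝ) = ((1 : ℚ) : ℝ) := by
      push_cast
      simpa using h
    exact_mod_cast this
  have hv : ∀ q : ℕ, q.Prime → i * padicValRat q 2 + j * padicValRat q 3 +
      k * padicValRat q ((a : ℚ) / b) = 0 := by
    intro q hq
    have := Fact.mk hq
    have h2 := congrArg (padicValRat q) h1
    have hab0 : (a : ℚ) / b ≠ 0 := div_ne_zero ha' hb'
    rw [padicValRat.mul (by positivity) (zpow_ne_zero _ hab0), padicValRat.mul (by positivity)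
      (by positivity), padicValRat.zpow, padicValRat.zpow, padicValRat.zpow,
      padicValRat.one] at h2
    exact h2
  have v : ∀ p q : ℕ, p.Prime → q.Prime → padicValRat p (q : ℚ) = if p = q then 1 else 0 := by
    intro p q hp hq
    have := Fact.mk hp
    have := Fact.mk hq
    rw [padicValRat.of_nat]
    by_cases h : p = q
    · subst h; simp
    · rw [if_neg h, padicValNat_primes h]; simp
  have p2 : Nat.Prime 2 := by norm_num
  have p3 : Nat.Prime 3 := by norm_num
  have ep := hv p hp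
  have vp2 := v p 2 hp p2
  have vp3 := v p 3 hp p3
  rw [if_neg (by omega)] at vp2 vp3
  push_cast at vp2 vp3
  rw [vp2, vp3] at ep
  have hpab : padicValRat p ((a : ℚ) / b) ≠ 0 := by
    have := Fact.mk hp
    rw [padicValRat.div ha' hb', padicValRat.of_nat, padicValRat.of_nat]
    rcases hdvd with hd | hd
    · have h2 : 1 ≤ padicValNat p a := one_le_padicValNat_of_dvd ha hd
      have h3 : padicValNat p b = 0 := by
        apply padicValNat.eq_zero_of_not_dvd
        intro h4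
        exact Nat.not_coprime_of_dvd_of_dvd hp.one_lt hd h4 hab
      omega
    · have h2 : 1 ≤ padicValNat p b := one_le_padicValNat_of_dvd hb hd
      have h3 : padicValNat p a = 0 := by
        apply padicValNat.eq_zero_of_not_dvd
        intro h4
        exact Nat.not_coprime_of_dvd_of_dvd hp.one_lt h4 hd hab
      omega
  have hk : k = 0 := by
    simp only [mul_zero, zero_add] at ep
    exact (mul_eq_zero.mp ep).resolve_right hpab
  have e2 := hv 2 p2
  have e3 := hv 3 p3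
  have v22 := v 2 2 p2 p2
  have v23 := v 2 3 p2 p3
  have v32 := v 3 2 p3 p2
  have v33 := v 3 3 p3 p3
  norm_num at v22 v23 v32 v33
  rw [v22, v23, hk] at e2
  rw [v32, v33, hk] at e3
  refine ⟨by linarith, by linarith, hk⟩

lemma vn_unit {M a : ℕ} (ha : ∀ p : ℕ, p.Prime → p ∣ a → p < 5) :
    vn M a = uv M (a.factorization 2) (a.factorization 3) := by
  ext p
  unfold uv
  rw [PiLp.add_apply, PiLp.smul_apply, PiLp.smul_apply, smul_eq_mul, smul_eq_mul, vn_apply,
    vn_apply, vn_apply]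
  have f22 : (Nat.factorization 2) 2 = 1 := by
    rw [Nat.Prime.factorization (by norm_num : Nat.Prime 2)]; simp
  have f33 : (Nat.factorization 3) 3 = 1 := by
    rw [Nat.Prime.factorization (by norm_num : Nat.Prime 3)]; simp
  have f2 : ∀ q : ℕ, q ≠ 2 → (Nat.factorization 2) q = 0 := by
    intro q hq
    rw [Nat.Prime.factorization (by norm_num : Nat.Prime 2), Finsupp.single_apply,
      if_neg (Ne.symm hq)]
  have f3 : ∀ q : ℕ, q ≠ 3 → (Nat.factorization 3) q = 0 := by
    intro q hq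
    rw [Nat.Prime.factorization (by norm_num : Nat.Prime 3), Finsupp.single_apply,
      if_neg (Ne.symm hq)]
  by_cases h2 : (p : ℕ) = 2
  · rw [h2, f22, f3 2 (by norm_num)]
    simp
  · by_cases h3 : (p : ℕ) = 3
    · rw [h3, f33, f2 3 (by norm_num)]
      simp
    · rw [f2 _ h2, f3 _ h3]
      have : a.factorization (p : ℕ) = 0 := by
        by_contra hcon
        have h4 : (p : ℕ) ∣ a := Nat.dvd_of_factorization_pos hcon
        have h5 : (p : ℕ).Prime := by
          by_contra h5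
          exact hcon (Nat.factorization_eq_zero_of_not_prime a h5)
        have h6 := ha p h5 h4
        have h7 := h5.two_le
        have h8 : (p : ℕ) ≠ 4 := by
          intro h8
          rw [h8] at h5
          exact absurd h5 (by norm_num)
        omega
      rw [this]; simp

set_option maxHeartbeats 4000000 in
theorem sep (hA : ThmA 2 3) (hB : ThmB) : ∃ D : ℝ, 2 ≤ D ∧ (∀ u : ℝ, 1 / 2 ≤ u → 3 ≤ (D * u) ^ D) ∧
    ∀ (M : ℕ) (w : ℕ) (f1 f2 : ℤ) (J : ℕ) (B h : ℝ), 4 ≤ M → 104 ≤ w → 1 ≤ J →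
    h = |(f1 : ℝ)| * Real.log 2 + |(f2 : ℝ)| * Real.log 3 → 16 ≤ B →
    0 < f1 * Real.log 2 + f2 * Real.log 3 →
    1 ≤ (f1 * Real.log 2 + f2 * Real.log 3) * B ^ 8 →
    ∀ g ∈ Gam M, ∀ Δ : ℤ, |(Δ : ℝ)| ≤ 2 * J → ‖g‖ ≤ 24 * Real.log B →
      g - (Δ : ℝ) • uv M f1 f2 ≠ 0 → |lf M (g - (Δ : ℝ) • uv M f1 f2)| ≤ 8 / B ^ w →
      Real.log B / (D * Real.log (J * h / Real.log B + 2)) ^ D ≤ ‖g‖ := by
  obtain ⟨CA, hCA1, hCA⟩ := hA
  obtain ⟨CB, hCB1, hCB⟩ := hB
  set C : ℝ := max CA CB with hCdef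
  have hCA2 : CA ≤ C := le_max_left _ _
  have hCB2 : CB ≤ C := le_max_right _ _
  have hC1 : 1 ≤ C := hCA1.trans hCA2
  have hC4 : 1 ≤ C ^ 4 := one_le_pow₀ hC1
  refine ⟨138 * C ^ 4, by linarith, fun u hu => ana_one C u hC1 hu, ?_⟩
  intro M w f1 f2 J B h hM hw hJ hh hB16 hlam hlamB g hg Δ hΔ hgn hne hsmall
  set b := Real.log B with hb
  have hB0 : 0 < B := by linarith
  have hl2 := log_two_ge_half
  have hl3 : Real.log 2 ≤ Real.log 3 := Real.log_le_log (by norm_num) (by norm_num)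
  have hb2 : 2 ≤ b := by
    have h1 : Real.log 16 ≤ b := Real.log_le_log (by norm_num) hB16
    have h2 : Real.log 16 = 4 * Real.log 2 := by
      rw [show (16 : ℝ) = 2 ^ 4 by norm_num, Real.log_pow]; norm_num
    linarith
  have hb0 : 0 < b := by linarith
  have hJ1 : (1 : ℝ) ≤ J := by exact_mod_cast hJ
  have hh0 : 0 ≤ h := by rw [hh]; positivity
  set x : ℝ := J * h / b with hx
  have hx0 : 0 ≤ x := by positivity
  set u : ℝ := Real.log (x + 2) with hu
  have hul2 : Real.log 2 ≤ u := Real.log_le_log (by norm_num) (by linarith)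
  have hu0 : 1 / 2 ≤ u := hl2.trans hul2
  set R : ℝ := (138 * C ^ 4 * u) ^ (138 * C ^ 4) with hR
  have hR3 : 3 ≤ R := ana_one C u hC1 hu0
  have hR0 : 0 < R := by linarith
  have hf1 : |(f1 : ℝ)| ≤ 2 * h := by
    have h1 : |(f1 : ℝ)| * (1 / 2) ≤ |(f1 : ℝ)| * Real.log 2 :=
      mul_le_mul_of_nonneg_left hl2 (abs_nonneg _)
    have h2 : 0 ≤ |(f2 : ℝ)| * Real.log 3 := by positivity
    rw [hh]; linarith
  have hf2 : |(f2 : ℝ)| ≤ 2 * h := by
    have h1 : |(f2 : ℝ)| * (1 / 2) ≤ |(f2 : ℝ)| * Real.log 3 :=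
      mul_le_mul_of_nonneg_left (hl2.trans hl3) (abs_nonneg _)
    have h2 : 0 ≤ |(f1 : ℝ)| * Real.log 2 := by positivity
    rw [hh]; linarith
  have hf12 : |(f1 : ℝ)| + |(f2 : ℝ)| ≤ 2 * h := by
    have h1 : |(f1 : ℝ)| * (1 / 2) ≤ |(f1 : ℝ)| * Real.log 2 :=
      mul_le_mul_of_nonneg_left hl2 (abs_nonneg _)
    have h1' : |(f2 : ℝ)| * (1 / 2) ≤ |(f2 : ℝ)| * Real.log 3 :=
      mul_le_mul_of_nonneg_left (hl2.trans hl3) (abs_nonneg _)
    rw [hh]; linarith
  have hΔf1 : |((Δ * f1 : ℤ) : ℝ)| ≤ 4 * J * h := by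
    push_cast; rw [abs_mul]
    calc |(Δ : ℝ)| * |(f1 : ℝ)| ≤ (2 * J) * (2 * h) := by gcongr
      _ = 4 * J * h := by ring
  have hΔf2 : |((Δ * f2 : ℤ) : ℝ)| ≤ 4 * J * h := by
    push_cast; rw [abs_mul]
    calc |(Δ : ℝ)| * |(f2 : ℝ)| ≤ (2 * J) * (2 * h) := by gcongr
      _ = 4 * J * h := by ring
  by_cases hg0 : g = 0
  · -- impossible
    exfalso
    rw [hg0, zero_sub] at hne hsmall
    have hΔ0 : Δ ≠ 0 := by
      rintro rfl
      apply hne
      simp
    rw [map_neg, map_smul, lf_uv hM, smul_eq_mul, abs_neg, abs_mul, abs_of_pos hlam] at hsmall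
    have h1 : (1 : ℝ) ≤ |(Δ : ℝ)| := by
      have := Int.one_le_abs hΔ0
      exact_mod_cast this
    set lam : ℝ := f1 * Real.log 2 + f2 * Real.log 3 with hlamdef
    have h2 : lam ≤ 8 / B ^ w := le_trans (by nlinarith) hsmall
    rw [le_div_iff₀ (by positivity)] at h2
    have h3 : B ^ w = B ^ 8 * B ^ (w - 8) := by rw [← pow_add]; congr 1; omega
    rw [h3, ← mul_assoc] at h2
    have h4 : B ^ 1 ≤ B ^ (w - 8) := pow_le_pow_right₀ (by linarith) (by omega)
    rw [pow_one] at h4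
    have h5 : 1 * B ^ (w - 8) ≤ lam * B ^ 8 * B ^ (w - 8) :=
      mul_le_mul_of_nonneg_right hlamB (by positivity)
    linarith
  obtain ⟨a, a', ha, ha', hcop, hgab⟩ := Gam_coprime hg
  have hnorm : ‖g‖ = Real.log a + Real.log a' := by rw [hgab, norm_vn_sub ha ha' hcop]
  have ha1 : (1 : ℝ) ≤ a := by exact_mod_cast Nat.pos_of_ne_zero ha.1
  have ha'1 : (1 : ℝ) ≤ a' := by exact_mod_cast Nat.pos_of_ne_zero ha'.1
  have hla := Real.log_nonneg ha1
  have hla' := Real.log_nonneg ha'1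
  have hnorm2 : Real.log 2 ≤ ‖g‖ := by
    rw [hnorm]
    by_cases h1 : a = 1
    · by_cases h2 : a' = 1
      · exfalso; apply hg0; rw [hgab, h1, h2, sub_self]
      · have h3 : 2 ≤ a' := by
          have := Nat.pos_of_ne_zero ha'.1
          omega
        have h4 : Real.log 2 ≤ Real.log a' := Real.log_le_log (by norm_num) (by exact_mod_cast h3)
        linarith
    · have h3 : 2 ≤ a := by
        have := Nat.pos_of_ne_zero ha.1
        omega
      have h4 : Real.log 2 ≤ Real.log a := Real.log_le_log (by norm_num) (by exact_mod_cast h3)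
      linarith
  have hlfg : lf M g = Real.log a - Real.log a' := by
    rw [hgab, map_sub, lf_vn ha, lf_vn ha']
  by_cases hunit : ∀ p : ℕ, p.Prime → (p ∣ a ∨ p ∣ a') → p < 5
  · -- a {2,3}-unit
    have hga : g = uv M ((a.factorization 2 : ℤ) - a'.factorization 2)
        ((a.factorization 3 : ℤ) - a'.factorization 3) := by
      rw [hgab, vn_unit (M := M) (a := a) (fun p hp h => hunit p hp (Or.inl h)),
        vn_unit (M := M) (a := a') (fun p hp h => hunit p hp (Or.inr h)), uv_sub]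
    set g1 : ℤ := (a.factorization 2 : ℤ) - a'.factorization 2 with hg1
    set g2 : ℤ := (a.factorization 3 : ℤ) - a'.factorization 3 with hg2
    have hng : ‖g‖ = |(g1 : ℝ)| * Real.log 2 + |(g2 : ℝ)| * Real.log 3 := by
      rw [hga, norm_uv hM]
    have hg12 : |(g1 : ℝ)| + |(g2 : ℝ)| ≤ 48 * b := by
      have h1 : |(g1 : ℝ)| * (1 / 2) ≤ |(g1 : ℝ)| * Real.log 2 :=
        mul_le_mul_of_nonneg_left hl2 (abs_nonneg _)
      have h1' : |(g2 : ℝ)| * (1 / 2) ≤ |(g2 : ℝ)| * Real.log 3 :=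
        mul_le_mul_of_nonneg_left (hl2.trans hl3) (abs_nonneg _)
      linarith
    set m : ℤ := g1 - Δ * f1 with hm
    set n : ℤ := g2 - Δ * f2 with hn
    have hγ : g - (Δ : ℝ) • uv M f1 f2 = uv M m n := by
      rw [hga, smul_uv, uv_sub]
    have hmn : m ≠ 0 ∨ n ≠ 0 := by
      by_contra hcon
      push Not at hcon
      apply hne
      rw [hγ, hcon.1, hcon.2]
      unfold uv; simp
    have h1 := hCB m n hmn
    rw [hγ, lf_uv hM] at hsmall
    have h2 := ge_of_exp_le B _ w hw hB16 (h1.trans hsmall)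
    rw [← hb] at h2
    have hmabs : |(m : ℝ)| + |(n : ℝ)| ≤ 48 * b + 4 * (J * h) := by
      have e1 : |(m : ℝ)| ≤ |(g1 : ℝ)| + |(Δ : ℝ)| * |(f1 : ℝ)| := by
        rw [hm]; push_cast; rw [← abs_mul]; exact abs_sub _ _
      have e2 : |(n : ℝ)| ≤ |(g2 : ℝ)| + |(Δ : ℝ)| * |(f2 : ℝ)| := by
        rw [hn]; push_cast; rw [← abs_mul]; exact abs_sub _ _
      have e3 : |(Δ : ℝ)| * (|(f1 : ℝ)| + |(f2 : ℝ)|) ≤ (2 * J) * (2 * h) := by gcongr
      linarith
    have hxb : J * h = x * b := by rw [hx]; field_simp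
    have h3 : Real.log (|(m : ℝ)| + |(n : ℝ)| + 2) ≤ 7 * u + Real.log b := by
      have e1 : |(m : ℝ)| + |(n : ℝ)| + 2 ≤ 25 * (b * (x + 2)) := by nlinarith
      have e2 : Real.log (|(m : ℝ)| + |(n : ℝ)| + 2) ≤ Real.log (25 * (b * (x + 2))) :=
        Real.log_le_log (by positivity) e1
      rw [Real.log_mul (by norm_num) (by positivity), Real.log_mul (by positivity) (by positivity),
        ← hu] at e2
      have e3 : Real.log 25 ≤ 5 * Real.log 2 := by
        have : (5 : ℝ) * Real.log 2 = Real.log 32 := by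
          rw [show (32 : ℝ) = 2 ^ 5 by norm_num, Real.log_pow]; norm_num
        rw [this]
        exact Real.log_le_log (by norm_num) (by norm_num)
      linarith
    have hlogge1 : 1 / 2 ≤ Real.log (|(m : ℝ)| + |(n : ℝ)| + 2) := by
      refine hl2.trans (Real.log_le_log (by norm_num) ?_)
      have := abs_nonneg (m : ℝ)
      have := abs_nonneg (n : ℝ)
      linarith
    have h4 : b ≤ (C * (7 * u + Real.log b)) ^ C := by
      have hlb : 0 ≤ Real.log b := Real.log_nonneg (by linarith)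
      have e1 : (CB * Real.log (|(m : ℝ)| + |(n : ℝ)| + 2)) ^ CB ≤
          (CB * (7 * u + Real.log b)) ^ CB :=
        Real.rpow_le_rpow (by positivity) (mul_le_mul_of_nonneg_left h3 (by linarith))
          (by linarith)
      exact (h2.trans e1).trans (rpow_const_mono CB C _ hCB1 hCB2 (by linarith))
    have h5 := ana_theta C u b hC1 hu0 (by linarith) h4
    have h6 := ana_const C u b hC1 hu0 h5
    rw [div_le_iff₀ hR0]
    have h7 : (1 / 2) * R ≤ ‖g‖ * R := mul_le_mul_of_nonneg_right (hl2.trans hnorm2) hR0.le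
    rw [← hR] at h6
    linarith
  · -- a prime ≥ 5 occurs
    push Not at hunit
    obtain ⟨p, hp, hpd, hp5⟩ := hunit
    have hind := mulIndep_23 a a' p ha.1 ha'.1 hcop hp hp5 hpd
    set H : ℕ := ⌈‖g‖⌉₊ with hH
    have hgpos : 0 < ‖g‖ := by linarith
    have hH1 : 1 ≤ H := Nat.ceil_pos.mpr hgpos
    have hHge : ‖g‖ ≤ H := Nat.le_ceil _
    have hHle : (H : ℝ) ≤ 3 * ‖g‖ := by
      have := Nat.ceil_lt_add_one hgpos.le
      rw [← hH] at this
      linarith
    have hH1r : (1 : ℝ) ≤ H := by exact_mod_cast hH1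
    have hH0 : (0 : ℝ) < H := by linarith
    set N : ℕ := ⌈4 * J * h / H⌉₊ + 1 with hN
    have hN1 : 4 * J * h / H ≤ N := by
      have := Nat.le_ceil (4 * J * h / (H : ℝ))
      rw [hN]; push_cast; linarith
    have hNH : 4 * J * h ≤ N * H := by
      rw [div_le_iff₀ hH0] at hN1; exact hN1
    have hN2 : (N : ℝ) ≤ 4 * J * h / H + 2 := by
      have := Nat.ceil_lt_add_one (show 0 ≤ 4 * J * h / (H : ℝ) by positivity)
      rw [hN]; push_cast; linarith
    have haH : (a : ℝ) ≤ Real.exp H := by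
      rw [← Real.log_le_iff_le_exp (by linarith)]
      linarith
    have ha'H : (a' : ℝ) ≤ Real.exp H := by
      rw [← Real.log_le_iff_le_exp (by linarith)]
      linarith
    have h1 := hCA a a' H N 1 (Δ * f1) (Δ * f2) hH1 (Nat.pos_of_ne_zero ha.1)
      (Nat.pos_of_ne_zero ha'.1) haH ha'H hind (hΔf1.trans hNH) (hΔf2.trans hNH) le_rfl
      (by rw [hN]; omega)
    have h2 : |((Δ * f1 : ℤ) : ℝ) * Real.log ((2 : ℕ) : ℝ) +
        ((Δ * f2 : ℤ) : ℝ) * Real.log ((3 : ℕ) : ℝ) -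
        ((1 : ℕ) : ℝ) * Real.log ((a : ℝ) / a')| = |lf M (g - (Δ : ℝ) • uv M f1 f2)| := by
      rw [map_sub, map_smul, lf_uv hM, hlfg, Real.log_div (by positivity) (by positivity),
        ← abs_neg, smul_eq_mul]
      congr 1
      push_cast
      ring
    rw [h2] at h1
    have h3 := ge_of_exp_le B _ w hw hB16 (h1.trans hsmall)
    rw [← hb] at h3
    have hN1' : 1 ≤ Real.log ((N : ℝ) + 2) := by
      have h4 : (1 : ℝ) ≤ N := by rw [hN]; push_cast; linarith [Nat.cast_nonneg (α := ℝ) ⌈4 * J * h / (H : ℝ)⌉₊]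
      rw [Real.le_log_iff_exp_le (by positivity)]
      have := Real.exp_one_lt_d9
      linarith
    have h4 : b ≤ H * (C * Real.log (N + 2)) ^ C :=
      h3.trans (mul_le_mul_of_nonneg_left (rpow_const_mono CA C _ hCA1 hCA2 hN1') hH0.le)
    set θ : ℝ := b / H with hθ
    by_cases hθ1 : θ < 1
    · rw [hθ, div_lt_one hH0] at hθ1
      rw [div_le_iff₀ hR0]
      nlinarith
    · rw [not_lt] at hθ1
      have h5 : θ ≤ (C * Real.log (N + 2)) ^ C := by
        rw [hθ, div_le_iff₀ hH0]; linarith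
      have hJh : J * h / H = x * θ := by rw [hx, hθ]; field_simp
      have h6 : (N : ℝ) + 2 ≤ 4 * ((x + 2) * θ) := by
        have e1 : 4 * J * h / H = 4 * (x * θ) := by rw [← hJh]; ring
        nlinarith
      have h7 : Real.log (N + 2) ≤ 7 * u + Real.log θ := by
        have e1 : Real.log (N + 2) ≤ Real.log (4 * ((x + 2) * θ)) :=
          Real.log_le_log (by positivity) h6
        rw [Real.log_mul (by norm_num) (by positivity), Real.log_mul (by positivity) (by positivity),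
          ← hu] at e1
        have e2 : Real.log 4 = 2 * Real.log 2 := by
          rw [show (4 : ℝ) = 2 ^ 2 by norm_num, Real.log_pow]; norm_num
        linarith
      have h8 : θ ≤ (C * (7 * u + Real.log θ)) ^ C :=
        h5.trans (Real.rpow_le_rpow (by positivity)
          (mul_le_mul_of_nonneg_left h7 (by linarith)) (by linarith))
      have h9 := ana_const C u θ hC1 hu0 (ana_theta C u θ hC1 hu0 hθ1 h8)
      rw [← hR] at h9
      rw [div_le_iff₀ hR0]
      have h10 : b = θ * H := by rw [hθ]; field_simp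
      have h11 : θ * H ≤ (R / 3) * (3 * ‖g‖) := by
        apply mul_le_mul _ hHle hH0.le (by positivity)
        linarith
      rw [h10]
      linarith

end Pool.Agent.Helper8
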