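import Mathlib
import Pool.Agent.Helper8.DensitySep
import Pool.Agent.Helper90.DensityAbs

set_option autoImplicit false

namespace Pool.Agent.Helper8

open Finset

lemma bad_choice (w : ℕ) (hw : 104 ≤ w) (r v B : ℝ) (c J : ℕ) (hr : 1 ≤ r) (hv : 1 < v)
    (hJ : r * v ^ J ≤ 3) (hc : c ≤ J) (hB : 16 ≤ B) (h : IsBad w r v B c) :
    ∃ ab : ℕ × ℕ, 0 < ab.1 ∧ 0 < ab.2 ∧ (ab.1 : ℝ) < 4 * B ^ 2 ∧ (ab.2 : ℝ) < B ^ 2 ∧
      Real.log ab.1 - Real.log ab.2 - Real.log r - c * Real.log v ≠ 0 ∧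
      |Real.log ab.1 - Real.log ab.2 - Real.log r - c * Real.log v| ≤ 2 / B ^ w := by
  obtain ⟨a, b, hBb, hbB, hne, hlt⟩ := h
  have hB0 : 0 < B := by linarith
  have hv0 : 0 < v := by linarith
  have hr0 : 0 < r := by linarith
  have hb0 : (0 : ℝ) < b := by linarith
  have hbn : 0 < b := by exact_mod_cast hb0
  set ρ : ℝ := r * v ^ c with hρ
  have hρ1 : 1 ≤ ρ := by
    have : 1 ≤ v ^ c := one_le_pow₀ hv.le
    nlinarith
  have hρ3 : ρ ≤ 3 := by
    refine le_trans ?_ hJ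
    exact mul_le_mul_of_nonneg_left (pow_le_pow_right₀ hv.le hc) hr0.le
  set ε : ℝ := 1 / B ^ w with hε
  have hε0 : 0 < ε := by positivity
  have hε16 : ε ≤ 1 / 16 := by
    rw [hε]
    apply one_div_le_one_div_of_le (by norm_num)
    calc (16 : ℝ) ≤ B ^ 1 := by linarith
      _ ≤ B ^ w := pow_le_pow_right₀ (by linarith) (by omega)
  have hlt2 : |ρ - (a : ℝ) / b| < ε := by
    refine lt_of_lt_of_le hlt ?_
    rw [hε]
    exact one_div_le_one_div_of_le (by positivity) (pow_le_pow_left₀ hB0.le hBb w)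
  obtain ⟨h1, h2⟩ := abs_lt.mp hlt2
  have hab0 : 0 < (a : ℝ) / b := by linarith
  have ha0 : (0 : ℝ) < a := by
    rcases div_pos_iff.mp hab0 with h3 | h3
    · exact h3.1
    · linarith [h3.2]
  have haz : 0 < a := by exact_mod_cast ha0
  have hacast : ((a.natAbs : ℕ) : ℝ) = a := by
    rw [Nat.cast_natAbs, abs_of_pos haz]
  refine ⟨(a.natAbs, b), Int.natAbs_pos.mpr haz.ne', hbn, ?_, hbB, ?_, ?_⟩
  · simp only
    rw [hacast]
    have h3 : (a : ℝ) / b < 4 := by linarith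
    rw [div_lt_iff₀ hb0] at h3
    linarith
  · simp only
    rw [hacast]
    intro h3
    apply hne
    have h4 : Real.log ((a : ℝ) / b) = Real.log ρ := by
      rw [Real.log_div ha0.ne' hb0.ne', hρ, Real.log_mul hr0.ne' (by positivity), Real.log_pow]
      linarith
    exact Real.log_injOn_pos (Set.mem_Ioi.mpr hab0) (Set.mem_Ioi.mpr (by linarith)) h4
  · simp only
    rw [hacast]
    set t : ℝ := (a : ℝ) / b / ρ with ht
    have ht0 : 0 < t := by positivity
    have hlogt : Real.log a - Real.log b - Real.log r - c * Real.log v = Real.log t := by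
      rw [ht, Real.log_div hab0.ne' (by positivity), Real.log_div ha0.ne' hb0.ne', hρ,
        Real.log_mul hr0.ne' (by positivity), Real.log_pow]
      ring
    rw [hlogt]
    have ht1 : |t - 1| ≤ ε := by
      have h3 : t - 1 = ((a : ℝ) / b - ρ) / ρ := by rw [ht]; field_simp
      rw [h3, abs_div, abs_of_pos (show 0 < ρ by linarith), div_le_iff₀ (by linarith), abs_sub_comm]
      nlinarith
    obtain ⟨h3, h4⟩ := abs_le.mp ht1
    have h5 := Real.log_le_sub_one_of_pos ht0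
    have h6 := Real.one_sub_inv_le_log_of_pos ht0
    have h7 : 2 / B ^ w = 2 * ε := by rw [hε]; ring
    rw [h7, abs_le]
    constructor
    · refine le_trans ?_ h6
      have h8 : t⁻¹ ≤ 1 + 2 * ε := by
        rw [inv_le_comm₀ ht0 (by positivity)]
        have h9 : (1 + 2 * ε)⁻¹ ≤ 1 - ε := by
          rw [inv_le_comm₀ (by positivity) (by linarith), inv_eq_one_div,
            div_le_iff₀ (by linarith)]
          nlinarith
        linarith
      linarith
    · linarith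

set_option maxHeartbeats 4000000 in
theorem densityStmt (hA : ThmA 2 3) (hB : ThmB) : DensityStmt := by
  obtain ⟨D, hD2, hD3, hsep⟩ := sep hA hB
  have hD0 : 0 < D := by linarith
  refine ⟨12288 * D ^ 3, ?_, ?_⟩
  · have : (1 : ℝ) ≤ D ^ 3 := one_le_pow₀ (by linarith)
    linarith
  intro w hw r1 r2 f1 f2 J B r v h hr hv hh hr1 hv1 hJ hJ3 hB16 hlamB s hs
  set b := Real.log B with hb
  have hB0 : 0 < B := by linarith
  have hl2 := log_two_ge_half
  have hl2' : Real.log 2 ≤ 1 := by linarith [Real.log_two_lt_d9]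
  have hb2 : 2 ≤ b := by
    have h1 : Real.log 16 ≤ b := Real.log_le_log (by norm_num) hB16
    have h2 : Real.log 16 = 4 * Real.log 2 := by
      rw [show (16 : ℝ) = 2 ^ 4 by norm_num, Real.log_pow]; norm_num
    linarith
  have hb16 : Real.log 16 ≤ b := Real.log_le_log (by norm_num) hB16
  have hlog4 : Real.log 4 ≤ b := (Real.log_le_log (by norm_num) (by norm_num)).trans hb16
  have hb0 : 0 < b := by linarith
  have hlogr : Real.log r = r1 * Real.log 2 + r2 * Real.log 3 := by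
    rw [hr, Real.log_mul (by positivity) (by positivity), Real.log_zpow, Real.log_zpow]
  have hlogv : Real.log v = f1 * Real.log 2 + f2 * Real.log 3 := by
    rw [hv, Real.log_mul (by positivity) (by positivity), Real.log_zpow, Real.log_zpow]
  have hlam : 0 < f1 * Real.log 2 + f2 * Real.log 3 := by
    rw [← hlogv]; exact Real.log_pos hv1
  have hh0 : 0 < h := by
    have h1 : f1 * Real.log 2 + f2 * Real.log 3 ≤ h := by
      rw [hh]
      have e1 : (f1 : ℝ) * Real.log 2 ≤ |(f1 : ℝ)| * Real.log 2 :=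
        mul_le_mul_of_nonneg_right (le_abs_self _) (by linarith)
      have e2 : (f2 : ℝ) * Real.log 3 ≤ |(f2 : ℝ)| * Real.log 3 :=
        mul_le_mul_of_nonneg_right (le_abs_self _) (Real.log_nonneg (by norm_num))
      linarith
    linarith
  set M : ℕ := ⌈4 * B ^ 2⌉₊ + 5 with hM
  have hM4 : 4 ≤ M := by omega
  have hMB : 4 * B ^ 2 ≤ M := by
    have := Nat.le_ceil (4 * B ^ 2)
    rw [hM]; push_cast; linarith
  have hch : ∀ c, ∃ ab : ℕ × ℕ, c ∈ s → (0 < ab.1 ∧ 0 < ab.2 ∧ (ab.1 : ℝ) < 4 * B ^ 2 ∧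
      (ab.2 : ℝ) < B ^ 2 ∧
      Real.log ab.1 - Real.log ab.2 - Real.log r - c * Real.log v ≠ 0 ∧
      |Real.log ab.1 - Real.log ab.2 - Real.log r - c * Real.log v| ≤ 2 / B ^ w) := by
    intro c
    by_cases hc : c ∈ s
    · obtain ⟨ab, hab⟩ := bad_choice w hw r v B c J hr1 hv1 hJ3 (hs c hc).1 hB16 (hs c hc).2
      exact ⟨ab, fun _ => hab⟩
    · exact ⟨(0, 0), fun h => absurd h hc⟩
  choose ab hab using hch
  have hsm1 : ∀ c ∈ s, Sm M (ab c).1 := by
    intro c hc
    apply Sm.of_lt (hab c hc).1.ne'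
    have : ((ab c).1 : ℝ) < M := (hab c hc).2.2.1.trans_le hMB
    exact_mod_cast this
  have hsm2 : ∀ c ∈ s, Sm M (ab c).2 := by
    intro c hc
    apply Sm.of_lt (hab c hc).2.1.ne'
    have : ((ab c).2 : ℝ) < M := by
      refine (hab c hc).2.2.2.1.trans_le (le_trans ?_ hMB)
      have : 0 ≤ B ^ 2 := by positivity
      linarith
    exact_mod_cast this
  set rv : VV M := uv M r1 r2 with hrv
  set vv : VV M := uv M f1 f2 with hvv
  set y : ℕ → VV M := fun c => vn M (ab c).1 - vn M (ab c).2 with hy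
  set x : ℕ → VV M := fun c => y c - rv - (c : ℝ) • vv with hx
  have hyG : ∀ c ∈ s, y c ∈ Gam M := fun c hc => ⟨_, _, hsm1 c hc, hsm2 c hc, rfl⟩
  have hrvG : rv ∈ Gam M := uv_mem hM4 _ _
  have hvvG : vv ∈ Gam M := uv_mem hM4 _ _
  have hnv : ‖vv‖ = h := by rw [hvv, norm_uv hM4, hh]
  have hny : ∀ c ∈ s, ‖y c‖ ≤ 6 * b := by
    intro c hc
    obtain ⟨e1, e2, e3, e4, _, _⟩ := hab c hc
    have h1 : ‖y c‖ ≤ ‖vn M (ab c).1‖ + ‖vn M (ab c).2‖ := norm_sub_le _ _
    rw [norm_vn (hsm1 c hc), norm_vn (hsm2 c hc)] at h1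
    have h2 : Real.log (ab c).1 ≤ Real.log (4 * B ^ 2) :=
      Real.log_le_log (by exact_mod_cast e1) e3.le
    have h3 : Real.log (ab c).2 ≤ Real.log (B ^ 2) :=
      Real.log_le_log (by exact_mod_cast e2) e4.le
    rw [Real.log_mul (by norm_num) (by positivity), Real.log_pow] at h2
    rw [Real.log_pow] at h3
    push_cast at h2 h3
    linarith
  have hlfx : ∀ c ∈ s, lf M (x c) =
      Real.log (ab c).1 - Real.log (ab c).2 - Real.log r - c * Real.log v := by
    intro c hc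
    simp only [hx, hy, map_sub, map_smul, smul_eq_mul]
    rw [lf_vn (hsm1 c hc), lf_vn (hsm2 c hc), hrv, hvv, lf_uv hM4, lf_uv hM4, hlogr, hlogv]
  have hlfx2 : ∀ c ∈ s, |lf M (x c)| ≤ 2 / B ^ w := by
    intro c hc
    rw [hlfx c hc]
    exact (hab c hc).2.2.2.2.2
  set X : ℝ := J * h / b with hX
  have hJ1 : (1 : ℝ) ≤ J := by exact_mod_cast hJ
  have hX0 : 0 ≤ X := by positivity
  set u : ℝ := Real.log (X + 2) with hu
  have hu0 : 1 / 2 ≤ u := hl2.trans (Real.log_le_log (by norm_num) (by linarith))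
  set R : ℝ := (D * u) ^ D with hR
  have hR3 : 3 ≤ R := hD3 u hu0
  have hR0 : 0 < R := by linarith
  have key := Pool.Agent.Helper90.density_abs (Gam M) (lf M) lf_inj J hJ s (fun c hc => (hs c hc).1)
    rv vv hrvG hvvG y x hyG (fun c => rfl) ((w : ℝ) / 2 * b / h) (12 * b / h) (6 * b) (b / R)
    (by positivity) (by positivity) (by positivity) (by positivity) ?_ ?_ hny ?_
  · -- final estimate
    have hSS : (4 * (J : ℝ) / max 1 ((w : ℝ) / 2 * b / h) + 1) = SS w J B h := by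
      unfold SS; rw [← hb]
    rw [hSS] at key
    set S := SS w J B h with hS
    have hS1 : 1 ≤ S := by
      rw [hS]; unfold SS
      have : 0 ≤ 4 * (J : ℝ) / max 1 ((w : ℝ) / 2 * Real.log B / h) := by positivity
      linarith
    have e1 : 1 + 8 * (6 * b) / (b / R) = 1 + 48 * R := by field_simp; ring
    rw [e1] at key
    have e2 := ana_log D u hD2 hu0
    rw [← hR] at e2
    have e3 : 16 * S * (Real.log (1 + 48 * R)) ^ 2 / (Real.log S) ^ 2 ≤
        1024 * D ^ 3 * (S * Real.sqrt u / (Real.log S) ^ 2) := by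
      have : 16 * S * (Real.log (1 + 48 * R)) ^ 2 / (Real.log S) ^ 2 ≤
          16 * S * (64 * D ^ 3 * Real.sqrt u) / (Real.log S) ^ 2 := by gcongr
      refine this.trans (le_of_eq ?_)
      ring
    have e4 : 0 ≤ S * Real.sqrt u / (Real.log S) ^ 2 := by positivity
    have hD31 : (1 : ℝ) ≤ D ^ 3 := one_le_pow₀ (by linarith)
    have e5 : max (Real.sqrt S) (16 * S * (Real.log (1 + 48 * R)) ^ 2 / (Real.log S) ^ 2) ≤
        1024 * D ^ 3 * (Real.sqrt S + S * Real.sqrt u / (Real.log S) ^ 2) := by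
      have e6 : 0 ≤ Real.sqrt S := Real.sqrt_nonneg _
      apply max_le
      · nlinarith
      · refine e3.trans ?_
        apply mul_le_mul_of_nonneg_left _ (by positivity)
        linarith
    have e7 : 12 * b / h + 1 ≤ 12 * (b / h + 1) := by
      have : 12 * b / h = 12 * (b / h) := by ring
      linarith
    calc (s.card : ℝ) ≤ _ := key
      _ ≤ (12 * (b / h + 1)) * (1024 * D ^ 3 * (Real.sqrt S + S * Real.sqrt u / (Real.log S) ^ 2)) := by
          apply mul_le_mul e7 e5 (le_max_of_le_left (Real.sqrt_nonneg _)) (by positivity)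
      _ = 12288 * D ^ 3 * (b / h + 1) * (Real.sqrt S + S * Real.sqrt u / (Real.log S) ^ 2) := by
          ring
  · -- h1
    intro c c' hc hc' hne
    set Δ : ℤ := (∑ i, (c i : ℤ)) - ∑ i, (c' i : ℤ) with hΔ
    have hΔr : (∑ i, (c i : ℝ)) - ∑ i, (c' i : ℝ) = (Δ : ℝ) := by rw [hΔ]; push_cast; ring
    rw [hΔr]
    set γ : VV M := ∑ i, x (c i) - ∑ i, x (c' i) with hγ
    have hγ0 : γ ≠ 0 := sub_ne_zero.mpr hne
    have hγ2 : γ = (∑ i, y (c i) - ∑ i, y (c' i)) - (Δ : ℝ) • vv := by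
      rw [hγ, ← hΔr]
      simp only [hx, Finset.sum_sub_distrib, sub_smul, Finset.sum_smul, Finset.sum_const]
      abel
    have hG : (∑ i, y (c i) - ∑ i, y (c' i)) ∈ Gam M :=
      (Gam M).sub_mem ((Gam M).sum_mem (fun i _ => hyG _ (hc i)))
        ((Gam M).sum_mem (fun i _ => hyG _ (hc' i)))
    have hγG : γ ∈ Gam M := by
      rw [hγ2, Int.cast_smul_eq_zsmul]
      exact (Gam M).sub_mem hG ((Gam M).zsmul_mem hvvG Δ)
    have h1 := key_lower hγG hγ0
    have h2 : |lf M γ| ≤ 16 / B ^ w := by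
      rw [hγ, map_sub, map_sum, map_sum]
      have e1 : |∑ i, lf M (x (c i))| ≤ ∑ _i : Fin 4, 2 / B ^ w :=
        (Finset.abs_sum_le_sum_abs _ _).trans (Finset.sum_le_sum (fun i _ => hlfx2 _ (hc i)))
      have e2 : |∑ i, lf M (x (c' i))| ≤ ∑ _i : Fin 4, 2 / B ^ w :=
        (Finset.abs_sum_le_sum_abs _ _).trans (Finset.sum_le_sum (fun i _ => hlfx2 _ (hc' i)))
      rw [Finset.sum_const, Finset.card_univ, Fintype.card_fin, nsmul_eq_mul] at e1 e2
      have e3 := abs_sub (∑ i, lf M (x (c i))) (∑ i, lf M (x (c' i)))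
      have e4 : (16 : ℝ) / B ^ w = ((4 : ℕ) : ℝ) * (2 / B ^ w) + ((4 : ℕ) : ℝ) * (2 / B ^ w) := by
        push_cast; ring
      rw [e4]; linarith
    have h3 : ‖γ‖ ≤ 48 * b + |(Δ : ℝ)| * h := by
      rw [hγ2]
      have e1 : ‖∑ i, y (c i)‖ ≤ ∑ _i : Fin 4, 6 * b :=
        (norm_sum_le _ _).trans (Finset.sum_le_sum (fun i _ => hny _ (hc i)))
      have e2 : ‖∑ i, y (c' i)‖ ≤ ∑ _i : Fin 4, 6 * b :=
        (norm_sum_le _ _).trans (Finset.sum_le_sum (fun i _ => hny _ (hc' i)))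
      rw [Finset.sum_const, Finset.card_univ, Fintype.card_fin, nsmul_eq_mul] at e1 e2
      push_cast at e1 e2
      have e3 : ‖(∑ i, y (c i) - ∑ i, y (c' i)) - (Δ : ℝ) • vv‖ ≤
          ‖∑ i, y (c i) - ∑ i, y (c' i)‖ + ‖(Δ : ℝ) • vv‖ := norm_sub_le _ _
      have e4 : ‖∑ i, y (c i) - ∑ i, y (c' i)‖ ≤ ‖∑ i, y (c i)‖ + ‖∑ i, y (c' i)‖ :=
        norm_sub_le _ _
      rw [norm_smul, hnv, Real.norm_eq_abs] at e3
      linarith
    have h4 : Real.exp (-(48 * b + |(Δ : ℝ)| * h)) ≤ Real.exp (Real.log 16 - w * b) := by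
      have e1 : Real.exp (Real.log 16 - w * b) = 16 / B ^ w := by
        rw [Real.exp_sub, Real.exp_log (by norm_num), Real.exp_nat_mul, hb, Real.exp_log hB0]
      rw [e1]
      refine le_trans (Real.exp_le_exp.mpr (neg_le_neg h3)) (h1.trans h2)
    have h5 := Real.exp_le_exp.mp h4
    rw [div_le_iff₀ hh0]
    have hwr : (104 : ℝ) ≤ w := by exact_mod_cast hw
    nlinarith
  · -- h2
    intro c hc c' hc' heq
    have h1 : y c - y c' = ((c : ℝ) - c') • vv := by
      simp only [hx] at heq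
      have : y c - y c' = (c : ℝ) • vv - (c' : ℝ) • vv := by
        have h2 := sub_eq_zero.mpr heq
        rw [← sub_eq_zero]
        rw [← h2]
        abel
      rw [this, sub_smul]
    have h2 : ‖y c - y c'‖ ≤ 12 * b := by
      have := norm_sub_le (y c) (y c')
      linarith [hny c hc, hny c' hc']
    rw [h1, norm_smul, hnv, Real.norm_eq_abs] at h2
    rw [le_div_iff₀ hh0]
    exact h2
  · -- h4
    intro c1 hc1 c2 hc2 c1' hc1' c2' hc2' hne
    set g : VV M := (y c1 + y c2) - (y c1' + y c2') with hg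
    set Δ : ℤ := (c1 : ℤ) + c2 - c1' - c2' with hΔ
    have hgG : g ∈ Gam M :=
      (Gam M).sub_mem ((Gam M).add_mem (hyG _ hc1) (hyG _ hc2))
        ((Gam M).add_mem (hyG _ hc1') (hyG _ hc2'))
    have hγ : g - (Δ : ℝ) • vv = (x c1 + x c2) - (x c1' + x c2') := by
      rw [hΔ]
      push_cast
      simp only [hg, hx, sub_smul, add_smul]
      abel
    have hΔabs : |(Δ : ℝ)| ≤ 2 * J := by
      have e1 : (c1 : ℝ) ≤ J := by exact_mod_cast (hs c1 hc1).1
      have e2 : (c2 : ℝ) ≤ J := by exact_mod_cast (hs c2 hc2).1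
      have e3 : (c1' : ℝ) ≤ J := by exact_mod_cast (hs c1' hc1').1
      have e4 : (c2' : ℝ) ≤ J := by exact_mod_cast (hs c2' hc2').1
      have p1 : (0 : ℝ) ≤ c1 := Nat.cast_nonneg _
      have p2 : (0 : ℝ) ≤ c2 := Nat.cast_nonneg _
      have p3 : (0 : ℝ) ≤ c1' := Nat.cast_nonneg _
      have p4 : (0 : ℝ) ≤ c2' := Nat.cast_nonneg _
      rw [hΔ, abs_le]
      push_cast
      constructor <;> linarith
    have hgn : ‖g‖ ≤ 24 * b := by
      have e1 := norm_sub_le (y c1 + y c2) (y c1' + y c2')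
      have e2 := norm_add_le (y c1) (y c2)
      have e3 := norm_add_le (y c1') (y c2')
      linarith [hny c1 hc1, hny c2 hc2, hny c1' hc1', hny c2' hc2']
    have hsmall : |lf M (g - (Δ : ℝ) • vv)| ≤ 8 / B ^ w := by
      rw [hγ, map_sub, map_add, map_add]
      have e1 := abs_sub (lf M (x c1) + lf M (x c2)) (lf M (x c1') + lf M (x c2'))
      have e2 := abs_add_le (lf M (x c1)) (lf M (x c2))
      have e3 := abs_add_le (lf M (x c1')) (lf M (x c2'))
      have e4 : (8 : ℝ) / B ^ w = 2 / B ^ w + 2 / B ^ w + 2 / B ^ w + 2 / B ^ w := by ring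
      rw [e4]
      linarith [hlfx2 c1 hc1, hlfx2 c2 hc2, hlfx2 c1' hc1', hlfx2 c2' hc2']
    exact hsep M w f1 f2 J B h hM4 hw hJ hh hB16 hlam (by rw [← hlogv]; exact hlamB) g hgG Δ hΔabs
      hgn (by rw [← hvv, hγ]; exact sub_ne_zero.mpr hne) hsmall

end Pool.Agent.Helper8
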