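import Mathlib

set_option autoImplicit false

namespace Pool.Agent.Helper8

open Finset

lemma rolle_finset (G G' : ℝ → ℝ) (hG : ∀ t, HasDerivAt G (G' t) t) (Z : Finset ℝ)
    (hZ : ∀ z ∈ Z, G z = 0) : ∃ Z' : Finset ℝ, (∀ z ∈ Z', G' z = 0) ∧ Z.card ≤ Z'.card + 1 := by
  rcases Nat.eq_zero_or_pos Z.card with h0 | hpos
  · exact ⟨∅, by simp, by omega⟩
  obtain ⟨k, hk⟩ : ∃ k, Z.card = k + 1 := ⟨Z.card - 1, by omega⟩
  let e := Z.orderEmbOfFin hk
  have he : ∀ i : Fin k, ∃ y, e i.castSucc < y ∧ y < e i.succ ∧ G' y = 0 := by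
    intro i
    have hlt : e i.castSucc < e i.succ := e.strictMono Fin.castSucc_lt_succ
    have h1 : G (e i.castSucc) = 0 := hZ _ (Finset.orderEmbOfFin_mem Z hk _)
    have h2 : G (e i.succ) = 0 := hZ _ (Finset.orderEmbOfFin_mem Z hk _)
    obtain ⟨c, hc, hc'⟩ := exists_hasDerivAt_eq_zero hlt
      (fun x _ => (hG x).continuousAt.continuousWithinAt) (by rw [h1, h2]) (fun x _ => hG x)
    exact ⟨c, hc.1, hc.2, hc'⟩
  choose y hy1 hy2 hy3 using he
  have hymono : StrictMono y := by
    intro i j hij
    have h1 : e i.succ ≤ e j.castSucc := by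
      apply e.monotone
      rw [Fin.le_def]
      simp only [Fin.val_succ, Fin.val_castSucc]
      exact hij
    exact (hy2 i).trans_le (h1.trans (hy1 j).le)
  refine ⟨Finset.univ.image y, ?_, ?_⟩
  · intro z hz
    obtain ⟨i, _, rfl⟩ := Finset.mem_image.mp hz
    exact hy3 i
  · rw [Finset.card_image_of_injective _ hymono.injective, Finset.card_univ, Fintype.card_fin, hk]

/-- A real exponential sum with `n` distinct exponents has fewer than `n` real zeros. -/
theorem exp_sum_zeros {ι : Type*} [DecidableEq ι] : ∀ (n : ℕ) (S : Finset ι) (c w : ι → ℝ),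
    S.card = n + 1 → (∀ i ∈ S, c i ≠ 0) → Set.InjOn w (S : Set ι) →
    ∀ Z : Finset ℝ, (∀ z ∈ Z, ∑ i ∈ S, c i * Real.exp (w i * z) = 0) → Z.card ≤ n := by
  intro n
  induction n with
  | zero =>
    intro S c w hS hc _ Z hZ
    obtain ⟨i, rfl⟩ := Finset.card_eq_one.mp hS
    rcases Z.eq_empty_or_nonempty with rfl | ⟨z, hz⟩
    · simp
    · have := hZ z hz
      rw [Finset.sum_singleton] at this
      have h1 := hc i (by simp)
      have h2 := (Real.exp_pos (w i * z)).ne'
      exact absurd this (mul_ne_zero h1 h2)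
  | succ n ih =>
    intro S c w hS hc hw Z hZ
    have hne : S.Nonempty := Finset.card_pos.mp (by omega)
    obtain ⟨i0, hi0⟩ := hne
    let G : ℝ → ℝ := fun t => ∑ i ∈ S, c i * Real.exp ((w i - w i0) * t)
    let G' : ℝ → ℝ := fun t => ∑ i ∈ S.erase i0, (c i * (w i - w i0)) * Real.exp ((w i - w i0) * t)
    have hG : ∀ t, HasDerivAt G (G' t) t := by
      intro t
      have h1 : HasDerivAt G (∑ i ∈ S, c i * (Real.exp ((w i - w i0) * t) * (w i - w i0))) t := by
        apply HasDerivAt.fun_sum
        intro i _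
        apply HasDerivAt.const_mul
        have h2 : HasDerivAt (fun t => (w i - w i0) * t) (w i - w i0) t := by
          simpa using (hasDerivAt_id t).const_mul (w i - w i0)
        exact h2.exp
      have h3 : ∑ i ∈ S, c i * (Real.exp ((w i - w i0) * t) * (w i - w i0)) = G' t := by
        rw [← Finset.sum_erase S (a := i0)]
        · apply Finset.sum_congr rfl
          intro i _
          ring
        · simp
      rwa [h3] at h1
    have hGZ : ∀ z ∈ Z, G z = 0 := by
      intro z hz
      have h1 : G z = Real.exp (-(w i0 * z)) * ∑ i ∈ S, c i * Real.exp (w i * z) := by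
        simp only [G]
        rw [Finset.mul_sum]
        apply Finset.sum_congr rfl
        intro i _
        rw [show (w i - w i0) * z = -(w i0 * z) + w i * z by ring, Real.exp_add]
        ring
      rw [h1, hZ z hz, mul_zero]
    obtain ⟨Z', hZ', hcard⟩ := rolle_finset G G' hG Z hGZ
    have h1 := ih (S.erase i0) (fun i => c i * (w i - w i0)) (fun i => w i - w i0)
      (by rw [Finset.card_erase_of_mem hi0, hS]; simp) ?_ ?_ Z' hZ'
    · omega
    · intro i hi
      have hi' := Finset.mem_erase.mp hi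
      apply mul_ne_zero (hc i hi'.2)
      rw [sub_ne_zero]
      intro h
      exact hi'.1 (hw hi'.2 hi0 h)
    · intro i hi j hj hij
      have hi' := Finset.mem_erase.mp hi
      have hj' := Finset.mem_erase.mp hj
      apply hw hi'.2 hj'.2
      simpa using hij

end Pool.Agent.Helper8
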