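import Mathlib

set_option autoImplicit false

namespace Pool.Agent.Helper8

open Finset Complex Metric

/-- normalized Taylor coefficient -/
noncomputable def tc (f : ℂ → ℂ) (x : ℂ) (m : ℕ) : ℂ := iteratedDeriv m f x / (m.factorial : ℂ)

lemma differentiable_dslope {f : ℂ → ℂ} (hf : Differentiable ℂ f) (c : ℂ) :
    Differentiable ℂ (dslope f c) := by
  rw [← differentiableOn_univ]
  rw [Complex.differentiableOn_dslope Filter.univ_mem]
  exact hf.differentiableOn

lemma eq_dslope (f : ℂ → ℂ) (c z : ℂ) : f z = f c + (z - c) * dslope f c z := by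
  have := sub_smul_dslope f c z
  rw [smul_eq_mul] at this
  rw [this]; ring

lemma differentiable_iteratedDeriv {g : ℂ → ℂ} (hg : Differentiable ℂ g) (m : ℕ) :
    Differentiable ℂ (iteratedDeriv m g) := by
  have : ContDiff ℂ (m + 1 : ℕ) g := hg.contDiff
  exact this.differentiable_iteratedDeriv m (by exact_mod_cast Nat.lt_succ_self m)

lemma iteratedDeriv_succ_mul (g : ℂ → ℂ) (hg : Differentiable ℂ g) (a c : ℂ) (m : ℕ) :
    iteratedDeriv (m + 1) (fun z => a + (z - c) * g z) =
      fun z => (z - c) * iteratedDeriv (m + 1) g z + (m + 1) * iteratedDeriv m g z := by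
  induction m with
  | zero =>
    rw [zero_add, iteratedDeriv_one, iteratedDeriv_one, iteratedDeriv_zero]
    ext z
    have h1 : HasDerivAt (fun z => a + (z - c) * g z) (1 * g z + (z - c) * deriv g z) z := by
      have h2 : HasDerivAt (fun z : ℂ => z - c) 1 z := (hasDerivAt_id z).sub_const c
      exact (h2.mul (hg z).hasDerivAt).const_add a
    rw [h1.deriv]
    push_cast
    ring
  | succ m ih =>
    rw [iteratedDeriv_succ, ih]
    ext z
    have hd1 := differentiable_iteratedDeriv hg (m + 1)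
    have hd0 := differentiable_iteratedDeriv hg m
    have h2 : HasDerivAt (fun z : ℂ => z - c) 1 z := (hasDerivAt_id z).sub_const c
    have h3 : HasDerivAt (fun z => (z - c) * iteratedDeriv (m + 1) g z +
        (m + 1) * iteratedDeriv m g z)
        ((1 * iteratedDeriv (m + 1) g z + (z - c) * deriv (iteratedDeriv (m + 1) g) z) +
         (m + 1) * deriv (iteratedDeriv m g) z) z := by
      exact (h2.mul (hd1 z).hasDerivAt).add (((hd0 z).hasDerivAt).const_mul _)
    rw [h3.deriv, ← iteratedDeriv_succ, ← iteratedDeriv_succ]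
    push_cast
    ring

lemma tc_succ (f : ℂ → ℂ) (hf : Differentiable ℂ f) (c x : ℂ) (m : ℕ) :
    tc f x (m + 1) = (x - c) * tc (dslope f c) x (m + 1) + tc (dslope f c) x m := by
  have h1 : f = fun z => f c + (z - c) * dslope f c z := by
    ext z; exact eq_dslope f c z
  unfold tc
  conv_lhs => rw [h1]
  rw [iteratedDeriv_succ_mul _ (differentiable_dslope hf c)]
  have h2 : ((m + 1).factorial : ℂ) ≠ 0 := by exact_mod_cast Nat.factorial_ne_zero _
  have h3 : ((m).factorial : ℂ) ≠ 0 := by exact_mod_cast Nat.factorial_ne_zero _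
  have h4 : ((m : ℂ) + 1) ≠ 0 := by exact_mod_cast Nat.succ_ne_zero m
  rw [Nat.factorial_succ]
  push_cast
  field_simp

lemma tc_zero (f : ℂ → ℂ) (x : ℂ) : tc f x 0 = f x := by
  simp [tc]

/-- weighted sum of Taylor coefficients -/
noncomputable def wsum (f : ℂ → ℂ) (x : ℂ) (s : ℕ) : ℝ :=
  ∑ m ∈ range s, ‖tc f x m‖ * (1 / 2) ^ m

lemma wsum_nonneg (f : ℂ → ℂ) (x : ℂ) (s : ℕ) : 0 ≤ wsum f x s :=
  Finset.sum_nonneg (fun _ _ => by positivity)

lemma norm_le_wsum (f : ℂ → ℂ) (x : ℂ) (s : ℕ) (hs : 1 ≤ s) : ‖f x‖ ≤ wsum f x s := by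
  unfold wsum
  have : ‖f x‖ = ‖tc f x 0‖ * (1 / 2) ^ 0 := by simp [tc_zero]
  rw [this]
  exact Finset.single_le_sum (f := fun m => ‖tc f x m‖ * (1 / 2 : ℝ) ^ m)
    (fun _ _ => by positivity) (Finset.mem_range.mpr (by omega))

lemma wsum_dslope_self (f : ℂ → ℂ) (hf : Differentiable ℂ f) (x : ℂ) (s : ℕ) :
    wsum (dslope f x) x s ≤ 2 * wsum f x (s + 1) := by
  unfold wsum
  rw [Finset.sum_range_succ' _ s, mul_add, Finset.mul_sum]
  have : ∑ m ∈ range s, ‖tc (dslope f x) x m‖ * (1 / 2 : ℝ) ^ m =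
      ∑ m ∈ range s, 2 * (‖tc f x (m + 1)‖ * (1 / 2 : ℝ) ^ (m + 1)) := by
    apply Finset.sum_congr rfl
    intro m _
    rw [tc_succ f hf x x m]
    simp only [sub_self, zero_mul, zero_add]
    rw [pow_succ]; ring
  rw [this]
  have : 0 ≤ 2 * (‖tc f x 0‖ * (1 / 2 : ℝ) ^ 0) := by positivity
  linarith

lemma wsum_dslope_ne (f : ℂ → ℂ) (hf : Differentiable ℂ f) (c x : ℂ) (hcx : 1 ≤ ‖x - c‖) (s : ℕ) :
    wsum (dslope f c) x s ≤ 2 * (wsum f x s + ‖f c‖) := by
  rcases s with _ | s
  · simp [wsum]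
  set g := dslope f c with hg
  have h0 : ‖tc g x 0‖ ≤ ‖tc f x 0‖ + ‖f c‖ := by
    rw [tc_zero, tc_zero]
    have h1 : (x - c) * g x = f x - f c := by
      rw [hg, eq_dslope f c x]; ring
    have h2 : ‖x - c‖ * ‖g x‖ ≤ ‖f x‖ + ‖f c‖ := by
      rw [← norm_mul, h1]; exact norm_sub_le _ _
    nlinarith [norm_nonneg (g x)]
  have h1 : ∀ m, ‖tc g x (m + 1)‖ ≤ ‖tc f x (m + 1)‖ + ‖tc g x m‖ := by
    intro m
    have h1 : (x - c) * tc g x (m + 1) = tc f x (m + 1) - tc g x m := by
      rw [tc_succ f hf c x m]; ring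
    have h2 : ‖x - c‖ * ‖tc g x (m + 1)‖ ≤ ‖tc f x (m + 1)‖ + ‖tc g x m‖ := by
      rw [← norm_mul, h1]; exact norm_sub_le _ _
    nlinarith [norm_nonneg (tc g x (m + 1))]
  have key : wsum g x (s + 1) ≤ wsum f x (s + 1) + ‖f c‖ + (1 / 2) * wsum g x (s + 1) := by
    unfold wsum
    rw [Finset.sum_range_succ' (fun m => ‖tc g x m‖ * (1 / 2 : ℝ) ^ m) s]
    calc ∑ m ∈ range s, ‖tc g x (m + 1)‖ * (1 / 2 : ℝ) ^ (m + 1) + ‖tc g x 0‖ * (1 / 2) ^ 0
        ≤ ∑ m ∈ range s, (‖tc f x (m + 1)‖ * (1 / 2 : ℝ) ^ (m + 1) +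
            (1 / 2) * (‖tc g x m‖ * (1 / 2 : ℝ) ^ m)) + (‖tc f x 0‖ + ‖f c‖) := by
          apply add_le_add
          · apply Finset.sum_le_sum
            intro m _
            have := h1 m
            have h3 : (0 : ℝ) ≤ (1 / 2) ^ (m + 1) := by positivity
            calc ‖tc g x (m + 1)‖ * (1 / 2 : ℝ) ^ (m + 1)
                ≤ (‖tc f x (m + 1)‖ + ‖tc g x m‖) * (1 / 2 : ℝ) ^ (m + 1) :=
                  mul_le_mul_of_nonneg_right this h3
              _ = _ := by rw [pow_succ]; ring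
          · simpa using h0
      _ = (∑ m ∈ range s, ‖tc f x (m + 1)‖ * (1 / 2 : ℝ) ^ (m + 1) + ‖tc f x 0‖ * (1 / 2) ^ 0)
            + ‖f c‖ + (1 / 2) * ∑ m ∈ range s, (‖tc g x m‖ * (1 / 2 : ℝ) ^ m) := by
          rw [Finset.sum_add_distrib, Finset.mul_sum]; ring
      _ = (∑ m ∈ range (s + 1), ‖tc f x m‖ * (1 / 2 : ℝ) ^ m)
            + ‖f c‖ + (1 / 2) * ∑ m ∈ range s, (‖tc g x m‖ * (1 / 2 : ℝ) ^ m) := by
          rw [Finset.sum_range_succ' (fun m => ‖tc f x m‖ * (1 / 2 : ℝ) ^ m) s]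
      _ ≤ _ := by
          have h5 : ∑ m ∈ range s, (‖tc g x m‖ * (1 / 2 : ℝ) ^ m) ≤
              ∑ m ∈ range s, ‖tc g x (m + 1)‖ * (1 / 2 : ℝ) ^ (m + 1) +
                ‖tc g x 0‖ * (1 / 2) ^ 0 := by
            rw [← Finset.sum_range_succ' (fun m => ‖tc g x m‖ * (1 / 2 : ℝ) ^ m) s,
              Finset.sum_range_succ]
            have : 0 ≤ ‖tc g x s‖ * (1 / 2 : ℝ) ^ s := by positivity
            linarith
          linarith
  linarith

lemma norm_dslope_le (f : ℂ → ℂ) (hf : Differentiable ℂ f) (c : ℂ) (R M : ℝ)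
    (hc : ‖c‖ < R) (hM : ∀ z, ‖z‖ ≤ R → ‖f z‖ ≤ M) :
    ∀ z, ‖z‖ ≤ R → ‖dslope f c z‖ ≤ 2 * M / (R - ‖c‖) := by
  intro z hz
  have hR : 0 < R := lt_of_le_of_lt (norm_nonneg c) hc
  have hcl : closure (ball (0 : ℂ) R) = closedBall 0 R := closure_ball 0 hR.ne'
  apply Complex.norm_le_of_forall_mem_frontier_norm_le (U := ball (0 : ℂ) R) isBounded_ball
  · exact (differentiable_dslope hf c).diffContOnCl
  · intro w hw
    rw [frontier_ball 0 hR.ne', mem_sphere_zero_iff_norm] at hw
    have h1 : (w - c) * dslope f c w = f w - f c := by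
      rw [eq_dslope f c w]; ring
    have h2 : ‖w - c‖ * ‖dslope f c w‖ ≤ 2 * M := by
      rw [← norm_mul, h1]
      refine (norm_sub_le _ _).trans ?_
      have := hM w hw.le
      have := hM c hc.le
      linarith
    have h3 : R - ‖c‖ ≤ ‖w - c‖ := by
      have := norm_sub_norm_le w c
      rw [hw] at this
      exact this
    have h4 : 0 < R - ‖c‖ := by linarith
    rw [le_div_iff₀ h4]
    calc ‖dslope f c w‖ * (R - ‖c‖) ≤ ‖dslope f c w‖ * ‖w - c‖ :=
          mul_le_mul_of_nonneg_left h3 (norm_nonneg _)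
      _ = ‖w - c‖ * ‖dslope f c w‖ := mul_comm _ _
      _ ≤ 2 * M := h2
  · rw [hcl]
    simpa using hz

lemma schwarz_list (X : ℕ) (x' : ℂ) (X' R : ℝ) (hX' : 0 ≤ X') (hXR : (X : ℝ) < R)
    (hx' : ∀ x : ℕ, x < X → ‖x' - x‖ ≤ X') (hx'R : ‖x'‖ ≤ R) :
    ∀ (l : List ℕ) (f : ℂ → ℂ) (σ : ℕ → ℕ) (ν M : ℝ), Differentiable ℂ f →
      (∀ x ∈ l, x < X) → (∀ x, l.count x ≤ σ x) →
      (∀ x, x < X → wsum f x (σ x) ≤ ν) → 0 ≤ ν →
      (∀ z, ‖z‖ ≤ R → ‖f z‖ ≤ M) →
      ‖f x'‖ ≤ ν * ∑ i ∈ range l.length, (4 * X') ^ i + M * (2 * X' / (R - X)) ^ l.length := by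
  intro l
  induction l with
  | nil =>
    intro f σ ν M _ _ _ _ hν hM
    simpa using hM x' hx'R
  | cons c l ih =>
    intro f σ ν M hf hl hcount hw hν hM
    have hcX : c < X := hl c (by simp)
    have hσc : 1 ≤ σ c := by
      have := hcount c
      simp only [List.count_cons_self] at this
      omega
    have hfc : ‖f c‖ ≤ ν := (norm_le_wsum f c (σ c) hσc).trans (hw c hcX)
    have hM0 : 0 ≤ M := (norm_nonneg _).trans (hM x' hx'R)
    have hcR : ‖(c : ℂ)‖ < R := by
      rw [Complex.norm_natCast]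
      exact lt_trans (by exact_mod_cast hcX) hXR
    have hRX : 0 < R - X := by linarith
    have hcX' : (c : ℝ) < X := by exact_mod_cast hcX
    have ih' := ih (dslope f c) (fun x => if x = c then σ x - 1 else σ x) (4 * ν)
      (2 * M / (R - X)) (differentiable_dslope hf c) (fun x hx => hl x (by simp [hx])) ?_ ?_
      (by positivity) ?_
    · have h1 : ‖f x'‖ ≤ ν + X' * ‖dslope f c x'‖ := by
        rw [eq_dslope f c x']
        refine (norm_add_le _ _).trans ?_
        rw [norm_mul]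
        exact add_le_add hfc (mul_le_mul_of_nonneg_right (hx' c hcX) (norm_nonneg _))
      refine h1.trans ?_
      have h2 : X' * ‖dslope f c x'‖ ≤ X' * (4 * ν * ∑ i ∈ range l.length, (4 * X') ^ i +
        2 * M / (R - X) * (2 * X' / (R - X)) ^ l.length) := mul_le_mul_of_nonneg_left ih' hX'
      have h3 : (c :: l).length = l.length + 1 := rfl
      rw [h3, Finset.sum_range_succ', pow_succ]
      have h4 : ∑ i ∈ range l.length, (4 * X') ^ (i + 1) =
          4 * X' * ∑ i ∈ range l.length, (4 * X') ^ i := by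
        rw [Finset.mul_sum]
        apply Finset.sum_congr rfl
        intro i _
        rw [pow_succ]; ring
      rw [h4]
      have h5 : X' * (4 * ν * ∑ i ∈ range l.length, (4 * X') ^ i +
        2 * M / (R - X) * (2 * X' / (R - X)) ^ l.length) =
        ν * (4 * X' * ∑ i ∈ range l.length, (4 * X') ^ i) +
          M * ((2 * X' / (R - X)) ^ l.length * (2 * X' / (R - X))) := by
        ring
      rw [h5] at h2
      linarith
    · intro x
      have := hcount x
      rw [List.count_cons] at this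
      by_cases hxc : x = c
      · subst hxc
        simp at this ⊢
        omega
      · simp only [hxc, if_false]
        omega
    · intro x hx
      by_cases hxc : x = c
      · subst hxc
        simp only [if_true]
        have h1 := wsum_dslope_self f hf x (σ x - 1)
        rw [Nat.sub_add_cancel hσc] at h1
        have := hw x hx
        linarith
      · simp only [hxc, if_false]
        have h1 : (1 : ℝ) ≤ ‖(x : ℂ) - (c : ℂ)‖ := by
          have : ((x : ℂ) - (c : ℂ)) = (((x : ℤ) - (c : ℤ) : ℤ) : ℂ) := by push_cast; ring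
          rw [this, Complex.norm_intCast]
          have h2 : ((x : ℤ) - (c : ℤ)) ≠ 0 := by omega
          exact_mod_cast Int.one_le_abs h2
        have h2 := wsum_dslope_ne f hf c x h1 (σ x)
        have := hw x hx
        linarith
    · intro z hz
      refine (norm_dslope_le f hf c R M hcR hM z hz).trans ?_
      rw [Complex.norm_natCast]
      apply div_le_div_of_nonneg_left (by positivity) hRX
      linarith

lemma geom_le (a : ℝ) (ha : 0 ≤ a) (n : ℕ) : ∑ i ∈ range n, a ^ i ≤ (a + 1) ^ n := by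
  induction n with
  | zero => simp
  | succ n ih =>
    rw [Finset.sum_range_succ', pow_succ]
    have h4 : ∑ i ∈ range n, a ^ (i + 1) = a * ∑ i ∈ range n, a ^ i := by
      rw [Finset.mul_sum]
      apply Finset.sum_congr rfl
      intro i _
      rw [pow_succ]; ring
    rw [h4]
    have h1 : a * ∑ i ∈ range n, a ^ i ≤ a * (a + 1) ^ n := mul_le_mul_of_nonneg_left ih ha
    have h2 : (1 : ℝ) ≤ (a + 1) ^ n := one_le_pow₀ (by linarith)
    simp only [pow_zero]
    nlinarith

lemma list_sum_range (g : ℕ → ℕ) (n : ℕ) :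
    (List.map g (List.range n)).sum = ∑ a ∈ range n, g a := by
  induction n with
  | zero => simp
  | succ n ih => rw [List.range_succ, List.map_append, List.sum_append, ih,
      Finset.sum_range_succ]; simp

/-- Approximate Schwarz lemma -/
theorem approx_schwarz (f : ℂ → ℂ) (hf : Differentiable ℂ f) (X s : ℕ) (X' R M η : ℝ)
    (hXX' : (X : ℝ) ≤ X') (hXR : (X : ℝ) < R) (hη : 0 ≤ η)
    (hM : ∀ z, ‖z‖ ≤ R → ‖f z‖ ≤ M)
    (hd : ∀ x : ℕ, x < X → ∀ m < s, ‖tc f x m‖ ≤ η)
    (x' : ℝ) (hx'0 : 0 ≤ x') (hx' : x' ≤ X') (hx'R : x' ≤ R) :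
    ‖f x'‖ ≤ 2 * η * (4 * X' + 1) ^ (s * X) + M * (2 * X' / (R - X)) ^ (s * X) := by
  have hX'0 : 0 ≤ X' := le_trans (Nat.cast_nonneg _) hXX'
  have h := schwarz_list X x' X' R hX'0 hXR ?_ ?_ ((List.range X).flatMap (fun x => List.replicate s x))
    f (fun x => if x < X then s else 0) (2 * η) M hf ?_ ?_ ?_ (by positivity) hM
  · have hlen : ((List.range X).flatMap (fun x => List.replicate s x)).length = s * X := by
      simp [List.length_flatMap, mul_comm]
    rw [hlen] at h
    refine h.trans ?_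
    have := geom_le (4 * X') (by positivity) (s * X)
    have h2 : 2 * η * ∑ i ∈ range (s * X), (4 * X') ^ i ≤ 2 * η * (4 * X' + 1) ^ (s * X) :=
      mul_le_mul_of_nonneg_left this (by positivity)
    linarith
  · intro x hx
    have : ((x' : ℂ) - (x : ℂ)) = ((x' - x : ℝ) : ℂ) := by push_cast; ring
    rw [this, Complex.norm_real, Real.norm_eq_abs, abs_le]
    have hx1 : (x : ℝ) < X := by exact_mod_cast hx
    have hx2 : (0 : ℝ) ≤ x := Nat.cast_nonneg x
    constructor <;> linarith
  · rw [Complex.norm_real, Real.norm_eq_abs, abs_of_nonneg hx'0]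
    exact hx'R
  · intro x hx
    simp only [List.mem_flatMap, List.mem_range, List.mem_replicate] at hx
    obtain ⟨a, ha, _, rfl⟩ := hx
    exact ha
  · intro x
    rw [List.count_flatMap]
    by_cases hx : x < X
    · simp only [hx, if_true]
      have : (List.map (List.count x ∘ fun x => List.replicate s x) (List.range X)).sum =
          ∑ a ∈ range X, (if a = x then s else 0) := by
        rw [list_sum_range]
        apply Finset.sum_congr rfl
        intro a _
        simp [List.count_replicate]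
      rw [this, Finset.sum_ite_eq' (range X) x (fun _ => s)]
      simp [hx]
    · simp only [hx, if_false]
      have : (List.map (List.count x ∘ fun x => List.replicate s x) (List.range X)).sum = 0 := by
        apply List.sum_eq_zero
        intro y hy
        simp only [List.mem_map, List.mem_range, Function.comp] at hy
        obtain ⟨a, ha, rfl⟩ := hy
        rw [List.count_replicate]
        have : a ≠ x := by omega
        simp [this]
      omega
  · intro x hx
    simp only [hx, if_true]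
    unfold wsum
    calc ∑ m ∈ range s, ‖tc f x m‖ * (1 / 2 : ℝ) ^ m ≤ ∑ m ∈ range s, η * (1 / 2 : ℝ) ^ m := by
          apply Finset.sum_le_sum
          intro m hm
          exact mul_le_mul_of_nonneg_right (hd x hx m (Finset.mem_range.mp hm)) (by positivity)
      _ = η * ∑ m ∈ range s, (1 / 2 : ℝ) ^ m := by rw [Finset.mul_sum]
      _ ≤ η * 2 := by
          apply mul_le_mul_of_nonneg_left _ hη
          rw [geom_sum_eq (by norm_num)]
          have : (0 : ℝ) < (1 / 2) ^ s := by positivity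
          rw [div_le_iff_of_neg (by norm_num)]
          linarith
      _ = 2 * η := by ring

end Pool.Agent.Helper8
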