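import Mathlib

set_option autoImplicit false

namespace Pool.Agent.Helper8

open Finset Polynomial

/-- sum of truncated indices -/
lemma sum_min_ge (a : ℕ) : ∀ m : ℕ, a ≤ m →
    2 * (∑ j ∈ range m, min j a) + a * (a + 1) = 2 * m * a := by
  intro m hm
  induction m, hm using Nat.le_induction with
  | base =>
    have h1 : ∑ j ∈ range a, min j a = ∑ j ∈ range a, j := by
      apply Finset.sum_congr rfl
      intro j hj
      exact min_eq_left (Finset.mem_range.mp hj).le
    rw [h1]
    have h2 := Finset.sum_range_id_mul_two a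
    rcases a with _ | a
    · simp
    · simp only [Nat.add_sub_cancel] at h2
      nlinarith
  | succ m hm ih =>
    rw [Finset.sum_range_succ, min_eq_right hm]
    nlinarith

lemma sum_identity (o o' m n : ℕ) (ho : o ≤ m) (ho' : o' ≤ n) :
    (∑ j ∈ range m, min (o' + j) (o + o')) + (∑ j ∈ range n, min (o + j) (o + o')) =
      (∑ i ∈ range (m + n), min i (o + o')) + o * o' := by
  have h1 : ∑ j ∈ range m, min (o' + j) (o + o') = m * o' + ∑ j ∈ range m, min j o := by
    rw [← smul_eq_mul, ← Finset.card_range m, ← Finset.sum_const, Finset.card_range,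
      ← Finset.sum_add_distrib]
    apply Finset.sum_congr rfl
    intro j _
    omega
  have h2 : ∑ j ∈ range n, min (o + j) (o + o') = n * o + ∑ j ∈ range n, min j o' := by
    rw [← smul_eq_mul, ← Finset.card_range n, ← Finset.sum_const, Finset.card_range,
      ← Finset.sum_add_distrib]
    apply Finset.sum_congr rfl
    intro j _
    omega
  have h3 := sum_min_ge o m ho
  have h4 := sum_min_ge o' n ho'
  have h5 := sum_min_ge (o + o') (m + n) (by omega)
  rw [h1, h2]
  nlinarith

/-- Multiplicity of resultants. -/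
theorem X_pow_dvd_resultant {K : Type*} [Field K] (f g : K[X][X]) (m n o o' : ℕ)
    (ho : o ≤ m) (ho' : o' ≤ n)
    (hf : ∀ k, (X : K[X]) ^ (o - k) ∣ f.coeff k) (hg : ∀ k, (X : K[X]) ^ (o' - k) ∣ g.coeff k) :
    (X : K[X]) ^ (o * o') ∣ resultant f g m n := by
  set t := o + o' with ht
  let c : Fin (m + n) → ℕ := fun j => j.addCases (fun j₁ => o' + j₁) (fun j₁ => o + j₁)
  have hdiv : ∀ i j : Fin (m + n), (X : K[X]) ^ (min (c j) t) ∣
      (X : K[X]) ^ (min (i : ℕ) t) * sylvester f g m n i j := by
    intro i j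
    have key : ∀ (F : K[X][X]) (q s : ℕ), (∀ k, (X : K[X]) ^ (q - k) ∣ F.coeff k) → s ≤ i →
        (X : K[X]) ^ (min (q + s) t) ∣ (X : K[X]) ^ (min (i : ℕ) t) * F.coeff (i - s) := by
      intro F q s hF hs
      have h1 := hF (i - s)
      have h2 : (X : K[X]) ^ (min (i : ℕ) t) * X ^ (q - (i - s)) ∣
          (X : K[X]) ^ (min (i : ℕ) t) * F.coeff (i - s) := mul_dvd_mul_left _ h1
      rw [← pow_add] at h2
      refine (pow_dvd_pow _ ?_).trans h2
      omega
    induction j using Fin.addCases with
    | left j₁ =>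
      simp only [sylvester, Matrix.of_apply, Fin.addCases_left, c]
      split_ifs with h
      · exact key g o' j₁ hg h.1
      · simp
    | right j₁ =>
      simp only [sylvester, Matrix.of_apply, Fin.addCases_right, c]
      split_ifs with h
      · exact key f o j₁ hf h.1
      · simp
  choose M' hM' using hdiv
  have h1 : (∏ i : Fin (m + n), (X : K[X]) ^ (min (i : ℕ) t)) * resultant f g m n =
      (∏ j : Fin (m + n), (X : K[X]) ^ (min (c j) t)) * (Matrix.of fun i j => M' i j).det := by
    rw [resultant, ← Matrix.det_mul_column, ← Matrix.det_mul_row]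
    congr 1
    apply Matrix.ext
    intro i j
    simp only [Matrix.of_apply]
    exact hM' i j
  rw [Finset.prod_pow_eq_pow_sum, Finset.prod_pow_eq_pow_sum] at h1
  have h2 : ∑ i : Fin (m + n), min (i : ℕ) t = ∑ i ∈ range (m + n), min i t := by
    rw [Finset.sum_range]
  have h3 : ∑ j : Fin (m + n), min (c j) t =
      (∑ j ∈ range m, min (o' + j) t) + (∑ j ∈ range n, min (o + j) t) := by
    rw [Fin.sum_univ_add]
    simp only [c, Fin.addCases_left, Fin.addCases_right]
    rw [Finset.sum_range, Finset.sum_range]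
  rw [h2, h3, sum_identity o o' m n ho ho', pow_add, mul_assoc] at h1
  have h4 : (X : K[X]) ^ (∑ i ∈ range (m + n), min i t) ≠ 0 := pow_ne_zero _ X_ne_zero
  exact ⟨_, mul_left_cancel₀ h4 h1⟩

end Pool.Agent.Helper8
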