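import Mathlib
import Pool.Agent.Helper8.ResMult
import Pool.Agent.Helper8.ExpSum

set_option autoImplicit false

namespace Pool.Agent.Helper8

open Finset Polynomial

/-- substitution inner X to `s τ` -/
noncomputable def psiIn : ℝ[X] →+* ℝ[X][X] := eval₂RingHom (C.comp C) (C X * X)

/-- substitution (inner X, outer X) to `(s τ, τ)` -/
noncomputable def psi : ℝ[X][X] →+* ℝ[X][X] := eval₂RingHom psiIn X

lemma psi_monomial (k i : ℕ) (r : ℝ) :
    psi (monomial k (monomial i r)) = monomial (i + k) (monomial i r) := by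
  simp only [psi, coe_eval₂RingHom, eval₂_monomial, psiIn, RingHom.coe_comp, Function.comp]
  rw [mul_pow, ← C_mul_X_pow_eq_monomial (a := (monomial i) r), ← C_mul_X_pow_eq_monomial (a := r),
    C_mul, C_pow, pow_add]
  ring

lemma coeff_psi (W : ℝ[X][X]) (n i : ℕ) :
    ((psi W).coeff n).coeff i = if i ≤ n then (W.coeff (n - i)).coeff i else 0 := by
  induction W using Polynomial.induction_on' with
  | add p q hp hq =>
    rw [map_add, coeff_add, coeff_add, hp, hq, coeff_add, coeff_add]
    split_ifs <;> simp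
  | monomial k p =>
    induction p using Polynomial.induction_on' with
    | add p q hp hq =>
      rw [map_add, map_add, coeff_add, coeff_add, hp, hq, coeff_add, coeff_add]
      split_ifs <;> simp
    | monomial j r =>
      rw [psi_monomial, coeff_monomial, coeff_monomial]
      by_cases h1 : j + k = n
      · subst h1
        simp only [if_true]
        rw [coeff_monomial]
        by_cases h2 : j = i
        · subst h2
          simp
        · simp only [h2, if_false]
          split_ifs with h3 h4
          · rw [coeff_monomial]; simp [h2]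
          · simp
          · rfl
      · simp only [h1, if_false, coeff_zero]
        split_ifs with h3 h4
        · rw [coeff_monomial]
          have : j ≠ i := by omega
          simp [this]
        · simp
        · rfl

/-- translation -/
noncomputable def tr (a : ℝ) : ℝ[X] →+* ℝ[X] := (taylorAlgHom a : ℝ[X] →ₐ[ℝ] ℝ[X])

lemma tr_apply (a : ℝ) (p : ℝ[X]) : tr a p = taylor a p := rfl

lemma tr_injective (a : ℝ) : Function.Injective (tr a) := taylor_injective a

noncomputable def shiftH (a b : ℝ) : ℝ[X][X] →+* ℝ[X][X] :=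
  ((taylorAlgHom (C b : ℝ[X]) : ℝ[X][X] →ₐ[ℝ[X]] ℝ[X][X]) : ℝ[X][X] →+* ℝ[X][X]).comp
    (mapRingHom (tr a))

lemma shiftH_apply (a b : ℝ) (V : ℝ[X][X]) :
    shiftH a b V = taylor (C b) (V.map (tr a)) := rfl

lemma shiftH_injective (a b : ℝ) : Function.Injective (shiftH a b) := by
  intro V W h
  rw [shiftH_apply, shiftH_apply] at h
  exact Polynomial.map_injective _ (tr_injective a) (taylor_injective _ h)

/-- order of vanishing at `(a,b)` -/
noncomputable def ordAt (a b : ℝ) (V : ℝ[X][X]) : ℕ := (psi (shiftH a b V)).natTrailingDegree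

lemma psi_injective : Function.Injective psi := by
  intro V W h
  ext k i
  have := congrArg (fun F => (F.coeff (k + i)).coeff i) h
  simpa [coeff_psi] using this

lemma psi_shift_ne_zero (a b : ℝ) {V : ℝ[X][X]} (hV : V ≠ 0) : psi (shiftH a b V) ≠ 0 := by
  intro h
  rw [← map_zero psi] at h
  have := psi_injective h
  rw [← map_zero (shiftH a b)] at this
  exact hV (shiftH_injective a b this)

lemma ordAt_mul (a b : ℝ) {V W : ℝ[X][X]} (hV : V ≠ 0) (hW : W ≠ 0) :
    ordAt a b (V * W) = ordAt a b V + ordAt a b W := by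
  unfold ordAt
  rw [map_mul, map_mul, natTrailingDegree_mul (psi_shift_ne_zero a b hV) (psi_shift_ne_zero a b hW)]

lemma le_ordAt (a b : ℝ) {V : ℝ[X][X]} (hV : V ≠ 0) (n : ℕ)
    (h : ∀ i k, i + k < n → ((shiftH a b V).coeff k).coeff i = 0) : n ≤ ordAt a b V := by
  apply le_natTrailingDegree (psi_shift_ne_zero a b hV)
  intro m hm
  ext i
  rw [coeff_psi, coeff_zero]
  split_ifs with h1
  · exact h i (m - i) (by omega)
  · rfl

lemma coeff_of_lt_ordAt (a b : ℝ) {V : ℝ[X][X]} (i k : ℕ) (h : i + k < ordAt a b V) :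
    ((shiftH a b V).coeff k).coeff i = 0 := by
  have h1 := coeff_eq_zero_of_lt_natTrailingDegree h
  have h2 := coeff_psi (shiftH a b V) (i + k) i
  rw [h1, coeff_zero] at h2
  simpa using h2.symm

lemma X_pow_dvd_of_ordAt (a b : ℝ) (V : ℝ[X][X]) (k : ℕ) :
    (X : ℝ[X]) ^ (ordAt a b V - k) ∣ (shiftH a b V).coeff k := by
  rw [X_pow_dvd_iff]
  intro d hd
  exact coeff_of_lt_ordAt a b d k (by omega)

lemma shiftH_derivative (a b : ℝ) (V : ℝ[X][X]) :
    shiftH a b (derivative V) = derivative (shiftH a b V) := by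
  rw [shiftH_apply, shiftH_apply, ← derivative_map, taylor_apply, taylor_apply, derivative_comp]
  simp

lemma X_pow_dvd_of_ordAt_derivative (a b : ℝ) (V : ℝ[X][X]) (k : ℕ) :
    (X : ℝ[X]) ^ (ordAt a b V - 1 - k) ∣ (shiftH a b (derivative V)).coeff k := by
  rw [shiftH_derivative, coeff_derivative]
  have h := X_pow_dvd_of_ordAt a b V (k + 1)
  have h2 : ordAt a b V - 1 - k = ordAt a b V - (k + 1) := by omega
  rw [h2]
  exact h.mul_right _

/-- degree in the inner variable -/
noncomputable def dx (V : ℝ[X][X]) : ℕ := (Bivariate.swap V).natDegree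

/-- degree in the outer variable -/
noncomputable def dy (V : ℝ[X][X]) : ℕ := V.natDegree

lemma swap_coeff (V : ℝ[X][X]) (i k : ℕ) :
    ((Bivariate.swap V).coeff i).coeff k = (V.coeff k).coeff i := by
  induction V using Polynomial.induction_on' with
  | add p q hp hq =>
    rw [map_add, coeff_add, coeff_add, hp, hq, coeff_add, coeff_add]
  | monomial n p =>
    induction p using Polynomial.induction_on' with
    | add p q hp hq =>
      rw [map_add, map_add, coeff_add, coeff_add, hp, hq, coeff_add, coeff_add]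
    | monomial j r =>
      rw [Bivariate.swap_monomial_monomial, coeff_monomial, coeff_monomial]
      by_cases h1 : j = i <;> by_cases h2 : n = k <;> simp [h1, h2, coeff_monomial]

lemma swap_ne_zero {V : ℝ[X][X]} (hV : V ≠ 0) : Bivariate.swap V ≠ 0 := by
  intro h
  exact hV (by simpa using h)

lemma dx_mul {V W : ℝ[X][X]} (hV : V ≠ 0) (hW : W ≠ 0) : dx (V * W) = dx V + dx W := by
  unfold dx
  rw [map_mul, natDegree_mul (swap_ne_zero hV) (swap_ne_zero hW)]

lemma dy_mul {V W : ℝ[X][X]} (hV : V ≠ 0) (hW : W ≠ 0) : dy (V * W) = dy V + dy W :=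
  natDegree_mul hV hW

lemma coeff_natDegree_le_dx (V : ℝ[X][X]) (k : ℕ) : (V.coeff k).natDegree ≤ dx V := by
  by_cases h : V.coeff k = 0
  · simp [h]
  · apply le_natDegree_of_ne_zero
    intro h1
    have h2 := swap_coeff V (V.coeff k).natDegree k
    rw [h1, coeff_zero] at h2
    exact h (leadingCoeff_eq_zero.mp h2.symm)

lemma natDegree_det_le {N d : ℕ} (M : Matrix (Fin N) (Fin N) ℝ[X])
    (h : ∀ i j, (M i j).natDegree ≤ d) : M.det.natDegree ≤ N * d := by
  rw [Matrix.det_apply]
  apply natDegree_sum_le_of_forall_le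
  intro σ _
  have h1 : (∏ i, M (σ i) i).natDegree ≤ N * d := by
    refine (natDegree_prod_le _ _).trans ?_
    calc ∑ i, (M (σ i) i).natDegree ≤ ∑ _i : Fin N, d := Finset.sum_le_sum (fun i _ => h _ _)
      _ = N * d := by simp
  rcases Int.units_eq_one_or (Equiv.Perm.sign σ) with h2 | h2
  · rw [h2]; simpa using h1
  · rw [h2]; simpa using h1

lemma evalEval_shift (a b : ℝ) (V : ℝ[X][X]) :
    (shiftH a b V).evalEval 0 0 = V.evalEval a b := by
  have h : (evalEvalRingHom (0 : ℝ) 0).comp (shiftH a b) = evalEvalRingHom a b := by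
    apply Polynomial.ringHom_ext'
    · apply Polynomial.ringHom_ext'
      · ext; simp [shiftH_apply, tr_apply]
      · simp [shiftH_apply, tr_apply]
    · simp [shiftH_apply]
  exact congrArg (fun F => F V) h

lemma evalEval_eq_sum (a b : ℝ) (V : ℝ[X][X]) :
    V.evalEval a b = ∑ k ∈ range (dy V + 1), ∑ i ∈ range (dx V + 1),
      (V.coeff k).coeff i * a ^ i * b ^ k := by
  unfold evalEval
  rw [eval_eq_sum_range (C b), eval_finset_sum]
  apply Finset.sum_congr rfl
  intro k _
  rw [eval_mul, eval_pow, eval_C, eval_eq_sum_range' (n := dx V + 1)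
    (Nat.lt_succ_of_le (coeff_natDegree_le_dx V k)), Finset.sum_mul]

lemma evalEval_zero_of_ordAt (a b : ℝ) (V : ℝ[X][X]) (h : 1 ≤ ordAt a b V) :
    V.evalEval a b = 0 := by
  rw [← evalEval_shift]
  have h1 := coeff_of_lt_ordAt a b (V := V) 0 0 (by omega)
  unfold evalEval
  rw [map_zero, ← coeff_zero_eq_eval_zero, ← coeff_zero_eq_eval_zero]
  exact h1

end Pool.Agent.Helper8
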