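import Mathlib
import Pool.Agent.Helper8.Zero2a

set_option autoImplicit false

namespace Pool.Agent.Helper8

open Finset Polynomial

lemma ordAt_le_dy (a b : ℝ) {V : ℝ[X][X]} (hV : Irreducible V) (hdy : dy V ≠ 0) :
    ordAt a b V ≤ dy V := by
  by_contra hcon
  have hcon : dy V < ordAt a b V := not_le.mp hcon
  have hprim := hV.isPrimitive hdy
  have hdvd : ∀ k, (X - C a) ∣ V.coeff k := by
    have h1 : (C X : ℝ[X][X]) ∣ shiftH a b V := by
      rw [C_dvd_iff_dvd_coeff]
      intro k
      by_cases hk : k ≤ dy V
      · have h2 := X_pow_dvd_of_ordAt a b V k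
        refine (dvd_pow_self X ?_).trans h2
        omega
      · have : (shiftH a b V).coeff k = 0 := by
          apply coeff_eq_zero_of_natDegree_lt
          rw [shiftH_apply, natDegree_taylor]
          exact (natDegree_map_le).trans_lt (not_le.mp hk)
        rw [this]; exact dvd_zero _
    have h3 : (C X : ℝ[X][X]) ∣ V.map (tr a) := by
      have h4 : V.map (tr a) = taylor (-(C b : ℝ[X])) (shiftH a b V) := by
        rw [shiftH_apply, taylor_taylor]; simp
      rw [h4]
      obtain ⟨U, hU⟩ := h1
      rw [hU, taylor_mul, taylor_C]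
      exact dvd_mul_right _ _
    intro k
    rw [C_dvd_iff_dvd_coeff] at h3
    have h5 := h3 k
    rw [coeff_map, X_dvd_iff, tr_apply, taylor_coeff_zero] at h5
    rw [dvd_iff_isRoot]
    exact h5
  have h1 : (C (X - C a) : ℝ[X][X]) ∣ V := by
    rw [C_dvd_iff_dvd_coeff]; exact hdvd
  have h2 := hprim (X - C a) h1
  exact not_isUnit_X_sub_C a h2

/-- multiplicities of the discriminant-like resultant -/
lemma rootMult_resultant (a b : ℝ) {V : ℝ[X][X]} (hV : Irreducible V) (hdy : dy V ≠ 0)
    (hR : resultant V (derivative V) ≠ 0) :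
    ordAt a b V * (ordAt a b V - 1) ≤ rootMultiplicity a (resultant V (derivative V)) := by
  rw [le_rootMultiplicity_iff hR]
  have h1 : tr a (resultant V (derivative V)) =
      resultant (shiftH a b V) (shiftH a b (derivative V)) V.natDegree
        (derivative V).natDegree := by
    have h2 : (shiftH a b V).natDegree = V.natDegree := by
      rw [shiftH_apply, natDegree_taylor, natDegree_map_eq_of_injective (tr_injective a)]
    have h3 : (shiftH a b (derivative V)).natDegree = (derivative V).natDegree := by
      rw [shiftH_apply, natDegree_taylor, natDegree_map_eq_of_injective (tr_injective a)]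
    rw [← resultant_map_map]
    have h4 := resultant_taylor (V.map (tr a)) ((derivative V).map (tr a)) (C b)
    rw [natDegree_taylor, natDegree_taylor,
      natDegree_map_eq_of_injective (tr_injective a), natDegree_map_eq_of_injective (tr_injective a)]
      at h4
    rw [← h4]
    rfl
  have ho := ordAt_le_dy a b hV hdy
  have h2 : (X : ℝ[X]) ^ (ordAt a b V * (ordAt a b V - 1)) ∣ tr a (resultant V (derivative V)) := by
    rw [h1]
    apply X_pow_dvd_resultant _ _ _ _ _ _ ho
    · rw [natDegree_derivative]
      have : dy V = V.natDegree := rfl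
      omega
    · exact X_pow_dvd_of_ordAt a b V
    · exact X_pow_dvd_of_ordAt_derivative a b V
  obtain ⟨U, hU⟩ := h2
  have h3 : resultant V (derivative V) = taylor (-a) (tr a (resultant V (derivative V))) := by
    rw [tr_apply, taylor_taylor]; simp
  rw [h3, hU, taylor_mul, taylor_X_pow]
  have : (X + C (-a) : ℝ[X]) = X - C a := by rw [map_neg, sub_eq_add_neg]
  rw [this]
  exact dvd_mul_right _ _

lemma resultant_derivative_ne_zero {V : ℝ[X][X]} (hV : Irreducible V) (hdy : dy V ≠ 0) :
    resultant V (derivative V) ≠ 0 := by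
  let K := FractionRing ℝ[X]
  let φ : ℝ[X] →+* K := algebraMap ℝ[X] K
  have hφ : Function.Injective φ := IsFractionRing.injective ℝ[X] K
  have hprim := hV.isPrimitive hdy
  have h1 : Irreducible (V.map φ) := by
    exact (hprim.irreducible_iff_irreducible_map_fraction_map (K := K)).mp hV
  have : CharZero K := charZero_of_injective_algebraMap (R := ℝ[X]) hφ
  have h2 : (V.map φ).Separable := h1.separable
  have h3 : IsCoprime (V.map φ) (derivative (V.map φ)) := h2
  have h4 := resultant_ne_zero _ _ h3
  rw [derivative_map, natDegree_map_eq_of_injective hφ, natDegree_map_eq_of_injective hφ,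
    resultant_map_map] at h4
  intro h
  rw [h, map_zero] at h4
  exact h4 rfl

lemma natDegree_resultant_le (V : ℝ[X][X]) :
    (resultant V (derivative V)).natDegree ≤ 2 * (dx V * dy V) := by
  have h1 : (resultant V (derivative V)).natDegree ≤
      (V.natDegree + (derivative V).natDegree) * dx V := by
    unfold resultant
    apply natDegree_det_le
    intro i j
    induction j using Fin.addCases with
    | left j₁ =>
      simp only [sylvester, Matrix.of_apply, Fin.addCases_left]
      split_ifs
      · rw [coeff_derivative]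
        refine natDegree_mul_le.trans ?_
        have h2 := coeff_natDegree_le_dx V ((i : ℕ) - j₁ + 1)
        have h3 : (((((i : ℕ) - j₁ : ℕ)) : ℝ[X]) + 1).natDegree = 0 := by
          have : (((((i : ℕ) - j₁ : ℕ)) : ℝ[X]) + 1) = (((i : ℕ) - j₁ + 1 : ℕ) : ℝ[X]) := by
            push_cast; ring
          rw [this, natDegree_natCast]
        rw [h3]
        simpa using h2
      · simp
    | right j₁ =>
      simp only [sylvester, Matrix.of_apply, Fin.addCases_right]
      split_ifs
      · exact coeff_natDegree_le_dx V _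
      · simp
  refine h1.trans ?_
  have h2 : V.natDegree = dy V := rfl
  have h3 : (derivative V).natDegree = dy V - 1 := natDegree_derivative V
  rw [h2, h3]
  have : dy V + (dy V - 1) ≤ 2 * dy V := by omega
  calc (dy V + (dy V - 1)) * dx V ≤ 2 * dy V * dx V := Nat.mul_le_mul_right _ this
    _ = 2 * (dx V * dy V) := by ring

lemma sum_rootMultiplicity_le (X₁ : ℕ) (a : ℕ → ℝ) (ha : Function.Injective a) (R : ℝ[X]) :
    ∑ x ∈ range X₁, rootMultiplicity (a x) R ≤ R.natDegree := by
  classical
  have h1 : ∑ x ∈ range X₁, rootMultiplicity (a x) R = ∑ x ∈ range X₁, R.roots.count (a x) := by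
    apply Finset.sum_congr rfl
    intro x _
    rw [count_roots]
  rw [h1]
  have h2 : ∑ x ∈ range X₁, R.roots.count (a x) = ∑ y ∈ (range X₁).image a, R.roots.count y := by
    rw [Finset.sum_image (fun x _ y _ h => ha h)]
  rw [h2]
  refine le_trans ?_ (card_roots' R)
  rw [← Multiset.toFinset_sum_count_eq R.roots]
  calc ∑ y ∈ (range X₁).image a, R.roots.count y
      = ∑ y ∈ ((range X₁).image a).filter (fun y => y ∈ R.roots.toFinset), R.roots.count y := by
        rw [Finset.sum_filter]
        apply Finset.sum_congr rfl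
        intro y _
        split_ifs with h
        · rfl
        · rw [Multiset.mem_toFinset] at h
          exact Multiset.count_eq_zero_of_notMem h
    _ ≤ ∑ y ∈ R.roots.toFinset, R.roots.count y := by
        apply Finset.sum_le_sum_of_subset
        intro y hy
        exact (Finset.mem_filter.mp hy).2

lemma dx_unit {V : ℝ[X][X]} (hV : IsUnit V) : dx V = 0 ∧ dy V = 0 := by
  constructor
  · have : IsUnit (Bivariate.swap V) := hV.map _
    exact natDegree_eq_zero_of_isUnit this
  · exact natDegree_eq_zero_of_isUnit hV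

lemma ordAt_unit (a b : ℝ) {V : ℝ[X][X]} (hV : IsUnit V) : ordAt a b V = 0 := by
  have h1 : IsUnit (psi (shiftH a b V)) := (hV.map _).map _
  have h2 := natDegree_eq_zero_of_isUnit h1
  unfold ordAt
  have := natTrailingDegree_le_natDegree (psi (shiftH a b V))
  omega

/-- total order along the points -/
noncomputable def sord (X₁ : ℕ) (a b : ℕ → ℝ) (V : ℝ[X][X]) : ℕ :=
  ∑ x ∈ range X₁, ordAt (a x) (b x) V

lemma sord_mul (X₁ : ℕ) (a b : ℕ → ℝ) {V W : ℝ[X][X]} (hV : V ≠ 0) (hW : W ≠ 0) :
    sord X₁ a b (V * W) = sord X₁ a b V + sord X₁ a b W := by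
  unfold sord
  rw [← Finset.sum_add_distrib]
  apply Finset.sum_congr rfl
  intro x _
  exact ordAt_mul _ _ hV hW

/-- there is an irreducible factor with large order ratio -/
lemma exists_irreducible_large (X₁ : ℕ) (a b : ℕ → ℝ) (ρ : ℝ) (Q : ℝ[X][X]) :
    Q ≠ 0 → (∀ V, Irreducible V → V ∣ Q → (sord X₁ a b V : ℝ) < ρ * (dx V + dy V)) →
    (sord X₁ a b Q : ℝ) ≤ ρ * (dx Q + dy Q) ∧
      (¬ IsUnit Q → (sord X₁ a b Q : ℝ) < ρ * (dx Q + dy Q)) := by
  induction Q using WfDvdMonoid.induction_on_irreducible with
  | zero => intro h; exact absurd rfl h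
  | unit u hu =>
    intro _ _
    have h1 := dx_unit hu
    have h2 : sord X₁ a b u = 0 := by
      unfold sord
      apply Finset.sum_eq_zero
      intro x _
      exact ordAt_unit _ _ hu
    rw [h1.1, h1.2, h2]
    simp [hu]
  | mul Q V hQ hV ih =>
    intro _ h
    have ih' := (ih hQ (fun W hW hWQ => h W hW (hWQ.mul_left _))).1
    have h1 := h V hV (dvd_mul_right _ _)
    have hV0 : V ≠ 0 := hV.ne_zero
    have h3 : (sord X₁ a b (V * Q) : ℝ) < ρ * (dx (V * Q) + dy (V * Q)) := by
      rw [sord_mul _ _ _ hV0 hQ, dx_mul hV0 hQ, dy_mul hV0 hQ]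
      push_cast
      linarith
    exact ⟨h3.le, fun _ => h3⟩

end Pool.Agent.Helper8
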