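import Mathlib
import Pool.Agent.Helper8.Zero2b

set_option autoImplicit false

namespace Pool.Agent.Helper8

open Finset Polynomial

lemma count_zeros (α β : ℝ) (hα : 1 < α) (hβ : 1 < β)
    (hind : ∀ i j i' j' : ℕ, α ^ i * β ^ j = α ^ i' * β ^ j' → i = i' ∧ j = j')
    (X₁ : ℕ) {V : ℝ[X][X]} (hV : V ≠ 0) :
    ((range X₁).filter (fun x => V.evalEval (α ^ x) (β ^ x) = 0)).card + 1 ≤
      (dx V + 1) * (dy V + 1) := by
  classical
  have hα0 : 0 < α := by linarith
  have hβ0 : 0 < β := by linarith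
  set S := ((range (dy V + 1)) ×ˢ (range (dx V + 1))).filter
    (fun p => (V.coeff p.1).coeff p.2 ≠ 0) with hS
  have hSne : S.Nonempty := by
    by_contra h
    rw [Finset.not_nonempty_iff_eq_empty] at h
    apply hV
    ext k i
    rw [coeff_zero, coeff_zero]
    by_cases hk : k ≤ dy V
    · by_cases hi : i ≤ dx V
      · by_contra h1
        have : (k, i) ∈ S := by
          rw [hS, Finset.mem_filter, Finset.mem_product]
          simp only [Finset.mem_range]
          exact ⟨⟨by omega, by omega⟩, h1⟩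
        rw [h] at this
        simp at this
      · apply coeff_eq_zero_of_natDegree_lt
        exact (coeff_natDegree_le_dx V k).trans_lt (not_le.mp hi)
    · have : V.coeff k = 0 := coeff_eq_zero_of_natDegree_lt (not_le.mp hk)
      rw [this, coeff_zero]
  have hScard : S.card ≤ (dx V + 1) * (dy V + 1) := by
    refine (Finset.card_filter_le _ _).trans ?_
    rw [Finset.card_product, Finset.card_range, Finset.card_range, mul_comm]
  have hpos := Finset.card_pos.mpr hSne
  have key := exp_sum_zeros (S.card - 1) S (fun p => (V.coeff p.1).coeff p.2)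
    (fun p => (p.2 : ℝ) * Real.log α + (p.1 : ℝ) * Real.log β) (by omega) ?_ ?_
    (((range X₁).filter (fun x => V.evalEval (α ^ x) (β ^ x) = 0)).image (fun x : ℕ => (x : ℝ))) ?_
  · rw [Finset.card_image_of_injective _ Nat.cast_injective] at key
    omega
  · intro p hp
    exact (Finset.mem_filter.mp hp).2
  · intro p _ p' _ h
    simp only at h
    have h1 : ∀ p : ℕ × ℕ, Real.exp ((p.2 : ℝ) * Real.log α + (p.1 : ℝ) * Real.log β) =
        α ^ p.2 * β ^ p.1 := by
      intro p
      rw [Real.exp_add, mul_comm ((p.2 : ℝ)), mul_comm ((p.1 : ℝ)), Real.exp_mul, Real.exp_mul,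
        Real.exp_log hα0, Real.exp_log hβ0, Real.rpow_natCast, Real.rpow_natCast]
    have h2 := h1 p
    rw [h, h1 p'] at h2
    have h3 := hind _ _ _ _ h2
    exact Prod.ext h3.2.symm h3.1.symm
  · intro z hz
    obtain ⟨x, hx, rfl⟩ := Finset.mem_image.mp hz
    have hx2 := (Finset.mem_filter.mp hx).2
    rw [evalEval_eq_sum] at hx2
    rw [← hx2, hS, Finset.sum_filter, Finset.sum_product]
    apply Finset.sum_congr rfl
    intro k _
    apply Finset.sum_congr rfl
    intro i _
    simp only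
    have h1 : Real.exp (((i : ℝ) * Real.log α + (k : ℝ) * Real.log β) * (x : ℝ)) =
        (α ^ x) ^ i * (β ^ x) ^ k := by
      rw [add_mul, Real.exp_add, ← pow_mul, ← pow_mul]
      congr 1
      · rw [show (i : ℝ) * Real.log α * (x : ℝ) = Real.log α * ((x * i : ℕ) : ℝ) by push_cast; ring,
          Real.exp_mul, Real.exp_log hα0, Real.rpow_natCast]
      · rw [show (k : ℝ) * Real.log β * (x : ℝ) = Real.log β * ((x * k : ℕ) : ℝ) by push_cast; ring,
          Real.exp_mul, Real.exp_log hβ0, Real.rpow_natCast]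
    rw [h1]
    split_ifs with h2
    · ring
    · have : (V.coeff k).coeff i = 0 := by simpa using h2
      rw [this]; ring

lemma shift_monomial_coeff (a b r : ℝ) (k' i' k i : ℕ) :
    ((shiftH a b (monomial k' (monomial i' r))).coeff k).coeff i =
      r * (i'.choose i) * (k'.choose k) * a ^ (i' - i) * b ^ (k' - k) := by
  rw [shiftH_apply, map_monomial, taylor_monomial, coeff_C_mul, coeff_X_add_C_pow, tr_apply,
    taylor_monomial]
  have h1 : (C b : ℝ[X]) ^ (k' - k) * ((k'.choose k : ℕ) : ℝ[X]) =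
      C (b ^ (k' - k) * (k'.choose k : ℕ)) := by
    rw [C_mul, C_pow]; simp
  rw [h1, coeff_mul_C, coeff_C_mul, coeff_X_add_C_pow]
  ring

set_option maxHeartbeats 4000000 in
theorem zero2 (α β : ℝ) (hα : 1 < α) (hβ : 1 < β)
    (hind : ∀ i j i' j' : ℕ, α ^ i * β ^ j = α ^ i' * β ^ j' → i = i' ∧ j = j')
    (L T X₁ : ℕ) (hT : 1 ≤ T) (hL : 1 ≤ L) (q : ℕ → ℕ → ℝ)
    (hv : ∀ x < X₁, ∀ i k, i + k < T → ∑ i' ∈ range L, ∑ k' ∈ range L,
      q i' k' * (i'.choose i) * (k'.choose k) * (α ^ i' * β ^ k') ^ x = 0)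
    (hX : 4 * (L : ℝ) ^ 2 < X₁ * (T : ℝ) ^ 2)
    (hX2 : (4 * (L : ℝ) / T + 1) ^ 2 ≤ (T : ℝ) * X₁ / (2 * L)) :
    ∀ i < L, ∀ k < L, q i k = 0 := by
  classical
  by_contra hcon
  push Not at hcon
  obtain ⟨i0, hi0, k0, hk0, hq⟩ := hcon
  have hα0 : 0 < α := by linarith
  have hβ0 : 0 < β := by linarith
  set Q : ℝ[X][X] := ∑ i' ∈ range L, ∑ k' ∈ range L, monomial k' (monomial i' (q i' k')) with hQdef
  have hQcoeff : ∀ k i, (Q.coeff k).coeff i = if i < L ∧ k < L then q i k else 0 := by
    intro k i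
    rw [hQdef, finsetSum_coeff, finsetSum_coeff]
    have h1 : ∀ i' ∈ range L, ((∑ k' ∈ range L, monomial k' (monomial i' (q i' k'))).coeff k :
        ℝ[X]).coeff i = if i' = i then (if k < L then q i' k else 0) else 0 := by
      intro i' _
      rw [finsetSum_coeff, finsetSum_coeff]
      have h2 : ∀ k' ∈ range L, ((monomial k' (monomial i' (q i' k') : ℝ[X])).coeff k).coeff i =
          if k' = k then (if i' = i then q i' k else 0) else 0 := by
        intro k' _
        rw [coeff_monomial]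
        by_cases h : k' = k
        · subst h; simp [coeff_monomial]
        · simp [h]
      rw [Finset.sum_congr rfl h2, Finset.sum_ite_eq']
      by_cases h3 : i' = i <;> by_cases h4 : k < L <;> simp [h3, h4]
    rw [Finset.sum_congr rfl h1, Finset.sum_ite_eq']
    by_cases h3 : i < L <;> by_cases h4 : k < L <;> simp [h3, h4]
  have hQ0 : Q ≠ 0 := by
    intro h
    have := hQcoeff k0 i0
    rw [h] at this
    simp [hi0, hk0] at this
    exact hq this.symm
  have hdyQ : dy Q < L := by
    unfold dy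
    have : Q.natDegree ≤ L - 1 := by
      apply natDegree_le_iff_coeff_eq_zero.mpr
      intro k hk
      ext i
      rw [hQcoeff, coeff_zero, if_neg (by omega)]
    omega
  have hdxQ : dx Q < L := by
    unfold dx
    have : (Bivariate.swap Q).natDegree ≤ L - 1 := by
      apply natDegree_le_iff_coeff_eq_zero.mpr
      intro i hi
      ext k
      rw [swap_coeff, hQcoeff, coeff_zero, if_neg (by omega)]
    omega
  have hord : ∀ x < X₁, T ≤ ordAt (α ^ x) (β ^ x) Q := by
    intro x hx
    apply le_ordAt _ _ hQ0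
    intro i k hik
    rw [hQdef, map_sum, finsetSum_coeff, finsetSum_coeff]
    have h0 := hv x hx i k hik
    have h1 : ∀ i' ∈ range L, ((shiftH (α ^ x) (β ^ x) (∑ k' ∈ range L,
        monomial k' (monomial i' (q i' k')))).coeff k).coeff i =
        ∑ k' ∈ range L, (q i' k' * (i'.choose i) * (k'.choose k) * (α ^ i' * β ^ k') ^ x) *
          (((α ^ x) ^ i)⁻¹ * ((β ^ x) ^ k)⁻¹) := by
      intro i' _
      rw [map_sum, finsetSum_coeff, finsetSum_coeff]
      apply Finset.sum_congr rfl
      intro k' _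
      rw [shift_monomial_coeff]
      by_cases hi : i ≤ i'
      · by_cases hk : k ≤ k'
        · rw [pow_sub₀ _ (by positivity) hi, pow_sub₀ _ (by positivity) hk, mul_pow,
            ← pow_mul, ← pow_mul, ← pow_mul, ← pow_mul, ← pow_mul, ← pow_mul,
            mul_comm i' x, mul_comm k' x]
          ring
        · rw [Nat.choose_eq_zero_of_lt (not_le.mp hk)]; simp
      · rw [Nat.choose_eq_zero_of_lt (not_le.mp hi)]; simp
    rw [Finset.sum_congr rfl h1]
    simp_rw [← Finset.sum_mul]
    rw [h0, zero_mul]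
  -- the ratio
  set ρ : ℝ := (T : ℝ) * X₁ / (2 * L) with hρ
  have hLpos : (0 : ℝ) < L := by exact_mod_cast hL
  have hTpos : (0 : ℝ) < T := by exact_mod_cast hT
  have hρ1 : 1 < ρ := by
    have h1 : (1 : ℝ) < (4 * (L : ℝ) / T + 1) ^ 2 := by
      have : 0 < 4 * (L : ℝ) / T := by positivity
      nlinarith
    linarith
  have hsQ : (T : ℝ) * X₁ ≤ sord X₁ (fun x => α ^ x) (fun x => β ^ x) Q := by
    have : T * X₁ ≤ sord X₁ (fun x => α ^ x) (fun x => β ^ x) Q := by
      unfold sord
      calc T * X₁ = ∑ _x ∈ range X₁, T := by simp [mul_comm]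
        _ ≤ _ := Finset.sum_le_sum (fun x hx => hord x (Finset.mem_range.mp hx))
    exact_mod_cast this
  have hex : ∃ V, Irreducible V ∧ ρ * (dx V + dy V) ≤
      (sord X₁ (fun x => α ^ x) (fun x => β ^ x) V : ℝ) := by
    by_contra h
    push Not at h
    have h1 := (exists_irreducible_large X₁ (fun x => α ^ x) (fun x => β ^ x) ρ Q hQ0
      (fun V hV _ => h V hV)).1
    have h2 : (dx Q : ℝ) + dy Q < 2 * L := by
      have h3 : (dx Q : ℝ) < L := by exact_mod_cast hdxQ
      have h4 : (dy Q : ℝ) < L := by exact_mod_cast hdyQ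
      linarith
    have h3 : ρ * (dx Q + dy Q) < ρ * (2 * L) := mul_lt_mul_of_pos_left h2 (by linarith)
    have h4 : ρ * (2 * L) = (T : ℝ) * X₁ := by
      rw [hρ]; field_simp
    linarith
  obtain ⟨V, hV, hVs⟩ := hex
  have hV0 : V ≠ 0 := hV.ne_zero
  set σ : ℝ := (sord X₁ (fun x => α ^ x) (fun x => β ^ x) V : ℝ) with hσ
  have hd1 : (1 : ℝ) ≤ (dx V : ℝ) + dy V := by
    have : 1 ≤ dx V + dy V := by
      by_contra h
      have hx0 : dx V = 0 := by omega
      have hy0 : dy V = 0 := by omega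
      obtain ⟨p, hp⟩ := natDegree_eq_zero.mp hy0
      have hp0 : p.natDegree = 0 := by
        have := coeff_natDegree_le_dx V 0
        rw [← hp, coeff_C_zero, hp] at this
        omega
      obtain ⟨r, hr⟩ := natDegree_eq_zero.mp hp0
      apply hV.not_isUnit
      rw [← hp, ← hr]
      have hr0 : r ≠ 0 := by
        rintro rfl
        apply hV0
        rw [← hp, ← hr]; simp
      exact (isUnit_C.mpr (isUnit_C.mpr (isUnit_iff_ne_zero.mpr hr0)))
    exact_mod_cast this
  have hainj : Function.Injective (fun x : ℕ => α ^ x) := by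
    intro x y h
    exact pow_right_injective₀ hα0 hα.ne' h
  by_cases hdy : dy V = 0
  · -- V = C p
    obtain ⟨p, hp⟩ := natDegree_eq_zero.mp hdy
    have hp0 : p ≠ 0 := by
      rintro rfl
      exact hV0 (by rw [← hp]; simp)
    have h1 : sord X₁ (fun x => α ^ x) (fun x => β ^ x) V ≤ p.natDegree := by
      refine le_trans ?_ (sum_rootMultiplicity_le X₁ (fun x => α ^ x) hainj p)
      apply Finset.sum_le_sum
      intro x _
      rw [le_rootMultiplicity_iff hp0]
      have h2 := X_pow_dvd_of_ordAt (α ^ x) (β ^ x) V 0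
      have h3 : (shiftH (α ^ x) (β ^ x) V).coeff 0 = taylor (α ^ x) p := by
        rw [shiftH_apply, ← hp, map_C, taylor_C, coeff_C_zero, tr_apply]
      rw [h3, Nat.sub_zero] at h2
      obtain ⟨U, hU⟩ := h2
      have h4 : p = taylor (-(α ^ x)) (taylor (α ^ x) p) := by
        rw [taylor_taylor]; simp
      rw [h4, hU, taylor_mul, taylor_X_pow]
      have : (X + C (-(α ^ x)) : ℝ[X]) = X - C (α ^ x) := by rw [map_neg, sub_eq_add_neg]
      rw [this]
      exact dvd_mul_right _ _
    have h2 : p.natDegree ≤ dx V := by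
      have := coeff_natDegree_le_dx V 0
      rw [← hp, coeff_C_zero, hp] at this
      exact this
    have h3 : σ ≤ dx V := by
      rw [hσ]; exact_mod_cast h1.trans h2
    rw [hdy] at hVs hd1
    simp only [Nat.cast_zero, add_zero] at hVs hd1
    nlinarith
  · have hR := resultant_derivative_ne_zero hV hdy
    have h1 : ∑ x ∈ range X₁, (ordAt (α ^ x) (β ^ x) V * (ordAt (α ^ x) (β ^ x) V - 1)) ≤
        2 * (dx V * dy V) := by
      refine le_trans ?_ (natDegree_resultant_le V)
      refine le_trans ?_ (sum_rootMultiplicity_le X₁ (fun x => α ^ x) hainj _)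
      apply Finset.sum_le_sum
      intro x _
      exact rootMult_resultant _ _ hV hdy hR
    have h2 : ∑ x ∈ range X₁, ((ordAt (α ^ x) (β ^ x) V : ℝ)) ^ 2 ≤
        2 * (dx V * dy V) + σ := by
      have h3 : ∀ n : ℕ, ((n : ℝ)) ^ 2 = ((n * (n - 1) : ℕ) : ℝ) + n := by
        intro n
        rcases n with _ | n
        · simp
        · simp only [Nat.add_sub_cancel]; push_cast; ring
      simp_rw [h3]
      rw [Finset.sum_add_distrib, ← Nat.cast_sum, ← Nat.cast_sum]
      have h4 : ((∑ x ∈ range X₁, (ordAt (α ^ x) (β ^ x) V * (ordAt (α ^ x) (β ^ x) V - 1)) : ℕ) : ℝ)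
          ≤ 2 * (dx V * dy V) := by exact_mod_cast h1
      have h5 : ((∑ x ∈ range X₁, ordAt (α ^ x) (β ^ x) V : ℕ) : ℝ) = σ := rfl
      rw [h5]
      linarith
    have hCS : σ ^ 2 ≤ X₁ * ∑ x ∈ range X₁, ((ordAt (α ^ x) (β ^ x) V : ℝ)) ^ 2 := by
      have := sq_sum_le_card_mul_sum_sq (s := range X₁)
        (f := fun x => (ordAt (α ^ x) (β ^ x) V : ℝ))
      rw [Finset.card_range] at this
      have h5 : σ = ∑ x ∈ range X₁, (ordAt (α ^ x) (β ^ x) V : ℝ) := by
        rw [hσ]; unfold sord; push_cast; rfl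
      rw [h5]
      exact this
    set d : ℝ := (dx V : ℝ) + dy V with hd
    have hX₁0 : (0 : ℝ) ≤ X₁ := Nat.cast_nonneg _
    have h6 : σ ^ 2 ≤ X₁ * (d ^ 2 / 2 + σ) := by
      refine hCS.trans (mul_le_mul_of_nonneg_left ?_ hX₁0)
      refine h2.trans ?_
      have : 2 * ((dx V : ℝ) * dy V) ≤ d ^ 2 / 2 := by
        rw [hd]; nlinarith [sq_nonneg ((dx V : ℝ) - dy V)]
      linarith
    have hdpos : 0 < d := by linarith
    have hρσ : ρ * d ≤ σ := hVs
    have hσ0 : 0 ≤ σ := Nat.cast_nonneg _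
    by_cases hσX : 2 * (X₁ : ℝ) ≤ σ
    · have h7 : σ ^ 2 ≤ X₁ * d ^ 2 := by nlinarith
      have h8 : (ρ * d) ^ 2 ≤ σ ^ 2 := pow_le_pow_left₀ (by positivity) hρσ 2
      have h9 : ρ ^ 2 ≤ X₁ := by
        have h10 : ρ ^ 2 * d ^ 2 ≤ X₁ * d ^ 2 := by nlinarith
        exact le_of_mul_le_mul_right h10 (by positivity)
      have h11 : ρ ^ 2 = (X₁ * (T : ℝ) ^ 2) * X₁ / (4 * L ^ 2) := by
        rw [hρ]; field_simp; ring
      have hX₁pos : (0 : ℝ) < X₁ := by
        rcases hX₁0.lt_or_eq with h | h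
        · exact h
        · rw [← h] at hX
          nlinarith
      rw [h11, div_le_iff₀ (by positivity)] at h9
      have h12 : (X₁ : ℝ) * (4 * (L : ℝ) ^ 2) < X₁ * (X₁ * (T : ℝ) ^ 2) :=
        mul_lt_mul_of_pos_left hX hX₁pos
      linarith
    · have hσX : σ < 2 * (X₁ : ℝ) := not_le.mp hσX
      -- d < 4L/T
      have h7 : d < 4 * L / T := by
        have h8 : ρ * d < 2 * X₁ := lt_of_le_of_lt hρσ hσX
        rw [hρ] at h8
        rw [lt_div_iff₀ hTpos]
        have h9 : (T : ℝ) * X₁ / (2 * L) * d = (d * T) * X₁ / (2 * L) := by ring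
        rw [h9, div_lt_iff₀ (by positivity)] at h8
        have h10 : (d * T) * X₁ < (4 * L) * X₁ := by linarith
        exact lt_of_mul_lt_mul_right h10 hX₁0
      set n₁ := ((range X₁).filter (fun x => V.evalEval (α ^ x) (β ^ x) = 0)).card with hn₁
      have h8 := count_zeros α β hα hβ hind X₁ hV0
      have h9 : σ ≤ n₁ * d := by
        have h10 : sord X₁ (fun x => α ^ x) (fun x => β ^ x) V ≤ n₁ * dy V := by
          unfold sord
          rw [hn₁, ← smul_eq_mul, ← Finset.sum_const, Finset.sum_filter]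
          apply Finset.sum_le_sum
          intro x _
          by_cases h : V.evalEval (α ^ x) (β ^ x) = 0
          · rw [if_pos h]
            exact ordAt_le_dy _ _ hV hdy
          · rw [if_neg h]
            by_contra h'
            have h'' : ¬ (ordAt (α ^ x) (β ^ x) V ≤ 0) := h'
            exact h (evalEval_zero_of_ordAt _ _ V (by omega))
        have h11 : σ ≤ n₁ * dy V := by rw [hσ]; exact_mod_cast h10
        refine h11.trans (mul_le_mul_of_nonneg_left ?_ (Nat.cast_nonneg _))
        rw [hd]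
        have : (0 : ℝ) ≤ dx V := Nat.cast_nonneg _
        linarith
      have h12 : ρ ≤ n₁ := le_of_mul_le_mul_right (hρσ.trans h9) hdpos
      have h13 : (n₁ : ℝ) + 1 ≤ (dx V + 1) * (dy V + 1) := by exact_mod_cast h8
      have h14 : ((dx V : ℝ) + 1) * (dy V + 1) ≤ (d + 1) ^ 2 := by
        have h15 : (0 : ℝ) ≤ dx V := Nat.cast_nonneg _
        have h16 : (0 : ℝ) ≤ dy V := Nat.cast_nonneg _
        rw [hd]; nlinarith
      have h17 : (d + 1) ^ 2 ≤ (4 * L / T + 1) ^ 2 :=
        pow_le_pow_left₀ (by linarith) (by linarith) 2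
      linarith

end Pool.Agent.Helper8
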