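import Mathlib
import Pool.Agent.Helper8.Zero2
import Pool.Agent.Helper8.Defs

set_option autoImplicit false

namespace Pool.Agent.Helper8

open Finset

lemma choose_succ_real (i t : ℕ) :
    ((t : ℝ) + 1) * (i.choose (t + 1) : ℝ) = (i.choose t : ℝ) * ((i : ℝ) - t) := by
  have h := Nat.choose_succ_right_eq i t
  by_cases hi : t ≤ i
  · have h2 : ((i.choose (t + 1) * (t + 1) : ℕ) : ℝ) = ((i.choose t * (i - t) : ℕ) : ℝ) := by
      rw [h]
    push_cast [Nat.cast_sub hi] at h2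
    linarith
  · rw [Nat.choose_eq_zero_of_lt (not_le.mp hi), Nat.choose_eq_zero_of_lt (by omega)]
    simp

/-- from powers of `A`, `B` to binomials in `i`, `j` -/
lemma powers_to_binom {ι : Type*} (S : Finset ι) (I J : ι → ℕ) (A B : ι → ℝ) (b c d : ℝ)
    (hb : b ≠ 0) (hA : ∀ l ∈ S, A l = b * I l + c) (hB : ∀ l ∈ S, B l = b * J l + d)
    (q : ι → ℝ) (T : ℕ)
    (h : ∀ m1 m2, m1 + m2 < T → ∑ l ∈ S, q l * (A l ^ m1 * B l ^ m2) = 0) :
    ∀ t1 t2, t1 + t2 < T → ∑ l ∈ S, q l * ((I l).choose t1 * (J l).choose t2 : ℝ) = 0 := by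
  have step1 : ∀ t1 m1 m2, t1 + m1 + m2 < T →
      ∑ l ∈ S, q l * (((I l).choose t1 : ℝ) * A l ^ m1 * B l ^ m2) = 0 := by
    intro t1
    induction t1 with
    | zero =>
      intro m1 m2 hm
      rw [← h m1 m2 (by omega)]
      apply Finset.sum_congr rfl
      intro l _
      simp
    | succ t ih =>
      intro m1 m2 hm
      have e1 := ih (m1 + 1) m2 (by omega)
      have e2 := ih m1 m2 (by omega)
      have key : ∀ l ∈ S, ((t : ℝ) + 1) * (q l * (((I l).choose (t + 1) : ℝ) * A l ^ m1 * B l ^ m2)) =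
          b⁻¹ * (q l * (((I l).choose t : ℝ) * A l ^ (m1 + 1) * B l ^ m2)) -
          (c / b + t) * (q l * (((I l).choose t : ℝ) * A l ^ m1 * B l ^ m2)) := by
        intro l hl
        have h1 := choose_succ_real (I l) t
        have h2 : (I l : ℝ) = b⁻¹ * A l - c / b := by
          rw [hA l hl]; field_simp; ring
        calc ((t : ℝ) + 1) * (q l * (((I l).choose (t + 1) : ℝ) * A l ^ m1 * B l ^ m2))
            = (((t : ℝ) + 1) * ((I l).choose (t + 1) : ℝ)) * (q l * A l ^ m1 * B l ^ m2) := by ring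
          _ = (((I l).choose t : ℝ) * ((I l : ℝ) - t)) * (q l * A l ^ m1 * B l ^ m2) := by rw [h1]
          _ = _ := by rw [h2]; ring
      have h3 : ((t : ℝ) + 1) * ∑ l ∈ S, q l * (((I l).choose (t + 1) : ℝ) * A l ^ m1 * B l ^ m2) = 0 := by
        rw [Finset.mul_sum, Finset.sum_congr rfl key, Finset.sum_sub_distrib, ← Finset.mul_sum,
          ← Finset.mul_sum, e1, e2]
        ring
      have h4 : ((t : ℝ) + 1) ≠ 0 := by positivity
      exact (mul_eq_zero.mp h3).resolve_left h4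
  have step2 : ∀ t2 t1 m2, t1 + t2 + m2 < T →
      ∑ l ∈ S, q l * (((I l).choose t1 : ℝ) * ((J l).choose t2 : ℝ) * B l ^ m2) = 0 := by
    intro t2
    induction t2 with
    | zero =>
      intro t1 m2 hm
      rw [← step1 t1 0 m2 (by omega)]
      apply Finset.sum_congr rfl
      intro l _
      simp
    | succ t ih =>
      intro t1 m2 hm
      have e1 := ih t1 (m2 + 1) (by omega)
      have e2 := ih t1 m2 (by omega)
      have key : ∀ l ∈ S, ((t : ℝ) + 1) *
            (q l * (((I l).choose t1 : ℝ) * ((J l).choose (t + 1) : ℝ) * B l ^ m2)) =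
          b⁻¹ * (q l * (((I l).choose t1 : ℝ) * ((J l).choose t : ℝ) * B l ^ (m2 + 1))) -
          (d / b + t) * (q l * (((I l).choose t1 : ℝ) * ((J l).choose t : ℝ) * B l ^ m2)) := by
        intro l hl
        have h1 := choose_succ_real (J l) t
        have h2 : (J l : ℝ) = b⁻¹ * B l - d / b := by
          rw [hB l hl]; field_simp; ring
        calc ((t : ℝ) + 1) * (q l * (((I l).choose t1 : ℝ) * ((J l).choose (t + 1) : ℝ) * B l ^ m2))
            = (((t : ℝ) + 1) * ((J l).choose (t + 1) : ℝ)) * (q l * ((I l).choose t1 : ℝ) * B l ^ m2) := by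
              ring
          _ = (((J l).choose t : ℝ) * ((J l : ℝ) - t)) * (q l * ((I l).choose t1 : ℝ) * B l ^ m2) := by
              rw [h1]
          _ = _ := by rw [h2]; ring
      have h3 : ((t : ℝ) + 1) *
          ∑ l ∈ S, q l * (((I l).choose t1 : ℝ) * ((J l).choose (t + 1) : ℝ) * B l ^ m2) = 0 := by
        rw [Finset.mul_sum, Finset.sum_congr rfl key, Finset.sum_sub_distrib, ← Finset.mul_sum,
          ← Finset.mul_sum, e1, e2]
        ring
      have h4 : ((t : ℝ) + 1) ≠ 0 := by positivity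
      exact (mul_eq_zero.mp h3).resolve_left h4
  intro t1 t2 ht
  rw [← step2 t2 t1 0 (by omega)]
  apply Finset.sum_congr rfl
  intro l _
  simp

/-- from binomials in `A`, `B` (naturals) to powers -/
lemma binom_to_powers {ι : Type*} (S : Finset ι) (A B : ι → ℕ)
    (q : ι → ℝ) (T : ℕ)
    (h : ∀ t1 t2, t1 + t2 < T → ∑ l ∈ S, q l * ((A l).choose t1 * (B l).choose t2 : ℝ) = 0) :
    ∀ m1 m2, m1 + m2 < T → ∑ l ∈ S, q l * ((A l : ℝ) ^ m1 * (B l : ℝ) ^ m2) = 0 := by
  have step1 : ∀ m1 t1 t2, t1 + m1 + t2 < T →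
      ∑ l ∈ S, q l * (((A l).choose t1 : ℝ) * (A l : ℝ) ^ m1 * ((B l).choose t2 : ℝ)) = 0 := by
    intro m1
    induction m1 with
    | zero =>
      intro t1 t2 hm
      rw [← h t1 t2 (by omega)]
      apply Finset.sum_congr rfl
      intro l _
      simp
    | succ m ih =>
      intro t1 t2 hm
      have e1 := ih (t1 + 1) t2 (by omega)
      have e2 := ih t1 t2 (by omega)
      have key : ∀ l ∈ S, q l * (((A l).choose t1 : ℝ) * (A l : ℝ) ^ (m + 1) * ((B l).choose t2 : ℝ)) =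
          ((t1 : ℝ) + 1) * (q l * (((A l).choose (t1 + 1) : ℝ) * (A l : ℝ) ^ m * ((B l).choose t2 : ℝ))) +
          t1 * (q l * (((A l).choose t1 : ℝ) * (A l : ℝ) ^ m * ((B l).choose t2 : ℝ))) := by
        intro l _
        have h1 := choose_succ_real (A l) t1
        calc q l * (((A l).choose t1 : ℝ) * (A l : ℝ) ^ (m + 1) * ((B l).choose t2 : ℝ))
            = (((A l).choose t1 : ℝ) * ((A l : ℝ) - t1)) * (q l * (A l : ℝ) ^ m * ((B l).choose t2 : ℝ)) +
              t1 * (q l * (((A l).choose t1 : ℝ) * (A l : ℝ) ^ m * ((B l).choose t2 : ℝ))) := by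
              rw [pow_succ]; ring
          _ = _ := by rw [← h1]; ring
      rw [Finset.sum_congr rfl key, Finset.sum_add_distrib, ← Finset.mul_sum,
          ← Finset.mul_sum, e1, e2]
      ring
  have step2 : ∀ m2 m1 t2, m1 + m2 + t2 < T →
      ∑ l ∈ S, q l * ((A l : ℝ) ^ m1 * ((B l).choose t2 : ℝ) * (B l : ℝ) ^ m2) = 0 := by
    intro m2
    induction m2 with
    | zero =>
      intro m1 t2 hm
      rw [← step1 m1 0 t2 (by omega)]
      apply Finset.sum_congr rfl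
      intro l _
      simp
    | succ m ih =>
      intro m1 t2 hm
      have e1 := ih m1 (t2 + 1) (by omega)
      have e2 := ih m1 t2 (by omega)
      have key : ∀ l ∈ S, q l * ((A l : ℝ) ^ m1 * ((B l).choose t2 : ℝ) * (B l : ℝ) ^ (m + 1)) =
          ((t2 : ℝ) + 1) * (q l * ((A l : ℝ) ^ m1 * ((B l).choose (t2 + 1) : ℝ) * (B l : ℝ) ^ m)) +
          t2 * (q l * ((A l : ℝ) ^ m1 * ((B l).choose t2 : ℝ) * (B l : ℝ) ^ m)) := by
        intro l _
        have h1 := choose_succ_real (B l) t2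
        calc q l * ((A l : ℝ) ^ m1 * ((B l).choose t2 : ℝ) * (B l : ℝ) ^ (m + 1))
            = (((B l).choose t2 : ℝ) * ((B l : ℝ) - t2)) * (q l * (A l : ℝ) ^ m1 * (B l : ℝ) ^ m) +
              t2 * (q l * ((A l : ℝ) ^ m1 * ((B l).choose t2 : ℝ) * (B l : ℝ) ^ m)) := by
              rw [pow_succ]; ring
          _ = _ := by rw [← h1]; ring
      rw [Finset.sum_congr rfl key, Finset.sum_add_distrib, ← Finset.mul_sum,
          ← Finset.mul_sum, e1, e2]
      ring
  intro m1 m2 ht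
  rw [← step2 m2 m1 0 (by omega)]
  apply Finset.sum_congr rfl
  intro l _
  simp

/-- span of the monomials -/
def Fn (A B z : ℕ × ℕ × ℕ → ℝ) (X T : ℕ) : Submodule ℝ (ℕ × ℕ × ℕ → ℝ) :=
  Submodule.span ℝ {g | ∃ x t1 t2 : ℕ, x ≤ X ∧ t1 + t2 ≤ T ∧
    g = fun l => A l ^ t1 * B l ^ t2 * z l ^ x}

lemma Fn_mono_mem (A B z : ℕ × ℕ × ℕ → ℝ) {X T x t1 t2 : ℕ} (hx : x ≤ X) (ht : t1 + t2 ≤ T) :
    (fun l => A l ^ t1 * B l ^ t2 * z l ^ x) ∈ Fn A B z X T :=
  Submodule.subset_span ⟨x, t1, t2, hx, ht, rfl⟩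

lemma Fn_mul (A B z : ℕ × ℕ × ℕ → ℝ) {X T X' T' : ℕ} {g g' : ℕ × ℕ × ℕ → ℝ}
    (hg : g ∈ Fn A B z X T) (hg' : g' ∈ Fn A B z X' T') :
    g * g' ∈ Fn A B z (X + X') (T + T') := by
  have h := Submodule.mul_mem_mul hg hg'
  unfold Fn at h
  rw [Submodule.span_mul_span] at h
  refine Submodule.span_mono ?_ h
  rintro _ ⟨u, ⟨x, t1, t2, hx, ht, rfl⟩, u', ⟨x', t1', t2', hx', ht', rfl⟩, rfl⟩
  refine ⟨x + x', t1 + t1', t2 + t2', by omega, by omega, ?_⟩
  funext l
  simp only [Pi.mul_apply, pow_add]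
  ring

lemma Fn_one (A B z : ℕ × ℕ × ℕ → ℝ) (X T : ℕ) : (1 : ℕ × ℕ × ℕ → ℝ) ∈ Fn A B z X T := by
  have := Fn_mono_mem A B z (X := X) (T := T) (x := 0) (t1 := 0) (t2 := 0) (by omega) (by omega)
  convert this using 1
  funext l
  simp

lemma Fn_prod (A B z : ℕ × ℕ × ℕ → ℝ) {X T : ℕ} (g : ℕ → ℕ × ℕ × ℕ → ℝ) (s : Finset ℕ)
    (h : ∀ k ∈ s, g k ∈ Fn A B z X T) :
    ∏ k ∈ s, g k ∈ Fn A B z (s.card * X) (s.card * T) := by
  classical
  induction s using Finset.induction_on with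
  | empty => simpa using Fn_one A B z 0 0
  | insert a s ha ih =>
    rw [Finset.prod_insert ha, Finset.card_insert_of_notMem ha]
    have := Fn_mul A B z (h a (Finset.mem_insert_self a s))
      (ih (fun k hk => h k (Finset.mem_insert_of_mem hk)))
    rw [add_comm X, add_comm T] at this
    rw [add_mul, add_mul, one_mul, one_mul]
    exact this

lemma sum_Fn_zero (A B z : ℕ × ℕ × ℕ → ℝ) {X T : ℕ} (S : Finset (ℕ × ℕ × ℕ)) (p : ℕ × ℕ × ℕ → ℝ)
    (h : ∀ x ≤ X, ∀ t1 t2, t1 + t2 ≤ T → ∑ l ∈ S, p l * (A l ^ t1 * B l ^ t2 * z l ^ x) = 0) :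
    ∀ g ∈ Fn A B z X T, ∑ l ∈ S, p l * g l = 0 := by
  intro g hg
  induction hg using Submodule.span_induction with
  | mem g hg =>
    obtain ⟨x, t1, t2, hx, ht, rfl⟩ := hg
    exact h x hx t1 t2 ht
  | zero => simp
  | add g g' _ _ h1 h2 =>
    simp only [Pi.add_apply, mul_add, Finset.sum_add_distrib, h1, h2, add_zero]
  | smul a g _ h1 =>
    have : ∀ l ∈ S, p l * (a • g) l = a * (p l * g l) := by
      intro l _
      simp only [Pi.smul_apply, smul_eq_mul]; ring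
    rw [Finset.sum_congr rfl this, ← Finset.mul_sum, h1, mul_zero]

section

variable (α β y : ℝ) (hα : 1 < α) (hβ : 1 < β) (hy : 0 < y) (hind : MulIndep3 α β y)
  (b b1 b2 s : ℝ) (hb : b ≠ 0)

/-- `A` -/
def fA (b b1 s : ℝ) : ℕ × ℕ × ℕ → ℝ := fun l => b * l.2.1 + b1 * l.1 + s
/-- `B` -/
def fB (b b2 s : ℝ) : ℕ × ℕ × ℕ → ℝ := fun l => b * l.2.2 + b2 * l.1 + s
/-- `z` -/
noncomputable def fz (α β y : ℝ) : ℕ × ℕ × ℕ → ℝ := fun l => y ^ l.1 * α ^ l.2.1 * β ^ l.2.2

include hα hβ hy hind in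
lemma fz_inj {l l' : ℕ × ℕ × ℕ} (h : fz α β y l = fz α β y l') : l = l' := by
  unfold fz at h
  have hα0 : 0 < α := by linarith
  have hβ0 : 0 < β := by linarith
  have h1 : α ^ ((l.2.1 : ℤ) - l'.2.1) * β ^ ((l.2.2 : ℤ) - l'.2.2) * y ^ ((l.1 : ℤ) - l'.1) = 1 := by
    rw [zpow_sub₀ hα0.ne', zpow_sub₀ hβ0.ne', zpow_sub₀ hy.ne']
    simp only [zpow_natCast]
    field_simp
    nlinarith
  obtain ⟨h2, h3, h4⟩ := hind _ _ _ h1
  ext
  · omega
  · omega
  · omega

include hα hβ hy hind hb in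
/-- vanishing on one box -/
lemma box_zero (L T X₁ : ℕ) (hT : 1 ≤ T) (hL : 1 ≤ L) (k : ℕ) (q : ℕ → ℕ → ℝ)
    (hv : ∀ x < X₁, ∀ t1 t2, t1 + t2 < T → ∑ i ∈ range L, ∑ j ∈ range L,
      q i j * (fA b b1 s (k, i, j) ^ t1 * fB b b2 s (k, i, j) ^ t2 * fz α β y (k, i, j) ^ x) = 0)
    (hX : 4 * (L : ℝ) ^ 2 < X₁ * (T : ℝ) ^ 2)
    (hX2 : (4 * (L : ℝ) / T + 1) ^ 2 ≤ (T : ℝ) * X₁ / (2 * L)) :
    ∀ i < L, ∀ j < L, q i j = 0 := by
  have hα0 : 0 < α := by linarith
  have hβ0 : 0 < β := by linarith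
  apply zero2 α β hα hβ ?_ L T X₁ hT hL q ?_ hX hX2
  · intro i j i' j' h
    have := fz_inj α β y hα hβ hy hind (l := (0, i, j)) (l' := (0, i', j')) (by
      unfold fz; simpa using h)
    simp only [Prod.mk.injEq, true_and] at this
    exact this
  · intro x hx t1 t2 ht
    have h1 := powers_to_binom (range L ×ˢ range L) (fun l => l.1) (fun l => l.2)
      (fun l => fA b b1 s (k, l.1, l.2)) (fun l => fB b b2 s (k, l.1, l.2)) b (b1 * k + s)
      (b2 * k + s) hb (by intro l _; unfold fA; ring) (by intro l _; unfold fB; ring)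
      (fun l => q l.1 l.2 * fz α β y (k, l.1, l.2) ^ x) T ?_ t1 t2 ht
    · rw [Finset.sum_product] at h1
      have h2 : (y ^ k) ^ x * ∑ i' ∈ range L, ∑ k' ∈ range L,
          q i' k' * (i'.choose t1) * (k'.choose t2) * (α ^ i' * β ^ k') ^ x = 0 := by
        rw [← h1, Finset.mul_sum]
        apply Finset.sum_congr rfl
        intro i _
        rw [Finset.mul_sum]
        apply Finset.sum_congr rfl
        intro j _
        unfold fz
        simp only [mul_pow]
        ring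
      have h3 : (y ^ k) ^ x ≠ 0 := by positivity
      exact (mul_eq_zero.mp h2).resolve_left h3
    · intro m1 m2 hm
      rw [← hv x hx m1 m2 hm, Finset.sum_product]
      apply Finset.sum_congr rfl
      intro i _
      apply Finset.sum_congr rfl
      intro j _
      ring

include hα hβ hy hind hb in
/-- a function killing the box `k` but not the point `(k', i', j')` -/
lemma kill (L T X₁ : ℕ) (hT : 1 ≤ T) (hL : 1 ≤ L)
    (hX : 4 * (L : ℝ) ^ 2 < X₁ * (T : ℝ) ^ 2)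
    (hX2 : (4 * (L : ℝ) / T + 1) ^ 2 ≤ (T : ℝ) * X₁ / (2 * L)) (k : ℕ) (l' : ℕ × ℕ × ℕ)
    (hk : k ≠ l'.1) :
    ∃ g ∈ Fn (fA b b1 s) (fB b b2 s) (fz α β y) X₁ T,
      (∀ i < L, ∀ j < L, g (k, i, j) = 0) ∧ g l' ≠ 0 := by
  classical
  by_contra hcon
  push Not at hcon
  set F := Fn (fA b b1 s) (fB b b2 s) (fz α β y) X₁ T with hF
  let ev : (Fin L × Fin L) → (F →ₗ[ℝ] ℝ) := fun ij =>
    (LinearMap.proj (R := ℝ) (φ := fun _ : ℕ × ℕ × ℕ => ℝ) (k, (ij.1 : ℕ), (ij.2 : ℕ))).comp F.subtype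
  let K : F →ₗ[ℝ] ℝ :=
    (LinearMap.proj (R := ℝ) (φ := fun _ : ℕ × ℕ × ℕ => ℝ) l').comp F.subtype
  have hK : ⨅ ij, LinearMap.ker (ev ij) ≤ LinearMap.ker K := by
    intro g hg
    rw [LinearMap.mem_ker]
    apply hcon g.1 g.2
    intro i hi j hj
    have := (Submodule.mem_iInf _).mp hg (⟨i, hi⟩, ⟨j, hj⟩)
    rw [LinearMap.mem_ker] at this
    exact this
  have hK2 := mem_span_of_iInf_ker_le_ker hK
  obtain ⟨c, hc⟩ := (Submodule.mem_span_range_iff_exists_fun ℝ).mp hK2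
  set q : ℕ → ℕ → ℝ := fun i j => if h : i < L ∧ j < L then c (⟨i, h.1⟩, ⟨j, h.2⟩) else 0 with hq
  have hrep : ∀ g ∈ F, g l' = ∑ i ∈ range L, ∑ j ∈ range L, q i j * g (k, i, j) := by
    intro g hg
    have h1 : K ⟨g, hg⟩ = g l' := rfl
    rw [← h1, ← hc, LinearMap.sum_apply, Fintype.sum_prod_type, Finset.sum_range]
    apply Finset.sum_congr rfl
    intro i _
    rw [Finset.sum_range]
    apply Finset.sum_congr rfl
    intro j _
    rw [LinearMap.smul_apply, smul_eq_mul, hq]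
    simp only [Fin.is_lt, and_self, dite_true]
    rfl
  -- apply to functions vanishing at l'
  have hz := box_zero α β y hα hβ hy hind b b1 b2 s hb L T X₁ hT hL k
    (fun i j => q i j * (fz α β y (k, i, j) - fz α β y l')) ?_ hX hX2
  · have hq0 : ∀ i < L, ∀ j < L, q i j = 0 := by
      intro i hi j hj
      have h1 := hz i hi j hj
      rcases mul_eq_zero.mp h1 with h2 | h2
      · exact h2
      · exfalso
        have := fz_inj α β y hα hβ hy hind (sub_eq_zero.mp h2)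
        apply hk
        rw [← this]
    have h1 := hrep 1 (Fn_one _ _ _ _ _)
    rw [Finset.sum_eq_zero] at h1
    · simp at h1
    · intro i hi
      apply Finset.sum_eq_zero
      intro j hj
      rw [hq0 i (Finset.mem_range.mp hi) j (Finset.mem_range.mp hj), zero_mul]
  · intro x hx t1 t2 ht
    have hmem : (fun l => fA b b1 s l ^ t1 * fB b b2 s l ^ t2 * fz α β y l ^ (x + 1)) -
        fz α β y l' • (fun l => fA b b1 s l ^ t1 * fB b b2 s l ^ t2 * fz α β y l ^ x) ∈ F := by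
      apply Submodule.sub_mem
      · exact Fn_mono_mem _ _ _ (by omega) (by omega)
      · exact Submodule.smul_mem _ _ (Fn_mono_mem _ _ _ (by omega) (by omega))
    have h1 := hrep _ hmem
    have h2 : ((fun l => fA b b1 s l ^ t1 * fB b b2 s l ^ t2 * fz α β y l ^ (x + 1)) -
        fz α β y l' • (fun l => fA b b1 s l ^ t1 * fB b b2 s l ^ t2 * fz α β y l ^ x)) l' = 0 := by
      simp only [Pi.sub_apply, Pi.smul_apply, smul_eq_mul, pow_succ]
      ring
    rw [h2] at h1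
    rw [h1]
    apply Finset.sum_congr rfl
    intro i _
    apply Finset.sum_congr rfl
    intro j _
    simp only [Pi.sub_apply, Pi.smul_apply, smul_eq_mul, pow_succ]
    ring

include hα hβ hy hind hb in
/-- The zero estimate. -/
theorem zero3 (L0 L T X₁ : ℕ) (hT : 1 ≤ T) (hL : 1 ≤ L)
    (hX : 4 * (L : ℝ) ^ 2 < X₁ * (T : ℝ) ^ 2)
    (hX2 : (4 * (L : ℝ) / T + 1) ^ 2 ≤ (T : ℝ) * X₁ / (2 * L)) (p : ℕ × ℕ × ℕ → ℝ)
    (hv : ∀ x ≤ L0 * X₁, ∀ t1 t2, t1 + t2 ≤ L0 * T →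
      ∑ l ∈ range L0 ×ˢ range L ×ˢ range L,
        p l * (fA b b1 s l ^ t1 * fB b b2 s l ^ t2 * fz α β y l ^ x) = 0) :
    ∀ l ∈ range L0 ×ˢ range L ×ˢ range L, p l = 0 := by
  classical
  rintro ⟨k', i', j'⟩ hl'
  simp only [Finset.mem_product, Finset.mem_range] at hl'
  obtain ⟨hk', hi', hj'⟩ := hl'
  have hkill : ∀ k, ∃ g : ℕ × ℕ × ℕ → ℝ, k ≠ k' →
      g ∈ Fn (fA b b1 s) (fB b b2 s) (fz α β y) X₁ T ∧
      (∀ i < L, ∀ j < L, g (k, i, j) = 0) ∧ g (k', i', j') ≠ 0 := by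
    intro k
    by_cases hk : k ≠ k'
    · obtain ⟨g, h1, h2, h3⟩ := kill α β y hα hβ hy hind b b1 b2 s hb L T X₁ hT hL hX hX2 k
        (k', i', j') hk
      exact ⟨g, fun _ => ⟨h1, h2, h3⟩⟩
    · exact ⟨0, fun h => absurd h hk⟩
  choose g hg using hkill
  set G := ∏ k ∈ (range L0).erase k', g k with hG
  have hGmem := Fn_prod (fA b b1 s) (fB b b2 s) (fz α β y) (X := X₁) (T := T) g
    ((range L0).erase k') (fun k hk => (hg k (Finset.ne_of_mem_erase hk)).1)
  rw [Finset.card_erase_of_mem (Finset.mem_range.mpr hk'), Finset.card_range, ← hG] at hGmem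
  have hsum := sum_Fn_zero (fA b b1 s) (fB b b2 s) (fz α β y) (X := L0 * X₁) (T := L0 * T)
    (range L0 ×ˢ range L ×ˢ range L) p hv
  have hbox := box_zero α β y hα hβ hy hind b b1 b2 s hb L T X₁ hT hL k'
    (fun i j => p (k', i, j) * G (k', i, j)) ?_ hX hX2
  · have h1 := hbox i' hi' j' hj'
    rcases mul_eq_zero.mp h1 with h2 | h2
    · exact h2
    · exfalso
      rw [hG, Finset.prod_apply] at h2
      rw [Finset.prod_eq_zero_iff] at h2
      obtain ⟨k, hk, h3⟩ := h2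
      exact (hg k (Finset.ne_of_mem_erase hk)).2.2 h3
  · intro x hx t1 t2 ht
    have hm := Fn_mul _ _ _ hGmem
      (Fn_mono_mem (fA b b1 s) (fB b b2 s) (fz α β y) (X := X₁) (T := T) (x := x) (t1 := t1)
        (t2 := t2) (by omega) (by omega))
    have e1 : (L0 - 1) * X₁ + X₁ = L0 * X₁ := by
      rw [← Nat.succ_mul]; congr 1; omega
    have e2 : (L0 - 1) * T + T = L0 * T := by
      rw [← Nat.succ_mul]; congr 1; omega
    rw [e1, e2] at hm
    have h1 := hsum _ hm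
    rw [Finset.sum_product, Finset.sum_eq_single k'] at h1
    · rw [Finset.sum_product] at h1
      rw [← h1]
      apply Finset.sum_congr rfl
      intro i _
      apply Finset.sum_congr rfl
      intro j _
      simp only [Pi.mul_apply]
      ring
    · intro k hk hkk
      apply Finset.sum_eq_zero
      rintro ⟨i, j⟩ hij
      simp only [Finset.mem_product, Finset.mem_range] at hij
      have : G (k, i, j) = 0 := by
        rw [hG, Finset.prod_apply]
        apply Finset.prod_eq_zero (Finset.mem_erase.mpr ⟨hkk, hk⟩)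
        exact (hg k hkk).2.1 i hij.1 j hij.2
      simp only [Pi.mul_apply, this, zero_mul, mul_zero]
    · intro h
      exact absurd (Finset.mem_range.mpr hk') h

end

end Pool.Agent.Helper8
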