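import Mathlib
import Pool.Agent.Helper8.Schwarz
import Pool.Agent.Helper8.Zero3

set_option autoImplicit false

namespace Pool.Agent.Helper8

open Finset

/-- exponential sum -/
noncomputable def eS {ι : Type*} (S : Finset ι) (c w : ι → ℝ) (m : ℕ) : ℂ → ℂ :=
  fun z => ∑ l ∈ S, (c l : ℂ) * (w l : ℂ) ^ m * Complex.exp ((w l : ℂ) * z)

lemma hasDerivAt_eS {ι : Type*} (S : Finset ι) (c w : ι → ℝ) (m : ℕ) (z : ℂ) :
    HasDerivAt (eS S c w m) (eS S c w (m + 1) z) z := by
  unfold eS
  apply HasDerivAt.fun_sum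
  intro l _
  have h1 : HasDerivAt (fun z : ℂ => (w l : ℂ) * z) ((w l : ℂ)) z := by
    simpa using (hasDerivAt_id z).const_mul (w l : ℂ)
  have h2 := (h1.cexp).const_mul ((c l : ℂ) * (w l : ℂ) ^ m)
  have h3 : (c l : ℂ) * (w l : ℂ) ^ m * (Complex.exp ((w l : ℂ) * z) * (w l : ℂ)) =
      (c l : ℂ) * (w l : ℂ) ^ (m + 1) * Complex.exp ((w l : ℂ) * z) := by ring
  rw [h3] at h2
  exact h2

lemma iteratedDeriv_eS {ι : Type*} (S : Finset ι) (c w : ι → ℝ) (m : ℕ) :
    iteratedDeriv m (eS S c w 0) = eS S c w m := by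
  induction m with
  | zero => simp
  | succ m ih =>
    rw [iteratedDeriv_succ, ih]
    funext z
    exact (hasDerivAt_eS S c w m z).deriv

lemma vanish_W {ι : Type*} (S : Finset ι) (p : ι → ℝ) (A B : ι → ℕ) (W e : ι → ℝ)
    (a1 a2 a3 : ℝ) (hW : ∀ l ∈ S, W l = a1 * A l + a2 * B l + a3) (T : ℕ)
    (hv : ∀ u1 u2, u1 + u2 < T →
      ∑ l ∈ S, p l * ((A l).choose u1 * (B l).choose u2) * e l = 0) :
    ∀ m u1 u2, u1 + u2 + m < T →
      ∑ l ∈ S, p l * ((A l).choose u1 * (B l).choose u2) * (W l) ^ m * e l = 0 := by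
  intro m
  induction m with
  | zero =>
    intro u1 u2 h
    rw [← hv u1 u2 (by omega)]
    apply Finset.sum_congr rfl
    intro l _
    ring
  | succ m ih =>
    intro u1 u2 h
    have e1 := ih (u1 + 1) u2 (by omega)
    have e2 := ih u1 (u2 + 1) (by omega)
    have e3 := ih u1 u2 (by omega)
    have key : ∀ l ∈ S, p l * ((A l).choose u1 * (B l).choose u2) * (W l) ^ (m + 1) * e l =
        a1 * (u1 + 1) * (p l * ((A l).choose (u1 + 1) * (B l).choose u2) * (W l) ^ m * e l) +
        a2 * (u2 + 1) * (p l * ((A l).choose u1 * (B l).choose (u2 + 1)) * (W l) ^ m * e l) +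
        (a1 * u1 + a2 * u2 + a3) *
          (p l * ((A l).choose u1 * (B l).choose u2) * (W l) ^ m * e l) := by
      intro l hl
      have h1 := choose_succ_real (A l) u1
      have h2 := choose_succ_real (B l) u2
      have h3 : ((A l).choose u1 : ℝ) * (A l) =
          ((u1 : ℝ) + 1) * ((A l).choose (u1 + 1) : ℝ) + u1 * ((A l).choose u1 : ℝ) := by
        rw [h1]; ring
      have h4 : ((B l).choose u2 : ℝ) * (B l) =
          ((u2 : ℝ) + 1) * ((B l).choose (u2 + 1) : ℝ) + u2 * ((B l).choose u2 : ℝ) := by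
        rw [h2]; ring
      calc p l * ((A l).choose u1 * (B l).choose u2) * (W l) ^ (m + 1) * e l
          = p l * ((A l).choose u1 * (B l).choose u2) * (W l) ^ m * e l * (W l) := by
            rw [pow_succ]; ring
        _ = a1 * (((A l).choose u1 : ℝ) * (A l)) * (p l * (B l).choose u2 * (W l) ^ m * e l) +
            a2 * (((B l).choose u2 : ℝ) * (B l)) * (p l * (A l).choose u1 * (W l) ^ m * e l) +
            a3 * (p l * ((A l).choose u1 * (B l).choose u2) * (W l) ^ m * e l) := by
            nth_rewrite 2 [hW l hl]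
            ring
        _ = _ := by rw [h3, h4]; ring
    rw [Finset.sum_congr rfl key, Finset.sum_add_distrib, Finset.sum_add_distrib,
      ← Finset.mul_sum, ← Finset.mul_sum, ← Finset.mul_sum, e1, e2, e3]
    ring

theorem extrap_step {ι : Type*} (S : Finset ι) (p : ι → ℝ) (A B : ι → ℕ) (w W : ι → ℝ)
    (a1 a2 a3 : ℝ) (hW : ∀ l ∈ S, W l = a1 * A l + a2 * B l + a3)
    (wb δ D : ℝ) (hwb : 0 ≤ wb) (hδ0 : 0 ≤ δ) (hw : ∀ l ∈ S, |w l| ≤ wb)
    (hWb : ∀ l ∈ S, |W l| ≤ wb) (hδ : ∀ l ∈ S, |w l - W l| ≤ δ)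
    (T s X : ℕ) (X' R : ℝ) (hX : (X : ℝ) ≤ X') (hXR : (X : ℝ) < R)
    (t1 t2 : ℕ) (ht : t1 + t2 + s ≤ T)
    (hD : ∑ l ∈ S, |p l| * ((A l).choose t1 * (B l).choose t2) ≤ D)
    (hv : ∀ x < X, ∀ u1 u2, u1 + u2 < T →
      ∑ l ∈ S, p l * ((A l).choose u1 * (B l).choose u2) * Real.exp (w l * x) = 0)
    (x' : ℝ) (hx0 : 0 ≤ x') (hx1 : x' ≤ X') (hx2 : x' ≤ R) :
    |∑ l ∈ S, p l * ((A l).choose t1 * (B l).choose t2) * Real.exp (w l * x')| ≤
      2 * (D * δ * Real.exp (wb * (1 + X))) * (4 * X' + 1) ^ (s * X) +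
        D * Real.exp (wb * R) * (2 * X' / (R - X)) ^ (s * X) := by
  set c : ι → ℝ := fun l => p l * ((A l).choose t1 * (B l).choose t2) with hc
  have hcabs : ∀ l, |c l| = |p l| * ((A l).choose t1 * (B l).choose t2) := by
    intro l
    rw [hc]
    simp only
    rw [abs_mul, abs_of_nonneg (a := ((A l).choose t1 : ℝ) * (B l).choose t2) (by positivity)]
  have hD' : ∑ l ∈ S, |c l| ≤ D := by
    simp_rw [hcabs]; exact hD
  have hD0 : 0 ≤ D := le_trans (Finset.sum_nonneg (fun l _ => abs_nonneg _)) hD'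
  have hdiff : Differentiable ℂ (eS S c w 0) := fun z => (hasDerivAt_eS S c w 0 z).differentiableAt
  have hval : ∀ x : ℝ, eS S c w 0 (x : ℂ) = ((∑ l ∈ S, c l * Real.exp (w l * x) : ℝ) : ℂ) := by
    intro x
    unfold eS
    push_cast
    apply Finset.sum_congr rfl
    intro l _
    simp
  have hR0 : 0 < R := lt_of_le_of_lt (Nat.cast_nonneg X) hXR
  have main := approx_schwarz (eS S c w 0) hdiff X s X' R (D * Real.exp (wb * R))
    (D * δ * Real.exp (wb * (1 + X))) hX hXR (by positivity) ?_ ?_ x' hx0 hx1 hx2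
  · rw [hval x', Complex.norm_real, Real.norm_eq_abs] at main
    exact main
  · intro z hz
    unfold eS
    refine (norm_sum_le _ _).trans ?_
    calc ∑ l ∈ S, ‖(c l : ℂ) * (w l : ℂ) ^ 0 * Complex.exp ((w l : ℂ) * z)‖
        ≤ ∑ l ∈ S, |c l| * Real.exp (wb * R) := by
          apply Finset.sum_le_sum
          intro l hl
          rw [pow_zero, mul_one, norm_mul, Complex.norm_real, Real.norm_eq_abs, Complex.norm_exp]
          apply mul_le_mul_of_nonneg_left _ (abs_nonneg _)
          apply Real.exp_le_exp.mpr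
          refine (Complex.re_le_norm _).trans ?_
          rw [norm_mul, Complex.norm_real, Real.norm_eq_abs]
          exact mul_le_mul (hw l hl) hz (norm_nonneg _) hwb
      _ = (∑ l ∈ S, |c l|) * Real.exp (wb * R) := by rw [Finset.sum_mul]
      _ ≤ D * Real.exp (wb * R) := mul_le_mul_of_nonneg_right hD' (Real.exp_pos _).le
  · intro x hx m hm
    unfold tc
    rw [iteratedDeriv_eS]
    have hvW := vanish_W S p A B W (fun l => Real.exp (w l * x)) a1 a2 a3 hW T (hv x hx) m t1 t2
      (by omega)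
    have hsum : eS S c w m (x : ℂ) =
        ((∑ l ∈ S, c l * (w l ^ m - W l ^ m) * Real.exp (w l * x) : ℝ) : ℂ) := by
      have h1 : ∑ l ∈ S, c l * (w l ^ m - W l ^ m) * Real.exp (w l * x) =
          ∑ l ∈ S, c l * w l ^ m * Real.exp (w l * x) := by
        have h2 : ∀ l ∈ S, c l * (w l ^ m - W l ^ m) * Real.exp (w l * x) =
            c l * w l ^ m * Real.exp (w l * x) - c l * W l ^ m * Real.exp (w l * x) := by
          intro l _; ring
        rw [Finset.sum_congr rfl h2, Finset.sum_sub_distrib]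
        have h3 : ∑ l ∈ S, c l * W l ^ m * Real.exp (w l * x) = 0 := hvW
        rw [h3, sub_zero]
      rw [h1]
      unfold eS
      push_cast
      rfl
    rw [hsum, norm_div, Complex.norm_real, Real.norm_eq_abs]
    have hfact : ‖((m.factorial : ℕ) : ℂ)‖ = (m.factorial : ℝ) := by simp
    rw [hfact, div_le_iff₀ (by positivity)]
    refine (Finset.abs_sum_le_sum_abs _ _).trans ?_
    have hterm : ∀ l ∈ S, |c l * (w l ^ m - W l ^ m) * Real.exp (w l * x)| ≤
        |c l| * (δ * Real.exp (wb * (1 + X)) * m.factorial) := by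
      intro l hl
      rw [abs_mul, abs_mul, abs_of_pos (Real.exp_pos _), mul_assoc]
      apply mul_le_mul_of_nonneg_left _ (abs_nonneg _)
      have h1 : |w l ^ m - W l ^ m| ≤ δ * Real.exp wb * m.factorial := by
        rcases m with _ | m
        · simp; positivity
        · have h2 := abs_pow_sub_pow_le (w l) (W l) (m + 1)
          rw [Nat.add_sub_cancel] at h2
          have h3 : max |w l| |W l| ^ m ≤ wb ^ m := by
            apply pow_le_pow_left₀ (le_max_of_le_left (abs_nonneg _))
            exact max_le (hw l hl) (hWb l hl)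
          have h4 := Real.pow_div_factorial_le_exp wb hwb m
          rw [div_le_iff₀ (by positivity)] at h4
          calc |w l ^ (m + 1) - W l ^ (m + 1)|
              ≤ |w l - W l| * ((m + 1 : ℕ) : ℝ) * max |w l| |W l| ^ m := h2
            _ ≤ δ * ((m + 1 : ℕ) : ℝ) * (Real.exp wb * m.factorial) := by
                apply mul_le_mul _ (h3.trans h4) (by positivity) (by positivity)
                exact mul_le_mul_of_nonneg_right (hδ l hl) (by positivity)
            _ = δ * Real.exp wb * (m + 1).factorial := by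
                rw [Nat.factorial_succ]; push_cast; ring
      have h5 : Real.exp (w l * x) ≤ Real.exp (wb * X) := by
        apply Real.exp_le_exp.mpr
        have h6 : w l ≤ wb := (le_abs_self _).trans (hw l hl)
        have h7 : (x : ℝ) ≤ X := by exact_mod_cast hx.le
        calc w l * x ≤ wb * x := mul_le_mul_of_nonneg_right h6 (Nat.cast_nonneg _)
          _ ≤ wb * X := mul_le_mul_of_nonneg_left h7 hwb
      calc |w l ^ m - W l ^ m| * Real.exp (w l * x)
          ≤ (δ * Real.exp wb * m.factorial) * Real.exp (wb * X) :=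
            mul_le_mul h1 h5 (Real.exp_pos _).le (by positivity)
        _ = δ * Real.exp (wb * (1 + X)) * m.factorial := by
            rw [mul_add, mul_one, Real.exp_add]; ring
    refine (Finset.sum_le_sum hterm).trans ?_
    rw [← Finset.sum_mul]
    calc (∑ l ∈ S, |c l|) * (δ * Real.exp (wb * (1 + X)) * m.factorial)
        ≤ D * (δ * Real.exp (wb * (1 + X)) * m.factorial) :=
          mul_le_mul_of_nonneg_right hD' (by positivity)
      _ = D * δ * Real.exp (wb * (1 + X)) * m.factorial := by ring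

end Pool.Agent.Helper8
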