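import Mathlib
import Pool.Agent.Helper8.Zero3

set_option autoImplicit false

namespace Pool.Agent.Helper8

open Finset

attribute [local instance] Matrix.seminormedAddCommGroup

/-- Siegel's lemma with twice as many unknowns as equations. -/
lemma siegel_simple {ι κ : Type*} [Fintype ι] [Fintype κ] (a : κ → ι → ℤ)
    (hcard : 2 * Fintype.card κ = Fintype.card ι) (hpos : 0 < Fintype.card κ)
    (M : ℝ) (hM1 : 1 ≤ M) (hM : ∀ e l, |(a e l : ℝ)| ≤ M) :
    ∃ p : ι → ℤ, p ≠ 0 ∧ (∀ l, |(p l : ℝ)| ≤ Fintype.card ι * M) ∧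
      ∀ e, ∑ l, a e l * p l = 0 := by
  classical
  obtain ⟨t, ht0, ht1, ht2⟩ := Int.Matrix.exists_ne_zero_int_vec_norm_le (Matrix.of a)
    (by omega) hpos
  refine ⟨t, ht0, ?_, ?_⟩
  · intro l
    have hn : (Fintype.card ι : ℝ) - Fintype.card κ = Fintype.card κ := by
      have : (Fintype.card ι : ℝ) = 2 * Fintype.card κ := by exact_mod_cast hcard.symm
      rw [this]; ring
    rw [hn, div_self (by positivity), Real.rpow_one] at ht2
    have h1 : ‖t l‖ ≤ ‖t‖ := norm_le_pi_norm t l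
    rw [Int.norm_eq_abs] at h1
    refine (h1.trans ht2).trans ?_
    apply mul_le_mul_of_nonneg_left _ (Nat.cast_nonneg _)
    apply max_le hM1
    rw [Matrix.norm_le_iff (by linarith)]
    intro e l
    rw [Int.norm_eq_abs]
    exact hM e l
  · intro e
    have := congrFun ht1 e
    rw [Matrix.mulVec, dotProduct] at this
    simpa using this

theorem siegel_step (α β P Q : ℕ) (hQ : 0 < Q) (L0 L1 T0 X0 : ℕ)
    (A B : ℕ × ℕ × ℕ → ℕ) (hcount : 2 * (X0 * T0 ^ 2) = L0 * L1 ^ 2) (hpos : 0 < X0 * T0 ^ 2)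
    (M : ℝ) (hM1 : 1 ≤ M)
    (hM : ∀ l ∈ range L0 ×ˢ range L1 ×ˢ range L1, ∀ x < X0, ∀ t1 < T0, ∀ t2 < T0,
      ((A l).choose t1 * (B l).choose t2 : ℝ) *
        ((Q : ℝ) ^ (L0 * x) * (fz α β ((P : ℝ) / Q) l) ^ x) ≤ M) :
    ∃ p : ℕ × ℕ × ℕ → ℤ, (∃ l ∈ range L0 ×ˢ range L1 ×ˢ range L1, p l ≠ 0) ∧
      (∀ l ∈ range L0 ×ˢ range L1 ×ˢ range L1, |(p l : ℝ)| ≤ L0 * L1 ^ 2 * M) ∧
      ∀ x < X0, ∀ t1 < T0, ∀ t2 < T0, ∑ l ∈ range L0 ×ˢ range L1 ×ˢ range L1,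
        (p l : ℝ) * ((A l).choose t1 * (B l).choose t2) * (fz α β ((P : ℝ) / Q) l) ^ x = 0 := by
  classical
  set box := range L0 ×ˢ range L1 ×ˢ range L1 with hbox
  have hQ' : (Q : ℝ) ≠ 0 := by positivity
  -- the integer exponential factor
  let E : ℕ × ℕ × ℕ → ℕ → ℕ := fun l x =>
    Q ^ ((L0 - l.1) * x) * P ^ (l.1 * x) * α ^ (l.2.1 * x) * β ^ (l.2.2 * x)
  have hE : ∀ l ∈ box, ∀ x, ((E l x : ℕ) : ℝ) = (Q : ℝ) ^ (L0 * x) * (fz α β ((P : ℝ) / Q) l) ^ x := by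
    intro l hl x
    have hl1 : l.1 < L0 := by
      rw [hbox, Finset.mem_product] at hl
      exact Finset.mem_range.mp hl.1
    simp only [E, fz]
    push_cast
    have h1 : L0 * x = (L0 - l.1) * x + l.1 * x := by
      rw [← add_mul]; congr 1; omega
    rw [h1, pow_add, mul_pow, mul_pow, div_pow, div_pow, ← pow_mul, ← pow_mul, ← pow_mul, ← pow_mul]
    have h2 : (Q : ℝ) ^ (l.1 * x) ≠ 0 := by positivity
    field_simp
  let a : (Fin X0 × Fin T0 × Fin T0) → (Fin L0 × Fin L1 × Fin L1) → ℤ := fun e l =>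
    ((A (l.1, l.2.1, l.2.2)).choose e.2.1 * (B (l.1, l.2.1, l.2.2)).choose e.2.2 *
      E (l.1, l.2.1, l.2.2) e.1 : ℕ)
  have hcard1 : Fintype.card (Fin X0 × Fin T0 × Fin T0) = X0 * T0 ^ 2 := by
    simp only [Fintype.card_prod, Fintype.card_fin]; ring
  have hcard2 : Fintype.card (Fin L0 × Fin L1 × Fin L1) = L0 * L1 ^ 2 := by
    simp only [Fintype.card_prod, Fintype.card_fin]; ring
  obtain ⟨t, ht0, ht1, ht2⟩ := siegel_simple a (by rw [hcard1, hcard2, hcount])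
    (by rw [hcard1]; exact hpos) M hM1 (by
      intro e l
      have hl : ((l.1 : ℕ), (l.2.1 : ℕ), (l.2.2 : ℕ)) ∈ box := by
        rw [hbox]; simp [Finset.mem_product]
      have h1 := hM _ hl e.1 e.1.2 e.2.1 e.2.1.2 e.2.2 e.2.2.2
      have h2 : ((a e l : ℤ) : ℝ) = ((A (l.1, l.2.1, l.2.2)).choose e.2.1 *
          (B (l.1, l.2.1, l.2.2)).choose e.2.2 : ℝ) *
          ((E (l.1, l.2.1, l.2.2) e.1 : ℕ) : ℝ) := by
        simp only [a]; push_cast; ring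
      rw [h2, hE _ hl, abs_of_nonneg]
      · exact h1
      · have : 0 ≤ fz α β ((P : ℝ) / Q) (l.1, l.2.1, l.2.2) := by unfold fz; positivity
        positivity)
  rw [hcard2] at ht1
  let p : ℕ × ℕ × ℕ → ℤ := fun l =>
    if h : l.1 < L0 ∧ l.2.1 < L1 ∧ l.2.2 < L1 then t (⟨l.1, h.1⟩, ⟨l.2.1, h.2.1⟩, ⟨l.2.2, h.2.2⟩) else 0
  have hp : ∀ l : Fin L0 × Fin L1 × Fin L1, p ((l.1 : ℕ), (l.2.1 : ℕ), (l.2.2 : ℕ)) = t l := by
    intro l
    simp only [p, Fin.is_lt, and_self, dite_true, Fin.eta]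
  refine ⟨p, ?_, ?_, ?_⟩
  · obtain ⟨l, hl⟩ := Function.ne_iff.mp ht0
    refine ⟨((l.1 : ℕ), (l.2.1 : ℕ), (l.2.2 : ℕ)), ?_, ?_⟩
    · rw [hbox]; simp [Finset.mem_product]
    · rw [hp l]; exact hl
  · rintro ⟨k, i, j⟩ hl
    rw [hbox] at hl
    simp only [Finset.mem_product, Finset.mem_range] at hl
    have := ht1 (⟨k, hl.1⟩, ⟨i, hl.2.1⟩, ⟨j, hl.2.2⟩)
    rw [← hp] at this
    push_cast at this
    exact this
  · intro x hx t1 h1 t2 h2
    have h3 := ht2 (⟨x, hx⟩, ⟨t1, h1⟩, ⟨t2, h2⟩)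
    have h4 : (Q : ℝ) ^ (L0 * x) * ∑ l ∈ box,
        (p l : ℝ) * ((A l).choose t1 * (B l).choose t2) * (fz α β ((P : ℝ) / Q) l) ^ x = 0 := by
      have h5 : ∀ l ∈ box, (Q : ℝ) ^ (L0 * x) *
          ((p l : ℝ) * ((A l).choose t1 * (B l).choose t2) * (fz α β ((P : ℝ) / Q) l) ^ x) =
          (((((A l).choose t1 * (B l).choose t2 * E l x : ℕ) : ℤ) * p l : ℤ) : ℝ) := by
        intro l hl
        push_cast
        have := hE l hl x
        push_cast at this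
        rw [this]
        ring
      rw [Finset.mul_sum, Finset.sum_congr rfl h5, ← Int.cast_sum, Int.cast_eq_zero, ← h3,
        Fintype.sum_prod_type, hbox, Finset.sum_product, Finset.sum_range]
      apply Finset.sum_congr rfl
      intro k _
      rw [Fintype.sum_prod_type, Finset.sum_product, Finset.sum_range]
      apply Finset.sum_congr rfl
      intro i _
      rw [Finset.sum_range]
      apply Finset.sum_congr rfl
      intro j _
      rw [hp (k, i, j)]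
    have h6 : (Q : ℝ) ^ (L0 * x) ≠ 0 := by positivity
    exact (mul_eq_zero.mp h4).resolve_left h6

end Pool.Agent.Helper8
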