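import Mathlib
import Pool.Agent.Helper8.Extrap
import Pool.Agent.Helper8.Siegel

set_option autoImplicit false

namespace Pool.Agent.Helper8

open Finset

lemma choose_bound (A t T : ℕ) (K : ℝ) (hK : 1 ≤ K) (hA : (A : ℝ) ≤ K * T) (ht : t ≤ T) :
    (A.choose t : ℝ) ≤ Real.exp (T * (1 + Real.log K)) := by
  have hK0 : 0 < K := by linarith
  by_cases htA : t ≤ A
  · have h1 : (1 / K) ^ t * (A.choose t : ℝ) ≤ (1 / K + 1) ^ A := by
      rw [add_pow]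
      have := Finset.single_le_sum (f := fun m => (1 / K) ^ m * (1 : ℝ) ^ (A - m) * (A.choose m : ℝ))
        (s := range (A + 1)) (fun m _ => by positivity) (Finset.mem_range.mpr (by omega : t < A + 1))
      simpa using this
    have h2 : (1 / K + 1) ^ A ≤ Real.exp T := by
      calc (1 / K + 1) ^ A ≤ (Real.exp (1 / K)) ^ A :=
            pow_le_pow_left₀ (by positivity) (Real.add_one_le_exp _) _
        _ = Real.exp (A * (1 / K)) := by rw [← Real.exp_nat_mul]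
        _ ≤ Real.exp T := by
            apply Real.exp_le_exp.mpr
            rw [mul_one_div, div_le_iff₀ hK0]
            linarith
    have h3 : (A.choose t : ℝ) ≤ K ^ t * Real.exp T := by
      have h4 := h1.trans h2
      calc (A.choose t : ℝ) = K ^ t * ((1 / K) ^ t * (A.choose t : ℝ)) := by
            rw [← mul_assoc, ← mul_pow, mul_one_div_cancel hK0.ne', one_pow, one_mul]
        _ ≤ K ^ t * Real.exp T := mul_le_mul_of_nonneg_left h4 (by positivity)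
    calc (A.choose t : ℝ) ≤ K ^ t * Real.exp T := h3
      _ ≤ K ^ T * Real.exp T :=
          mul_le_mul_of_nonneg_right (pow_le_pow_right₀ hK ht) (Real.exp_pos _).le
      _ = Real.exp (T * (1 + Real.log K)) := by
          rw [mul_add, mul_one, Real.exp_add, Real.exp_nat_mul, Real.exp_log hK0]; ring
  · rw [Nat.choose_eq_zero_of_lt (not_le.mp htA)]
    simp only [Nat.cast_zero]
    exact (Real.exp_pos _).le

lemma int_val (α β P Q : ℕ) (hQ : 0 < Q) (L0 L1 : ℕ) (A B : ℕ × ℕ × ℕ → ℕ) (p : ℕ × ℕ × ℕ → ℤ)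
    (x t1 t2 : ℕ) : ∃ n : ℤ, (Q : ℝ) ^ (L0 * x) * ∑ l ∈ range L0 ×ˢ range L1 ×ˢ range L1,
      (p l : ℝ) * ((A l).choose t1 * (B l).choose t2) * (fz α β ((P : ℝ) / Q) l) ^ x = n := by
  refine ⟨∑ l ∈ range L0 ×ˢ range L1 ×ˢ range L1, p l * (((A l).choose t1 * (B l).choose t2 *
    (Q ^ ((L0 - l.1) * x) * P ^ (l.1 * x) * α ^ (l.2.1 * x) * β ^ (l.2.2 * x)) : ℕ) : ℤ), ?_⟩
  rw [Finset.mul_sum]
  push_cast
  apply Finset.sum_congr rfl
  intro l hl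
  have hl1 : l.1 < L0 := by
    rw [Finset.mem_product] at hl
    exact Finset.mem_range.mp hl.1
  have hQ' : (Q : ℝ) ≠ 0 := by positivity
  have hE : (Q : ℝ) ^ (L0 * x) * (fz α β ((P : ℝ) / Q) l) ^ x =
      (Q : ℝ) ^ ((L0 - l.1) * x) * (P : ℝ) ^ (l.1 * x) * (α : ℝ) ^ (l.2.1 * x) *
        (β : ℝ) ^ (l.2.2 * x) := by
    unfold fz
    have h1 : L0 * x = (L0 - l.1) * x + l.1 * x := by
      rw [← add_mul]; congr 1; omega
    rw [h1, pow_add, mul_pow, mul_pow, div_pow, div_pow, ← pow_mul, ← pow_mul, ← pow_mul, ← pow_mul]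
    have h2 : (Q : ℝ) ^ (l.1 * x) ≠ 0 := by positivity
    field_simp
  calc (Q : ℝ) ^ (L0 * x) * ((p l : ℝ) * ((A l).choose t1 * (B l).choose t2) *
        (fz α β ((P : ℝ) / Q) l) ^ x)
      = (p l : ℝ) * ((A l).choose t1 * (B l).choose t2) *
        ((Q : ℝ) ^ (L0 * x) * (fz α β ((P : ℝ) / Q) l) ^ x) := by ring
    _ = _ := by rw [hE]; ring

lemma extrap_vanish (α β P Q : ℕ) (hα : 0 < α) (hβ : 0 < β) (hP : 0 < P) (hQ : 0 < Q)
    (L0 L1 : ℕ) (p : ℕ × ℕ × ℕ → ℤ)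
    (A B : ℕ × ℕ × ℕ → ℕ) (W : ℕ × ℕ × ℕ → ℝ) (a1 a2 a3 : ℝ)
    (hW : ∀ l ∈ range L0 ×ˢ range L1 ×ˢ range L1, W l = a1 * A l + a2 * B l + a3)
    (wb δ D : ℝ) (hwb : 0 ≤ wb) (hδ0 : 0 ≤ δ)
    (hw : ∀ l ∈ range L0 ×ˢ range L1 ×ˢ range L1, |Real.log (fz α β ((P : ℝ) / Q) l)| ≤ wb)
    (hWb : ∀ l ∈ range L0 ×ˢ range L1 ×ˢ range L1, |W l| ≤ wb)
    (hδ : ∀ l ∈ range L0 ×ˢ range L1 ×ˢ range L1, |Real.log (fz α β ((P : ℝ) / Q) l) - W l| ≤ δ)
    (T s X Xn : ℕ) (hX1 : 1 ≤ X) (hX : X ≤ Xn)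
    (hD : ∀ t1 t2, t1 + t2 ≤ T → ∑ l ∈ range L0 ×ˢ range L1 ×ˢ range L1,
      |(p l : ℝ)| * ((A l).choose t1 * (B l).choose t2) ≤ D) (hD0 : 0 ≤ D)
    (hv : ∀ x < X, ∀ u1 u2, u1 + u2 < T → ∑ l ∈ range L0 ×ˢ range L1 ×ˢ range L1,
      (p l : ℝ) * ((A l).choose u1 * (B l).choose u2) * (fz α β ((P : ℝ) / Q) l) ^ x = 0)
    (qb : ℝ) (hqb : 0 ≤ qb) (hQL : (Q : ℝ) ^ L0 ≤ Real.exp qb)
    (hnum : Real.exp (qb * Xn) * (2 * (D * δ * Real.exp (wb * (1 + X))) * (4 * Xn + 1) ^ (s * X) +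
      D * Real.exp (wb * (5 * Xn)) * (1 / 2) ^ (s * X)) < 1) :
    ∀ x < Xn, ∀ u1 u2, u1 + u2 + s ≤ T → ∑ l ∈ range L0 ×ˢ range L1 ×ˢ range L1,
      (p l : ℝ) * ((A l).choose u1 * (B l).choose u2) * (fz α β ((P : ℝ) / Q) l) ^ x = 0 := by
  intro x hx u1 u2 hu
  set box := range L0 ×ˢ range L1 ×ˢ range L1 with hbox
  have hz : ∀ l, 0 < fz α β ((P : ℝ) / Q) l := by
    intro l; unfold fz; positivity
  have hexp : ∀ l (x : ℕ), Real.exp (Real.log (fz α β ((P : ℝ) / Q) l) * x) =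
      (fz α β ((P : ℝ) / Q) l) ^ x := by
    intro l x
    rw [mul_comm, Real.exp_nat_mul, Real.exp_log (hz l)]
  have hXn : (1 : ℝ) ≤ X := by exact_mod_cast hX1
  have hXXn : (X : ℝ) ≤ Xn := by exact_mod_cast hX
  have hxXn : (x : ℝ) ≤ Xn := by exact_mod_cast hx.le
  have h1 := extrap_step box (fun l => (p l : ℝ)) A B (fun l => Real.log (fz α β ((P : ℝ) / Q) l)) W
    a1 a2 a3 hW wb δ D hwb hδ0 hw hWb hδ T s X Xn (5 * Xn) hXXn (by linarith) u1 u2 (by omega)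
    (hD u1 u2 (by omega)) (by
      intro x hx u1 u2 hu
      rw [← hv x hx u1 u2 hu]
      apply Finset.sum_congr rfl
      intro l _
      rw [hexp]) x (Nat.cast_nonneg _) hxXn (by linarith)
  have h2 : ∑ l ∈ box, (p l : ℝ) * ((A l).choose u1 * (B l).choose u2) *
      Real.exp (Real.log (fz α β ((P : ℝ) / Q) l) * x) =
      ∑ l ∈ box, (p l : ℝ) * ((A l).choose u1 * (B l).choose u2) *
        (fz α β ((P : ℝ) / Q) l) ^ x := by
    apply Finset.sum_congr rfl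
    intro l _
    rw [hexp]
  rw [h2] at h1
  obtain ⟨n, hn⟩ := int_val α β P Q hQ L0 L1 A B p x u1 u2
  rw [← hbox] at hn
  set Sg := ∑ l ∈ box, (p l : ℝ) * ((A l).choose u1 * (B l).choose u2) *
        (fz α β ((P : ℝ) / Q) l) ^ x with hSg
  have h3 : (Q : ℝ) ^ (L0 * x) ≤ Real.exp (qb * Xn) := by
    rw [pow_mul]
    calc ((Q : ℝ) ^ L0) ^ x ≤ (Real.exp qb) ^ x := pow_le_pow_left₀ (by positivity) hQL _
      _ = Real.exp (x * qb) := by rw [← Real.exp_nat_mul]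
      _ ≤ Real.exp (qb * Xn) := by
          apply Real.exp_le_exp.mpr
          rw [mul_comm]
          exact mul_le_mul_of_nonneg_left hxXn hqb
  have h4 : 2 * (Xn : ℝ) / (5 * Xn - X) ≤ 1 / 2 := by
    rw [div_le_div_iff₀ (by linarith) (by norm_num)]
    linarith
  have h5 : (2 * (Xn : ℝ) / (5 * Xn - X)) ^ (s * X) ≤ (1 / 2) ^ (s * X) := by
    apply pow_le_pow_left₀ _ h4
    apply div_nonneg (by positivity) (by linarith)
  have h6 : |Sg| ≤ 2 * (D * δ * Real.exp (wb * (1 + X))) * (4 * Xn + 1) ^ (s * X) +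
      D * Real.exp (wb * (5 * Xn)) * (1 / 2) ^ (s * X) := by
    refine h1.trans ?_
    have : D * Real.exp (wb * (5 * ↑Xn)) * (2 * ↑Xn / (5 * ↑Xn - ↑X)) ^ (s * X) ≤
        D * Real.exp (wb * (5 * Xn)) * (1 / 2) ^ (s * X) :=
      mul_le_mul_of_nonneg_left h5 (by positivity)
    linarith
  have h7 : |(n : ℝ)| < 1 := by
    rw [← hn, abs_mul, abs_of_nonneg (a := (Q : ℝ) ^ (L0 * x)) (by positivity)]
    refine lt_of_le_of_lt ?_ hnum
    exact mul_le_mul h3 h6 (abs_nonneg _) (Real.exp_pos _).le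
  have h8 : n = 0 := by
    have : |n| < 1 := by exact_mod_cast h7
    exact Int.abs_lt_one_iff.mp this
  rw [h8, Int.cast_zero] at hn
  have h9 : (Q : ℝ) ^ (L0 * x) ≠ 0 := by positivity
  exact (mul_eq_zero.mp hn).resolve_left h9

end Pool.Agent.Helper8
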