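import Mathlib
import Pool.Agent.Helper8.ThmAa

set_option autoImplicit false

namespace Pool.Agent.Helper8

open Finset

set_option maxHeartbeats 4000000 in
lemma step_num (c : ℝ) (hc : 3 ≤ c) (K G L1 X XF : ℕ) (Z2 δ : ℝ) (hK : 12 * c + 10 ≤ K)
    (hG : 1 ≤ G) (hL1 : 1 ≤ L1) (hX : 1 ≤ X) (hXF : G * X ≤ XF) (hZ2 : Z2 ≤ X)
    (hδ0 : 0 ≤ δ)
    (hδ : δ ≤ Real.exp (-((3 * c + 10) * (L1 * (XF : ℝ) ^ 2 * K * G)))) :
    Real.exp ((L1 : ℝ) * ((G * X : ℕ) : ℝ)) *
      (2 * (Real.exp ((c + 3) * L1 * Z2) * δ * Real.exp ((c * L1) * (1 + X))) *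
        (4 * ((G * X : ℕ) : ℝ) + 1) ^ (K * G * L1 * X) +
      Real.exp ((c + 3) * L1 * Z2) * Real.exp ((c * L1) * (5 * ((G * X : ℕ) : ℝ))) *
        (1 / 2) ^ (K * G * L1 * X)) < 1 := by
  have hG' : (1 : ℝ) ≤ G := by exact_mod_cast hG
  have hL1' : (1 : ℝ) ≤ L1 := by exact_mod_cast hL1
  have hX' : (1 : ℝ) ≤ X := by exact_mod_cast hX
  have hXF' : ((G * X : ℕ) : ℝ) ≤ XF := by exact_mod_cast hXF
  have hGX : (1 : ℝ) ≤ ((G * X : ℕ) : ℝ) := by push_cast; nlinarith
  have hXGX : (X : ℝ) ≤ ((G * X : ℕ) : ℝ) := by push_cast; nlinarith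
  have hK' : (1 : ℝ) ≤ K := by linarith
  set Y : ℝ := ((G * X : ℕ) : ℝ) with hY
  have hXF1 : (1 : ℝ) ≤ XF := hGX.trans hXF'
  set E0 : ℝ := L1 * (XF : ℝ) ^ 2 * K * G with hE0
  have hXFsq : (XF : ℝ) ≤ (XF : ℝ) ^ 2 := by nlinarith
  have hKG : (1 : ℝ) ≤ (K : ℝ) * G := by nlinarith
  have hE1 : (L1 : ℝ) * XF ≤ E0 := by
    rw [hE0]
    calc (L1 : ℝ) * XF ≤ L1 * (XF : ℝ) ^ 2 := mul_le_mul_of_nonneg_left hXFsq (by linarith)
      _ = (L1 * (XF : ℝ) ^ 2) * 1 := by ring
      _ ≤ (L1 * (XF : ℝ) ^ 2) * (K * G) := mul_le_mul_of_nonneg_left hKG (by positivity)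
      _ = _ := by ring
  have hE2 : 1 ≤ E0 := by nlinarith
  have hE3 : (L1 : ℝ) ≤ E0 := by nlinarith
  -- first term
  have ht1 : Real.exp ((L1 : ℝ) * Y) * (2 * (Real.exp ((c + 3) * L1 * Z2) * δ *
      Real.exp ((c * L1) * (1 + X))) * (4 * Y + 1) ^ (K * G * L1 * X)) ≤ 2 * Real.exp (-2) := by
    have h1 : (4 * Y + 1) ^ (K * G * L1 * X) ≤ Real.exp (4 * E0) := by
      calc (4 * Y + 1) ^ (K * G * L1 * X) ≤ (Real.exp (4 * Y)) ^ (K * G * L1 * X) :=
            pow_le_pow_left₀ (by positivity) (Real.add_one_le_exp _) _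
        _ = Real.exp (((K * G * L1 * X : ℕ) : ℝ) * (4 * Y)) := by rw [← Real.exp_nat_mul]
        _ ≤ Real.exp (4 * E0) := by
            apply Real.exp_le_exp.mpr
            push_cast
            have h2 : (X : ℝ) * Y ≤ (XF : ℝ) ^ 2 := by
              have : (X : ℝ) ≤ XF := hXGX.trans hXF'
              rw [sq]
              exact mul_le_mul this hXF' (by linarith) (by linarith)
            calc (K : ℝ) * G * L1 * X * (4 * Y) = 4 * (K * G * L1) * (X * Y) := by ring
              _ ≤ 4 * (K * G * L1) * ((XF : ℝ) ^ 2) :=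
                  mul_le_mul_of_nonneg_left h2 (by positivity)
              _ = 4 * E0 := by rw [hE0]; ring
    have h2 : Real.exp ((L1 : ℝ) * Y) ≤ Real.exp E0 := by
      apply Real.exp_le_exp.mpr
      exact (mul_le_mul_of_nonneg_left hXF' (by linarith)).trans hE1
    have h3 : Real.exp ((c + 3) * L1 * Z2) ≤ Real.exp ((c + 3) * E0) := by
      apply Real.exp_le_exp.mpr
      have h4 : (L1 : ℝ) * Z2 ≤ E0 := by
        refine le_trans ?_ hE1
        apply mul_le_mul_of_nonneg_left _ (by linarith)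
        linarith
      rw [mul_assoc]
      exact mul_le_mul_of_nonneg_left h4 (by linarith)
    have h4 : Real.exp ((c * L1) * (1 + X)) ≤ Real.exp (2 * c * E0) := by
      apply Real.exp_le_exp.mpr
      have h5 : (L1 : ℝ) * X ≤ E0 := by
        refine le_trans ?_ hE1
        apply mul_le_mul_of_nonneg_left _ (by linarith)
        linarith
      have h6 : c * ((L1 : ℝ) + L1 * X) ≤ c * (2 * E0) :=
        mul_le_mul_of_nonneg_left (by linarith) (by linarith)
      calc (c * L1) * (1 + X) = c * ((L1 : ℝ) + L1 * X) := by ring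
        _ ≤ c * (2 * E0) := h6
        _ = 2 * c * E0 := by ring
    calc Real.exp ((L1 : ℝ) * Y) * (2 * (Real.exp ((c + 3) * L1 * Z2) * δ *
          Real.exp ((c * L1) * (1 + X))) * (4 * Y + 1) ^ (K * G * L1 * X))
        ≤ Real.exp E0 * (2 * (Real.exp ((c + 3) * E0) *
            Real.exp (-((3 * c + 10) * E0)) * Real.exp (2 * c * E0)) * Real.exp (4 * E0)) := by
          gcongr
      _ = 2 * Real.exp (E0 + ((c + 3) * E0 + -((3 * c + 10) * E0) + 2 * c * E0) + 4 * E0) := by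
          rw [Real.exp_add, Real.exp_add, Real.exp_add, Real.exp_add]; ring
      _ ≤ 2 * Real.exp (-2) := by
          apply mul_le_mul_of_nonneg_left _ (by norm_num)
          apply Real.exp_le_exp.mpr
          linarith
  -- second term
  have ht2 : Real.exp ((L1 : ℝ) * Y) * (Real.exp ((c + 3) * L1 * Z2) *
      Real.exp ((c * L1) * (5 * Y)) * (1 / 2) ^ (K * G * L1 * X)) ≤ Real.exp (-1) := by
    have h1 : ((1 : ℝ) / 2) ^ (K * G * L1 * X) ≤ Real.exp (-((K * G * L1 * X : ℕ) * (1 / 2))) := by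
      have h2 : (1 : ℝ) / 2 ≤ Real.exp (-(1 / 2)) := by
        have := Real.add_one_le_exp (-(1 / 2) : ℝ)
        linarith
      calc ((1 : ℝ) / 2) ^ (K * G * L1 * X) ≤ (Real.exp (-(1 / 2))) ^ (K * G * L1 * X) :=
            pow_le_pow_left₀ (by norm_num) h2 _
        _ = Real.exp (-((K * G * L1 * X : ℕ) * (1 / 2))) := by
            rw [← Real.exp_nat_mul]; congr 1; ring
    calc Real.exp ((L1 : ℝ) * Y) * (Real.exp ((c + 3) * L1 * Z2) *
          Real.exp ((c * L1) * (5 * Y)) * (1 / 2) ^ (K * G * L1 * X))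
        ≤ Real.exp ((L1 : ℝ) * Y) * (Real.exp ((c + 3) * L1 * Z2) *
          Real.exp ((c * L1) * (5 * Y)) * Real.exp (-((K * G * L1 * X : ℕ) * (1 / 2)))) := by
          gcongr
      _ = Real.exp ((L1 : ℝ) * Y + ((c + 3) * L1 * Z2 + (c * L1) * (5 * Y) +
            -((K * G * L1 * X : ℕ) * (1 / 2)))) := by
          rw [Real.exp_add, Real.exp_add, Real.exp_add]
      _ ≤ Real.exp (-1) := by
          apply Real.exp_le_exp.mpr
          have h3 : ((K * G * L1 * X : ℕ) : ℝ) = K * (L1 * Y) := by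
            rw [hY]; push_cast; ring
          rw [h3]
          have h4 : (L1 : ℝ) * Z2 ≤ L1 * Y := by
            apply mul_le_mul_of_nonneg_left _ (by linarith)
            linarith
          have h5 : 1 ≤ (L1 : ℝ) * Y := by nlinarith
          have h6 : (c + 3) * L1 * Z2 ≤ (c + 3) * (L1 * Y) := by
            rw [mul_assoc]
            exact mul_le_mul_of_nonneg_left h4 (by linarith)
          have h7 : 0 ≤ ((K : ℝ) / 2 - (6 * c + 5)) * (L1 * Y) :=
            mul_nonneg (by linarith) (by linarith)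
          have h8 : (c * L1) * (5 * Y) = 5 * c * (L1 * Y) := by ring
          rw [h8]
          generalize (L1 : ℝ) * Y = u at *
          linarith
  have he2 : Real.exp (-2) ≤ 1 / 4 := by
    have h := Real.add_one_le_exp (1 : ℝ)
    have h1 : Real.exp 2 = Real.exp 1 * Real.exp 1 := by rw [← Real.exp_add]; norm_num
    have h2 : 4 ≤ Real.exp 2 := by nlinarith
    rw [Real.exp_neg, inv_eq_one_div]
    exact one_div_le_one_div_of_le (by norm_num) h2
  have he1 : Real.exp (-1) < 1 / 2 := by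
    have h := Real.exp_one_gt_d9
    rw [Real.exp_neg, inv_eq_one_div]
    apply one_div_lt_one_div_of_lt (by norm_num)
    linarith
  calc _ = Real.exp ((L1 : ℝ) * Y) * (2 * (Real.exp ((c + 3) * L1 * Z2) * δ *
      Real.exp ((c * L1) * (1 + X))) * (4 * Y + 1) ^ (K * G * L1 * X)) +
      Real.exp ((L1 : ℝ) * Y) * (Real.exp ((c + 3) * L1 * Z2) *
      Real.exp ((c * L1) * (5 * Y)) * (1 / 2) ^ (K * G * L1 * X)) := by ring
    _ < 1 := by linarith

end Pool.Agent.Helper8
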