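import Mathlib
import Pool.Agent.Helper8.ThmAb

set_option autoImplicit false

namespace Pool.Agent.Helper8

open Finset

/-- the natural number `b i + b1 k + s` -/
def nA (b : ℕ) (b1 : ℤ) (s : ℕ) : ℕ × ℕ × ℕ → ℕ :=
  fun l => ((b : ℤ) * l.2.1 + b1 * l.1 + s).toNat
/-- the natural number `b j + b2 k + s` -/
def nB (b : ℕ) (b2 : ℤ) (s : ℕ) : ℕ × ℕ × ℕ → ℕ :=
  fun l => ((b : ℤ) * l.2.2 + b2 * l.1 + s).toNat

lemma nA_aux (b : ℕ) (b1 : ℤ) (NH L0 L1 : ℕ) (hb1 : |(b1 : ℝ)| ≤ NH) (k i : ℕ) (hk : k < L0) :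
    (((((b : ℤ) * i + b1 * k + (L0 * NH : ℕ)).toNat : ℕ) : ℝ) = b * i + b1 * k + (L0 * NH : ℕ)) ∧
    (i < L1 → (((((b : ℤ) * i + b1 * k + (L0 * NH : ℕ)).toNat : ℕ) : ℝ) ≤ b * L1 + 2 * (L0 * NH))) := by
  have h1 : |b1| ≤ (NH : ℤ) := by exact_mod_cast hb1
  have h2 : |b1 * (k : ℤ)| ≤ ((L0 * NH : ℕ) : ℤ) := by
    rw [abs_mul, Nat.abs_cast]
    push_cast
    have h3 : (k : ℤ) ≤ L0 := by exact_mod_cast hk.le
    calc |b1| * (k : ℤ) ≤ NH * L0 := mul_le_mul h1 h3 (by positivity) (by positivity)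
      _ = L0 * NH := by ring
  have h4 := (abs_le.mp h2).1
  have h4' := (abs_le.mp h2).2
  have h5 : 0 ≤ (b : ℤ) * i + b1 * k + (L0 * NH : ℕ) := by
    have : 0 ≤ (b : ℤ) * i := by positivity
    linarith
  have h6 : ((((b : ℤ) * i + b1 * k + (L0 * NH : ℕ)).toNat : ℕ) : ℝ) =
      b * i + b1 * k + (L0 * NH : ℕ) := by
    have h7 : ((((b : ℤ) * i + b1 * k + (L0 * NH : ℕ)).toNat : ℕ) : ℤ) =
        (b : ℤ) * i + b1 * k + (L0 * NH : ℕ) := Int.toNat_of_nonneg h5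
    have h8 : (((((b : ℤ) * i + b1 * k + (L0 * NH : ℕ)).toNat : ℕ) : ℤ) : ℝ) =
        (((b : ℤ) * i + b1 * k + (L0 * NH : ℕ) : ℤ) : ℝ) := by rw [h7]
    rw [Int.cast_natCast] at h8
    rw [h8]
    push_cast
    ring
  refine ⟨h6, fun hi => ?_⟩
  rw [h6]
  have h9 : (b1 : ℝ) * k ≤ ((L0 * NH : ℕ) : ℝ) := by exact_mod_cast h4'
  have h10 : (b : ℝ) * i ≤ b * L1 := by
    apply mul_le_mul_of_nonneg_left _ (Nat.cast_nonneg _)
    exact_mod_cast hi.le
  push_cast at h9 ⊢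
  linarith

lemma abs_log_ratio (P Q H : ℕ) (hP : 0 < P) (hQ : 0 < Q) (hP' : (P : ℝ) ≤ Real.exp H)
    (hQ' : (Q : ℝ) ≤ Real.exp H) : |Real.log ((P : ℝ) / Q)| ≤ H := by
  have hP1 : (1 : ℝ) ≤ P := by exact_mod_cast hP
  have hQ1 : (1 : ℝ) ≤ Q := by exact_mod_cast hQ
  have h1 : 0 ≤ Real.log P := Real.log_nonneg hP1
  have h2 : 0 ≤ Real.log Q := Real.log_nonneg hQ1
  have h3 : Real.log P ≤ H := by
    rw [Real.log_le_iff_le_exp (by linarith)]; exact hP'
  have h4 : Real.log Q ≤ H := by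
    rw [Real.log_le_iff_le_exp (by linarith)]; exact hQ'
  rw [Real.log_div (by positivity) (by positivity), abs_le]
  constructor <;> linarith

set_option maxHeartbeats 4000000 in
theorem thmA_core (α β : ℕ) (hα : 2 ≤ α) (hβ : 2 ≤ β) (c : ℝ)
    (hc : c = 2 + Real.log α + Real.log β) (hc3 : 3 ≤ c) (K : ℕ) (hK : 12 * c + 10 ≤ K) (G : ℕ)
    (hG3 : 3 ≤ G) (hG : 34848 * (24 * K) ^ 11 < G) (P Q H N b : ℕ) (b1 b2 : ℤ)
    (hH : 1 ≤ H) (hP : 0 < P) (hQ : 0 < Q) (hPH : (P : ℝ) ≤ Real.exp H)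
    (hQH : (Q : ℝ) ≤ Real.exp H) (hind : MulIndep3 α β ((P : ℝ) / Q))
    (hb1 : |(b1 : ℝ)| ≤ N * H) (hb2 : |(b2 : ℝ)| ≤ N * H) (hb : 1 ≤ b) (hbN : b ≤ N)
    (hNG : Real.log (N + 2) ≤ G) (Z L0 L1 XF : ℕ) (hZ : Z = 24 * K * G) (hL0 : L0 = 2 * Z ^ 4)
    (hL1 : L1 = L0 * H) (hXF : XF = Z ^ 2 * G ^ 12)
    (hΛ : |(b1 : ℝ) * Real.log α + b2 * Real.log β - b * Real.log ((P : ℝ) / Q)| <
      Real.exp (-((3 * c + 11) * (L1 * (XF : ℝ) ^ 2 * K * G)))) : False := by
  have hK1 : 1 ≤ K := by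
    have : (1 : ℝ) ≤ K := by linarith
    exact_mod_cast this
  have hG1 : 1 ≤ G := by omega
  have hZ1 : 72 ≤ Z := by rw [hZ]; nlinarith
  have hZpos : 0 < Z := by omega
  have hL0pos : 0 < L0 := by rw [hL0]; positivity
  have hL1L0 : L0 ≤ L1 := by rw [hL1]; exact Nat.le_mul_of_pos_right _ hH
  have hL1pos : 0 < L1 := lt_of_lt_of_le hL0pos hL1L0
  -- the shift and the integers A, B
  set sh : ℕ := L0 * (N * H) with hsh
  set A := nA b b1 sh with hAdef
  set B := nB b b2 sh with hBdef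
  set s : ℕ := K * G * L1 with hs
  set box := range L0 ×ˢ range L1 ×ˢ range L1 with hbox
  set y : ℝ := (P : ℝ) / Q with hy
  have hy0 : 0 < y := by rw [hy]; positivity
  set Λ : ℝ := (b1 : ℝ) * Real.log α + b2 * Real.log β - b * Real.log y with hΛdef
  have hα0 : (0 : ℝ) < α := by positivity
  have hβ0 : (0 : ℝ) < β := by positivity
  have hα1 : (1 : ℝ) < α := by exact_mod_cast (by omega : 1 < α)
  have hβ1 : (1 : ℝ) < β := by exact_mod_cast (by omega : 1 < β)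
  have hlα : 0 < Real.log α := Real.log_pos hα1
  have hlβ : 0 < Real.log β := Real.log_pos hβ1
  have hT0 : Z * L1 = 24 * s := by rw [hZ, hs]; ring
  have hmem : ∀ l ∈ box, l.1 < L0 ∧ l.2.1 < L1 ∧ l.2.2 < L1 := by
    intro l hl
    rw [hbox, Finset.mem_product, Finset.mem_product] at hl
    exact ⟨Finset.mem_range.mp hl.1, Finset.mem_range.mp hl.2.1, Finset.mem_range.mp hl.2.2⟩
  have hb1' : |(b1 : ℝ)| ≤ ((N * H : ℕ) : ℝ) := by push_cast; exact hb1
  have hb2' : |(b2 : ℝ)| ≤ ((N * H : ℕ) : ℝ) := by push_cast; exact hb2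
  have hAval : ∀ l ∈ box, (A l : ℝ) = b * l.2.1 + b1 * l.1 + sh := by
    intro l hl
    exact (nA_aux b b1 (N * H) L0 L1 hb1' l.1 l.2.1 (hmem l hl).1).1
  have hBval : ∀ l ∈ box, (B l : ℝ) = b * l.2.2 + b2 * l.1 + sh := by
    intro l hl
    exact (nA_aux b b2 (N * H) L0 L1 hb2' l.1 l.2.2 (hmem l hl).1).1
  have hN1 : (1 : ℝ) ≤ N := by exact_mod_cast hb.trans hbN
  have hbig : (b : ℝ) * L1 + 2 * (L0 * ((N * H : ℕ) : ℝ)) ≤ (3 * N) * ((Z * L1 : ℕ) : ℝ) := by
    have h1 : (b : ℝ) ≤ N := by exact_mod_cast hbN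
    have h2 : (L1 : ℝ) = L0 * H := by rw [hL1]; push_cast; ring
    have h3 : (1 : ℝ) ≤ Z := by exact_mod_cast hZpos
    have h4 : (b : ℝ) * L1 ≤ N * L1 := mul_le_mul_of_nonneg_right h1 (Nat.cast_nonneg _)
    have h5 : 2 * ((L0 : ℝ) * ((N * H : ℕ) : ℝ)) = 2 * N * L1 := by rw [h2]; push_cast; ring
    rw [h5]
    push_cast
    have h6 : (3 * N : ℝ) * L1 * 1 ≤ 3 * N * L1 * Z :=
      mul_le_mul_of_nonneg_left h3 (by positivity)
    linarith
  have hAle : ∀ l ∈ box, (A l : ℝ) ≤ (3 * N) * ((Z * L1 : ℕ) : ℝ) := by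
    intro l hl
    exact ((nA_aux b b1 (N * H) L0 L1 hb1' l.1 l.2.1 (hmem l hl).1).2 (hmem l hl).2.1).trans hbig
  have hBle : ∀ l ∈ box, (B l : ℝ) ≤ (3 * N) * ((Z * L1 : ℕ) : ℝ) := by
    intro l hl
    exact ((nA_aux b b2 (N * H) L0 L1 hb2' l.1 l.2.2 (hmem l hl).1).2 (hmem l hl).2.2).trans hbig
  have hlog3N : 1 + Real.log (3 * N) ≤ 2 * G := by
    have h1 : Real.log (3 * N) ≤ Real.log (3 * (N + 2)) :=
      Real.log_le_log (by positivity) (by linarith)
    have h2 : Real.log (3 * ((N : ℝ) + 2)) = Real.log 3 + Real.log (N + 2) :=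
      Real.log_mul (by norm_num) (by positivity)
    have h3 : Real.log 3 ≤ 3 - 1 := Real.log_le_sub_one_of_pos (by norm_num)
    have h4 : (3 : ℝ) ≤ G := by exact_mod_cast hG3
    linarith
  have hch : ∀ (M t : ℕ), (M : ℝ) ≤ (3 * N) * ((Z * L1 : ℕ) : ℝ) → t ≤ Z * L1 →
      (M.choose t : ℝ) ≤ Real.exp (2 * G * (Z * L1 : ℕ)) := by
    intro M t h1 h2
    refine (choose_bound M t (Z * L1) (3 * N) (by linarith) h1 h2).trans ?_
    apply Real.exp_le_exp.mpr
    rw [mul_comm (2 * (G : ℝ))]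
    exact mul_le_mul_of_nonneg_left hlog3N (Nat.cast_nonneg _)
  have hCC : ∀ l ∈ box, ∀ t1 t2, t1 ≤ Z * L1 → t2 ≤ Z * L1 →
      ((A l).choose t1 : ℝ) * ((B l).choose t2) ≤ Real.exp (4 * G * (Z * L1 : ℕ)) := by
    intro l hl t1 t2 h1 h2
    calc ((A l).choose t1 : ℝ) * ((B l).choose t2)
        ≤ Real.exp (2 * G * (Z * L1 : ℕ)) * Real.exp (2 * G * (Z * L1 : ℕ)) :=
          mul_le_mul (hch _ _ (hAle l hl) h1) (hch _ _ (hBle l hl) h2) (Nat.cast_nonneg _)
            (Real.exp_pos _).le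
      _ = _ := by rw [← Real.exp_add]; congr 1; ring
  -- the exponents w
  have hlogz : ∀ l, Real.log (fz α β y l) = l.1 * Real.log y + l.2.1 * Real.log α +
      l.2.2 * Real.log β := by
    intro l
    unfold fz
    rw [Real.log_mul (by positivity) (by positivity), Real.log_mul (by positivity) (by positivity),
      Real.log_pow, Real.log_pow, Real.log_pow]
  have hlogy : |Real.log y| ≤ H := abs_log_ratio P Q H hP hQ hPH hQH
  have hL1r : (L1 : ℝ) = L0 * H := by rw [hL1]; push_cast; ring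
  have hwb1 : ∀ l ∈ box, |Real.log (fz α β y l)| ≤ (c - 1) * L1 := by
    intro l hl
    obtain ⟨h1, h2, h3⟩ := hmem l hl
    rw [hlogz]
    have e1 : |(l.1 : ℝ) * Real.log y| ≤ L0 * H := by
      rw [abs_mul, Nat.abs_cast]
      exact mul_le_mul (by exact_mod_cast h1.le) hlogy (abs_nonneg _) (Nat.cast_nonneg _)
    have e2 : |(l.2.1 : ℝ) * Real.log α| ≤ L1 * Real.log α := by
      rw [abs_mul, Nat.abs_cast, abs_of_pos hlα]
      exact mul_le_mul_of_nonneg_right (by exact_mod_cast h2.le) hlα.le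
    have e3 : |(l.2.2 : ℝ) * Real.log β| ≤ L1 * Real.log β := by
      rw [abs_mul, Nat.abs_cast, abs_of_pos hlβ]
      exact mul_le_mul_of_nonneg_right (by exact_mod_cast h3.le) hlβ.le
    calc |(l.1 : ℝ) * Real.log y + l.2.1 * Real.log α + l.2.2 * Real.log β|
        ≤ |(l.1 : ℝ) * Real.log y| + |(l.2.1 : ℝ) * Real.log α| + |(l.2.2 : ℝ) * Real.log β| :=
          abs_add_three _ _ _
      _ ≤ L0 * H + L1 * Real.log α + L1 * Real.log β := by linarith
      _ = (c - 1) * L1 := by rw [hc, ← hL1r]; ring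
  have hbr : (1 : ℝ) ≤ b := by exact_mod_cast hb
  set W : ℕ × ℕ × ℕ → ℝ := fun l => Real.log (fz α β y l) + l.1 * Λ / b with hWdef
  have hWval : ∀ l ∈ box, W l = (Real.log α / b) * A l + (Real.log β / b) * B l +
      (-(sh * (Real.log α + Real.log β) / b)) := by
    intro l hl
    rw [hAval l hl, hBval l hl, hWdef]
    simp only
    rw [hlogz, hΛdef]
    field_simp
    ring
  set δ : ℝ := L0 * |Λ| with hδ
  have hδW : ∀ l ∈ box, |Real.log (fz α β y l) - W l| ≤ δ := by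
    intro l hl
    have h1 : Real.log (fz α β y l) - W l = -(l.1 * Λ / b) := by rw [hWdef]; ring
    rw [h1, abs_neg, abs_div, abs_mul, Nat.abs_cast, Nat.abs_cast]
    rw [div_le_iff₀ (by linarith)]
    have h2 : (l.1 : ℝ) * |Λ| ≤ L0 * |Λ| :=
      mul_le_mul_of_nonneg_right (by exact_mod_cast (hmem l hl).1.le) (abs_nonneg _)
    have h3 : 0 ≤ (L0 : ℝ) * |Λ| := by positivity
    rw [hδ]
    nlinarith
  -- E0
  set E0 : ℝ := L1 * (XF : ℝ) ^ 2 * K * G with hE0
  have hXFpos : 1 ≤ XF := by rw [hXF]; exact Nat.pos_of_ne_zero (by positivity)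
  have hE0L1 : (L1 : ℝ) ≤ E0 := by
    have h1 : (1 : ℝ) ≤ (XF : ℝ) ^ 2 * K * G := by
      have : 1 ≤ XF ^ 2 * K * G := Nat.pos_of_ne_zero (by positivity)
      exact_mod_cast this
    calc (L1 : ℝ) = L1 * 1 := by ring
      _ ≤ L1 * ((XF : ℝ) ^ 2 * K * G) := mul_le_mul_of_nonneg_left h1 (Nat.cast_nonneg _)
      _ = E0 := by rw [hE0]; ring
  have hL1one : (1 : ℝ) ≤ L1 := by exact_mod_cast hL1pos
  have hδle : δ ≤ Real.exp (-((3 * c + 10) * E0)) := by
    have h1 : (L0 : ℝ) ≤ Real.exp E0 := by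
      have h2 : (L0 : ℝ) ≤ L1 := by exact_mod_cast hL1L0
      have h3 := Real.add_one_le_exp E0
      linarith
    calc δ ≤ Real.exp E0 * Real.exp (-((3 * c + 11) * E0)) :=
          mul_le_mul h1 hΛ.le (abs_nonneg _) (Real.exp_pos _).le
      _ = Real.exp (-((3 * c + 10) * E0)) := by rw [← Real.exp_add]; congr 1; ring
  have hδ1 : δ ≤ 1 := by
    refine hδle.trans ?_
    rw [Real.exp_le_one_iff]
    have : 0 ≤ (3 * c + 10) * E0 := mul_nonneg (by linarith) (by linarith)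
    linarith
  have hδ0 : 0 ≤ δ := by positivity
  have hwb : ∀ l ∈ box, |Real.log (fz α β y l)| ≤ c * L1 := by
    intro l hl
    have := hwb1 l hl
    nlinarith
  have hWb : ∀ l ∈ box, |W l| ≤ c * L1 := by
    intro l hl
    have h1 := hwb1 l hl
    have h2 := hδW l hl
    have h3 : |W l| ≤ |Real.log (fz α β y l)| + |Real.log (fz α β y l) - W l| := by
      have := abs_sub (Real.log (fz α β y l)) (Real.log (fz α β y l) - W l)
      have h4 : Real.log (fz α β y l) - (Real.log (fz α β y l) - W l) = W l := by ring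
      rw [h4] at this
      exact this
    nlinarith
  -- Q^L0
  have hQL : (Q : ℝ) ^ L0 ≤ Real.exp L1 := by
    calc (Q : ℝ) ^ L0 ≤ (Real.exp H) ^ L0 := pow_le_pow_left₀ (Nat.cast_nonneg _) hQH _
      _ = Real.exp L1 := by rw [← Real.exp_nat_mul, hL1r]
  -- Siegel
  set M : ℝ := Real.exp (4 * G * (Z * L1 : ℕ) + (1 + c) * L1 * (Z : ℝ) ^ 2) with hM
  have hM1 : 1 ≤ M := by
    rw [hM]
    apply Real.one_le_exp
    have : 0 ≤ (1 + c) * L1 * (Z : ℝ) ^ 2 := by
      apply mul_nonneg (mul_nonneg (by linarith) (Nat.cast_nonneg _)) (by positivity)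
    positivity
  obtain ⟨p, ⟨lst, hlst, hplst⟩, hpb, hpv⟩ := siegel_step α β P Q hQ L0 L1 (Z * L1) (Z ^ 2) A B
    (by rw [hL0]; ring) (by positivity) M hM1 (by
      intro l hl x hx t1 ht1 t2 ht2
      have e1 := hCC l hl t1 t2 ht1.le ht2.le
      have hxZ : (x : ℝ) ≤ (Z : ℝ) ^ 2 := by exact_mod_cast hx.le
      have e2 : (Q : ℝ) ^ (L0 * x) ≤ Real.exp (L1 * (Z : ℝ) ^ 2) := by
        rw [pow_mul]
        calc ((Q : ℝ) ^ L0) ^ x ≤ (Real.exp L1) ^ x := pow_le_pow_left₀ (by positivity) hQL _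
          _ = Real.exp (x * L1) := by rw [← Real.exp_nat_mul]
          _ ≤ _ := by
            apply Real.exp_le_exp.mpr
            rw [mul_comm]
            exact mul_le_mul_of_nonneg_left hxZ (Nat.cast_nonneg _)
      have hzp : 0 < fz α β y l := by unfold fz; positivity
      have e3 : (fz α β y l) ^ x ≤ Real.exp (c * L1 * (Z : ℝ) ^ 2) := by
        calc (fz α β y l) ^ x = Real.exp (x * Real.log (fz α β y l)) := by
              rw [Real.exp_nat_mul, Real.exp_log hzp]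
          _ ≤ _ := by
            apply Real.exp_le_exp.mpr
            have h1 := (le_abs_self _).trans (hwb l hl)
            have h2 : 0 ≤ c * (L1 : ℝ) := mul_nonneg (by linarith) (Nat.cast_nonneg _)
            calc (x : ℝ) * Real.log (fz α β y l) ≤ x * (c * L1) :=
                  mul_le_mul_of_nonneg_left h1 (Nat.cast_nonneg _)
              _ ≤ (Z : ℝ) ^ 2 * (c * L1) := mul_le_mul_of_nonneg_right hxZ h2
              _ = _ := by ring
      calc ((A l).choose t1 * (B l).choose t2 : ℝ) * ((Q : ℝ) ^ (L0 * x) * (fz α β y l) ^ x)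
          ≤ Real.exp (4 * G * (Z * L1 : ℕ)) *
            (Real.exp (L1 * (Z : ℝ) ^ 2) * Real.exp (c * L1 * (Z : ℝ) ^ 2)) := by
            apply mul_le_mul e1 _ (by positivity) (Real.exp_pos _).le
            exact mul_le_mul e2 e3 (by positivity) (Real.exp_pos _).le
        _ = M := by
            rw [hM, ← Real.exp_add, ← Real.exp_add]; congr 1; ring)
  rw [← hbox] at hlst hpb hpv
  -- the sum bound
  set D : ℝ := Real.exp ((c + 3) * L1 * (Z : ℝ) ^ 2) with hD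
  have hDbound : ∀ t1 t2, t1 ≤ Z * L1 → t2 ≤ Z * L1 →
      ∑ l ∈ box, |(p l : ℝ)| * ((A l).choose t1 * (B l).choose t2) ≤ D := by
    intro t1 t2 h1 h2
    have hcard : (box.card : ℝ) = L0 * (L1 : ℝ) ^ 2 := by
      rw [hbox, Finset.card_product, Finset.card_product, Finset.card_range, Finset.card_range]
      push_cast; ring
    have hn0 : (0 : ℝ) ≤ L0 * (L1 : ℝ) ^ 2 := by positivity
    have hnexp : (L0 : ℝ) * (L1 : ℝ) ^ 2 ≤ Real.exp (3 * L1) := by
      have h3 : (L0 : ℝ) ≤ Real.exp L1 := by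
        have h2 : (L0 : ℝ) ≤ L1 := by exact_mod_cast hL1L0
        have h3 := Real.add_one_le_exp (L1 : ℝ)
        linarith
      have h4 : (L1 : ℝ) ≤ Real.exp L1 := by
        have h3 := Real.add_one_le_exp (L1 : ℝ)
        linarith
      calc (L0 : ℝ) * (L1 : ℝ) ^ 2 ≤ Real.exp L1 * (Real.exp L1) ^ 2 := by
            apply mul_le_mul h3 (pow_le_pow_left₀ (Nat.cast_nonneg _) h4 2) (by positivity)
              (Real.exp_pos _).le
        _ = Real.exp (3 * L1) := by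
            rw [← Real.exp_nat_mul, ← Real.exp_add]; congr 1; push_cast; ring
    calc ∑ l ∈ box, |(p l : ℝ)| * ((A l).choose t1 * (B l).choose t2)
        ≤ ∑ l ∈ box, (L0 * (L1 : ℝ) ^ 2 * M) * Real.exp (4 * G * (Z * L1 : ℕ)) := by
          apply Finset.sum_le_sum
          intro l hl
          exact mul_le_mul (hpb l hl) (hCC l hl t1 t2 h1 h2) (by positivity) (by positivity)
      _ = (L0 * (L1 : ℝ) ^ 2) * ((L0 * (L1 : ℝ) ^ 2 * M) * Real.exp (4 * G * (Z * L1 : ℕ))) := by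
          rw [Finset.sum_const, nsmul_eq_mul, hcard]
      _ ≤ Real.exp (3 * L1) * ((Real.exp (3 * L1) * M) * Real.exp (4 * G * (Z * L1 : ℕ))) := by
          gcongr
      _ = Real.exp (6 * L1 + 8 * G * (Z * L1 : ℕ) + (1 + c) * L1 * (Z : ℝ) ^ 2) := by
          rw [hM, ← Real.exp_add, ← Real.exp_add, ← Real.exp_add]; congr 1; ring
      _ ≤ D := by
          rw [hD]
          apply Real.exp_le_exp.mpr
          have h3 : (6 : ℝ) ≤ (Z : ℝ) ^ 2 := by
            have : 6 ≤ Z ^ 2 := by nlinarith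
            exact_mod_cast this
          have h4 : 8 * (G : ℝ) ≤ Z := by
            have : 8 * G ≤ Z := by rw [hZ]; nlinarith
            exact_mod_cast this
          have h5 : 6 * (L1 : ℝ) ≤ (Z : ℝ) ^ 2 * L1 :=
            mul_le_mul_of_nonneg_right h3 (Nat.cast_nonneg _)
          have h6 : 8 * (G : ℝ) * (Z * L1) ≤ Z * (Z * L1) :=
            mul_le_mul_of_nonneg_right h4 (by positivity)
          push_cast
          nlinarith
  -- induction over the steps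
  have hmain : ∀ j ≤ 12, ∀ x < Z ^ 2 * G ^ j, ∀ u1 u2, u1 + u2 < (24 - j) * s →
      ∑ l ∈ box, (p l : ℝ) * ((A l).choose u1 * (B l).choose u2) * (fz α β y l) ^ x = 0 := by
    intro j
    induction j with
    | zero =>
      intro _ x hx u1 u2 hu
      rw [pow_zero, mul_one] at hx
      rw [Nat.sub_zero, ← hT0] at hu
      exact hpv x hx u1 (by omega) u2 (by omega)
    | succ j ih =>
      intro hj x hx u1 u2 hu
      have ih' := ih (by omega)
      have hsX : (24 - (j + 1)) * s + s = (24 - j) * s := by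
        rw [← Nat.succ_mul]; congr 1; omega
      have hXpos : 1 ≤ Z ^ 2 * G ^ j := Nat.pos_of_ne_zero (by positivity)
      have hTle : (24 - j) * s ≤ Z * L1 := by
        rw [hT0]; exact Nat.mul_le_mul_right _ (by omega)
      have hXF' : G * (Z ^ 2 * G ^ j) ≤ XF := by
        rw [hXF]
        calc G * (Z ^ 2 * G ^ j) = Z ^ 2 * G ^ (j + 1) := by ring
          _ ≤ Z ^ 2 * G ^ 12 := Nat.mul_le_mul_left _ (Nat.pow_le_pow_right (by omega) hj)
      have hnum := step_num c hc3 K G L1 (Z ^ 2 * G ^ j) XF ((Z : ℝ) ^ 2) δ hK hG1 hL1pos hXpos hXF'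
        (by
          have : Z ^ 2 ≤ Z ^ 2 * G ^ j := Nat.le_mul_of_pos_right _ (Nat.pos_of_ne_zero (by positivity))
          exact_mod_cast this) hδ0 hδle
      have hstep := extrap_vanish α β P Q (by omega) (by omega) hP hQ L0 L1 p A B W
        (Real.log α / b) (Real.log β / b) (-(sh * (Real.log α + Real.log β) / b)) hWval
        (c * L1) δ D (mul_nonneg (by linarith) (Nat.cast_nonneg _)) hδ0 hwb hWb hδW
        ((24 - j) * s) s (Z ^ 2 * G ^ j) (G * (Z ^ 2 * G ^ j)) hXpos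
        (Nat.le_mul_of_pos_left _ (by omega))
        (fun t1 t2 ht => hDbound t1 t2 (by omega) (by omega)) (Real.exp_pos _).le ih' L1
        (Nat.cast_nonneg _) hQL hnum
      refine hstep x ?_ u1 u2 (by omega)
      calc x < Z ^ 2 * G ^ (j + 1) := hx
        _ = G * (Z ^ 2 * G ^ j) := by ring
  have hfin := hmain 12 le_rfl
  rw [← hXF] at hfin
  -- zero estimate
  have hzero := zero3 (α : ℝ) β y hα1 hβ1 hy0 hind (b : ℝ) b1 b2 sh (by positivity) L0 L1
    (6 * K * G * H) (17424 * Z ^ 9) (Nat.pos_of_ne_zero (by positivity)) hL1pos ?_ ?_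
    (fun l => (p l : ℝ)) ?_
  · have := hzero lst hlst
    exact hplst (by exact_mod_cast this)
  · -- 4 L^2 < X T^2
    have h1 : ((6 * K * G * H : ℕ) : ℝ) = Z * H / 4 := by rw [hZ]; push_cast; ring
    have h2 : (L1 : ℝ) = 2 * (Z : ℝ) ^ 4 * H := by rw [hL1, hL0]; push_cast; ring
    rw [h1, h2]
    push_cast
    have hZr : (1 : ℝ) ≤ Z := by exact_mod_cast hZpos
    have hHr : (1 : ℝ) ≤ H := by exact_mod_cast hH
    have h3 : (Z : ℝ) ^ 8 ≤ (Z : ℝ) ^ 11 := pow_le_pow_right₀ hZr (by norm_num)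
    have h4 : 0 < (Z : ℝ) ^ 11 * (H : ℝ) ^ 2 := by positivity
    have h5 : (Z : ℝ) ^ 8 * (H : ℝ) ^ 2 ≤ (Z : ℝ) ^ 11 * (H : ℝ) ^ 2 :=
      mul_le_mul_of_nonneg_right h3 (by positivity)
    calc 4 * (2 * (Z : ℝ) ^ 4 * H) ^ 2 = 16 * ((Z : ℝ) ^ 8 * (H : ℝ) ^ 2) := by ring
      _ < 1089 * ((Z : ℝ) ^ 11 * (H : ℝ) ^ 2) := by linarith
      _ = 17424 * (Z : ℝ) ^ 9 * (Z * H / 4) ^ 2 := by ring
  · have h1 : ((6 * K * G * H : ℕ) : ℝ) = Z * H / 4 := by rw [hZ]; push_cast; ring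
    have h2 : (L1 : ℝ) = 2 * (Z : ℝ) ^ 4 * H := by rw [hL1, hL0]; push_cast; ring
    rw [h1, h2]
    push_cast
    have hZr : (1 : ℝ) ≤ Z := by exact_mod_cast hZpos
    have hHr : (1 : ℝ) ≤ H := by exact_mod_cast hH
    have h3 : 4 * (2 * (Z : ℝ) ^ 4 * H) / (Z * H / 4) = 32 * (Z : ℝ) ^ 3 := by
      field_simp; ring
    have h4 : (Z : ℝ) * H / 4 * (17424 * (Z : ℝ) ^ 9) / (2 * (2 * (Z : ℝ) ^ 4 * H)) =
        (33 * (Z : ℝ) ^ 3) ^ 2 := by
      field_simp; ring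
    rw [h3, h4]
    have h5 : (1 : ℝ) ≤ (Z : ℝ) ^ 3 := one_le_pow₀ hZr
    exact pow_le_pow_left₀ (by positivity) (by linarith) 2
  · intro x hx t1 t2 ht
    have hxXF : x < XF := by
      refine lt_of_le_of_lt hx ?_
      rw [hXF, hL0]
      calc 2 * Z ^ 4 * (17424 * Z ^ 9) = Z ^ 2 * (34848 * Z ^ 11) := by ring
        _ < Z ^ 2 * G ^ 12 := by
          apply Nat.mul_lt_mul_of_pos_left _ (by positivity)
          calc 34848 * Z ^ 11 = (34848 * (24 * K) ^ 11) * G ^ 11 := by rw [hZ]; ring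
            _ < G * G ^ 11 := Nat.mul_lt_mul_of_pos_right hG (by positivity)
            _ = G ^ 12 := by ring
    have ht' : t1 + t2 < (24 - 12) * s := by
      have h1 : L0 * (6 * K * G * H) = 6 * s := by rw [hs, hL1]; ring
      rw [h1] at ht
      have h2 : 0 < s := by rw [hs]; positivity
      omega
    have h1 := binom_to_powers box A B (fun l => (p l : ℝ) * (fz α β y l) ^ x) ((24 - 12) * s)
      (by
        intro u1 u2 hu
        rw [← hfin x hxXF u1 u2 hu]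
        apply Finset.sum_congr rfl
        intro l _
        ring) t1 t2 ht'
    rw [← h1]
    apply Finset.sum_congr rfl
    intro l hl
    rw [hAval l hl, hBval l hl]
    unfold fA fB
    ring

end Pool.Agent.Helper8
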