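import Mathlib
import Pool.Agent.Helper8.ThmAc

set_option autoImplicit false

namespace Pool.Agent.Helper8

open Finset

set_option maxHeartbeats 4000000 in
/-- Theorem A. -/
theorem thmA (α β : ℕ) (hα : 2 ≤ α) (hβ : 2 ≤ β) : ThmA α β := by
  set c : ℝ := 2 + Real.log α + Real.log β with hc
  have hl2 : 1 / 2 ≤ Real.log 2 := by linarith [Real.log_two_gt_d9]
  have hlα : 1 / 2 ≤ Real.log α := by
    refine hl2.trans (Real.log_le_log (by norm_num) ?_)
    exact_mod_cast hα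
  have hlβ : 1 / 2 ≤ Real.log β := by
    refine hl2.trans (Real.log_le_log (by norm_num) ?_)
    exact_mod_cast hβ
  have hc3 : 3 ≤ c := by rw [hc]; linarith
  set K : ℕ := ⌈12 * c + 10⌉₊ with hK
  have hKle : 12 * c + 10 ≤ K := Nat.le_ceil _
  set G0 : ℕ := 34848 * (24 * K) ^ 11 + 3 with hG0
  set C1 : ℝ := 2 * (24 * K) ^ 8 * K * (3 * c + 11) with hC1
  have hC1pos : 0 ≤ C1 := by
    rw [hC1]
    apply mul_nonneg (by positivity) (by linarith)
  refine ⟨max 33 (C1 * (G0 + 2) ^ 33), le_trans (by norm_num) (le_max_left _ _), ?_⟩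
  set C : ℝ := max 33 (C1 * (G0 + 2) ^ 33) with hC
  have hC33 : 33 ≤ C := le_max_left _ _
  have hCC1 : C1 * (G0 + 2) ^ 33 ≤ C := le_max_right _ _
  intro P Q H N b b1 b2 hH hP hQ hPH hQH hind hb1 hb2 hb hbN
  by_contra hcon
  rw [not_le] at hcon
  set u : ℝ := Real.log (N + 2) with hu
  have hN1 : (1 : ℝ) ≤ N := by exact_mod_cast hb.trans hbN
  have hu1 : 1 ≤ u := by
    rw [hu, Real.le_log_iff_exp_le (by positivity)]
    have := Real.exp_one_lt_d9
    linarith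
  set G : ℕ := G0 + ⌈u⌉₊ with hG
  have hGu : u ≤ G := by
    have := Nat.le_ceil u
    rw [hG]; push_cast
    have : (0 : ℝ) ≤ G0 := Nat.cast_nonneg _
    linarith
  have hGle : (G : ℝ) ≤ (G0 + 2) * u := by
    have h1 : (⌈u⌉₊ : ℝ) < u + 1 := Nat.ceil_lt_add_one (by linarith)
    rw [hG]; push_cast
    have : (0 : ℝ) ≤ G0 := Nat.cast_nonneg _
    nlinarith
  apply thmA_core α β hα hβ c hc hc3 K hKle G (by omega) (by omega) P Q H N b b1 b2 hH hP hQ hPH hQH
    hind hb1 hb2 hb hbN hGu (24 * K * G) (2 * (24 * K * G) ^ 4) (2 * (24 * K * G) ^ 4 * H)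
    ((24 * K * G) ^ 2 * G ^ 12) rfl rfl rfl rfl
  refine lt_of_lt_of_le hcon (Real.exp_le_exp.mpr (neg_le_neg ?_))
  have h1 : (3 * c + 11) * (((2 * (24 * K * G) ^ 4 * H : ℕ) : ℝ) *
      (((24 * K * G) ^ 2 * G ^ 12 : ℕ) : ℝ) ^ 2 * K * G) = H * (C1 * (G : ℝ) ^ 33) := by
    rw [hC1]; push_cast; ring
  rw [h1]
  apply mul_le_mul_of_nonneg_left _ (Nat.cast_nonneg _)
  have hu0 : 0 < u := by linarith
  calc C1 * (G : ℝ) ^ 33 ≤ C1 * ((G0 + 2) * u) ^ 33 :=
        mul_le_mul_of_nonneg_left (pow_le_pow_left₀ (Nat.cast_nonneg _) hGle _) hC1pos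
    _ = (C1 * (G0 + 2) ^ 33) * u ^ 33 := by rw [mul_pow]; ring
    _ ≤ C * u ^ 33 := mul_le_mul_of_nonneg_right hCC1 (by positivity)
    _ ≤ C ^ 33 * u ^ 33 := by
        apply mul_le_mul_of_nonneg_right _ (by positivity)
        exact le_self_pow₀ (by linarith) (by norm_num)
    _ = (C * u) ^ ((33 : ℕ) : ℝ) := by rw [Real.rpow_natCast, mul_pow]
    _ ≤ (C * u) ^ C := by
        apply Real.rpow_le_rpow_of_exponent_le
        · exact one_le_mul_of_one_le_of_one_le (by linarith) hu1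
        · exact_mod_cast hC33

end Pool.Agent.Helper8
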