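import Mathlib
import Pool.Agent.Helper8.ThmA

set_option autoImplicit false

namespace Pool.Agent.Helper8

open Finset

lemma indep_253 : MulIndep3 ((2 : ℕ) : ℝ) ((5 : ℕ) : ℝ) (((3 : ℕ) : ℝ) / ((1 : ℕ) : ℝ)) := by
  intro i j k h
  have h1 : (2 : ℚ) ^ i * 5 ^ j * 3 ^ k = 1 := by
    have : (((2 : ℚ) ^ i * 5 ^ j * 3 ^ k : ℚ) : ℝ) = ((1 : ℚ) : ℝ) := by
      push_cast
      simpa using h
    exact_mod_cast this
  have hv : ∀ p : ℕ, p.Prime → i * padicValRat p 2 + j * padicValRat p 5 + k * padicValRat p 3 = 0 := by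
    intro p hp
    have := Fact.mk hp
    have h2 := congrArg (padicValRat p) h1
    rw [padicValRat.mul (by positivity) (by positivity), padicValRat.mul (by positivity)
      (by positivity), padicValRat.zpow, padicValRat.zpow, padicValRat.zpow,
      padicValRat.one] at h2
    exact h2
  have v : ∀ p q : ℕ, p.Prime → q.Prime → padicValRat p (q : ℚ) = if p = q then 1 else 0 := by
    intro p q hp hq
    have := Fact.mk hp
    have := Fact.mk hq
    rw [padicValRat.of_nat]
    by_cases h : p = q
    · subst h; simp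
    · rw [if_neg h, padicValNat_primes h]; simp
  have p2 : Nat.Prime 2 := by norm_num
  have p3 : Nat.Prime 3 := by norm_num
  have p5 : Nat.Prime 5 := by norm_num
  have e2 := hv 2 p2
  have e3 := hv 3 p3
  have e5 := hv 5 p5
  have v22 := v 2 2 p2 p2
  have v25 := v 2 5 p2 p5
  have v23 := v 2 3 p2 p3
  have v32 := v 3 2 p3 p2
  have v35 := v 3 5 p3 p5
  have v33 := v 3 3 p3 p3
  have v52 := v 5 2 p5 p2
  have v55 := v 5 5 p5 p5
  have v53 := v 5 3 p5 p3
  norm_num at v22 v25 v23 v32 v35 v33 v52 v55 v53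
  rw [v22, v25, v23] at e2
  rw [v32, v35, v33] at e3
  rw [v52, v55, v53] at e5
  refine ⟨by linarith, by linarith, by linarith⟩

/-- Theorem B. -/
theorem thmB : ThmB := by
  obtain ⟨C, hC1, hC⟩ := thmA 2 5 (by norm_num) (by norm_num)
  refine ⟨2 * C, by linarith, ?_⟩
  intro m n hmn
  set N : ℕ := m.natAbs + n.natAbs with hN
  have hNr : (|(m : ℝ)| + |(n : ℝ)| + 2) = (N : ℝ) + 2 := by
    rw [hN]; push_cast
    rw [Nat.cast_natAbs, Nat.cast_natAbs]; push_cast; ring
  rw [hNr]
  have hN1 : 1 ≤ N := by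
    rcases hmn with h | h
    · have := Int.natAbs_pos.mpr h; omega
    · have := Int.natAbs_pos.mpr h; omega
  have hN1r : (1 : ℝ) ≤ N := by exact_mod_cast hN1
  set u : ℝ := Real.log (N + 2) with hu
  have hu1 : 1 ≤ u := by
    rw [hu, Real.le_log_iff_exp_le (by positivity)]
    have := Real.exp_one_lt_d9
    linarith
  have hCu : 1 ≤ C * u := one_le_mul_of_one_le_of_one_le hC1 hu1
  have hbig : 2 * (C * u) ^ C ≤ (2 * C * u) ^ (2 * C) := by
    have h1 : (2 * C * u) ^ (C + 1) ≤ (2 * C * u) ^ (2 * C) :=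
      Real.rpow_le_rpow_of_exponent_le (by nlinarith) (by linarith)
    refine le_trans ?_ h1
    rw [Real.rpow_add (by nlinarith), Real.rpow_one, mul_comm (2 : ℝ)]
    apply mul_le_mul _ (by nlinarith) (by norm_num) (by positivity)
    exact Real.rpow_le_rpow (by linarith) (by nlinarith) (by linarith)
  by_cases hn : n = 0
  · have hm : m ≠ 0 := by
      rcases hmn with h | h
      · exact h
      · exact absurd hn h
    rw [hn]
    simp only [Int.cast_zero, zero_mul, add_zero]
    rw [abs_mul, abs_of_pos (Real.log_pos (by norm_num : (1 : ℝ) < 2))]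
    have h1 : (1 : ℝ) ≤ |(m : ℝ)| := by
      have := Int.one_le_abs hm
      exact_mod_cast this
    have h2 : Real.exp (-(2 * C * u) ^ (2 * C)) ≤ Real.exp (-1) := by
      apply Real.exp_le_exp.mpr
      have : 1 ≤ (2 * C * u) ^ (2 * C) := Real.one_le_rpow (by nlinarith) (by linarith)
      linarith
    have h3 : Real.exp (-1) < 1 / 2 := by
      have h := Real.exp_one_gt_d9
      rw [Real.exp_neg, inv_eq_one_div]
      apply one_div_lt_one_div_of_lt (by norm_num)
      linarith
    have h4 := Real.log_two_gt_d9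
    nlinarith
  · have hb : 1 ≤ n.natAbs := Int.natAbs_pos.mpr hn
    set b1 : ℤ := if 0 < n then -m else m with hb1
    have hb1abs : |(b1 : ℝ)| = |(m : ℝ)| := by
      rw [hb1]; split_ifs <;> simp
    have habs : |(b1 : ℝ) * Real.log (2 : ℕ) + ((0 : ℤ) : ℝ) * Real.log (5 : ℕ) -
        (n.natAbs : ℕ) * Real.log (((3 : ℕ) : ℝ) / ((1 : ℕ) : ℝ))| =
        |(m : ℝ) * Real.log 2 + n * Real.log 3| := by
      rcases lt_or_gt_of_ne hn with h | h
      · rw [hb1, if_neg (by omega)]
        have : ((n.natAbs : ℕ) : ℝ) = -n := by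
          rw [Nat.cast_natAbs, abs_of_neg h]; push_cast; ring
        rw [this]; norm_num
      · rw [hb1, if_pos h]
        have : ((n.natAbs : ℕ) : ℝ) = n := by
          rw [Nat.cast_natAbs, abs_of_pos h]
        rw [this, ← abs_neg]; norm_num
        congr 1; ring
    have hmN : |(m : ℝ)| ≤ N := by
      have : (m.natAbs : ℝ) ≤ N := by rw [hN]; push_cast; linarith [Nat.cast_nonneg (α := ℝ) n.natAbs]
      rw [Nat.cast_natAbs] at this
      simpa using this
    have h := hC 3 1 2 N n.natAbs b1 0 (by norm_num) (by norm_num) (by norm_num)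
      (by
        have h1 := Real.add_one_le_exp (1 : ℝ)
        have h2 : Real.exp ((2 : ℕ) : ℝ) = Real.exp 1 * Real.exp 1 := by
          rw [← Real.exp_add]; norm_num
        rw [h2]; push_cast; nlinarith)
      (by
        have : (1 : ℝ) ≤ Real.exp ((2 : ℕ) : ℝ) := Real.one_le_exp (by norm_num)
        push_cast at this ⊢
        exact this)
      indep_253
      (by rw [hb1abs]; push_cast; linarith)
      (by simp) hb (by omega)
    rw [habs] at h
    refine le_trans ?_ h
    apply Real.exp_le_exp.mpr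
    apply neg_le_neg
    push_cast
    exact hbig

end Pool.Agent.Helper8
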